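import Mathlib

/-! Static combinatorics of one region and of one level. -/

namespace Pool.Agent.LibRC

section Region

variable {γ β : Type} [DecidableEq γ] [DecidableEq β] [Inhabited γ]

/-- cost of a cell -/
def phi (T : ℕ) (val : Finset β → β) (zero : β) (A : Finset β) : ℕ :=
  min A.card T + if val A = zero then 0 else 2

structure ValSpec (Y : Finset β) (T : ℕ) (val : Finset β → β) (zero : β) : Prop where
  fix : ∀ A ⊆ Y, A.card < T → ∀ m ∈ Y, ∃ A' ⊆ Y, A ⊆ A' ∧ A'.card ≤ A.card + 2 ∧ val A' = m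
  full : val Y = zero
  zero_mem : zero ∈ Y

theorem cell_fix {Y : Finset β} {T : ℕ} {val : Finset β → β} {zero : β}
    (hv : ValSpec Y T val zero) (A : Finset β) (hA : A ⊆ Y) (m : β) (hm : m ∈ Y)
    (h : A.card < T ∨ val A = m ∨ m = zero) :
    ∃ A' ⊆ Y, A ⊆ A' ∧ val A' = m ∧
      phi T val zero A' ≤ phi T val zero A + (if m ≠ zero ∧ val A ≠ m then 4 else 0) := by
  by_cases h1 : val A = m
  · refine ⟨A, hA, subset_rfl, h1, by omega⟩
  by_cases h2 : A.card < T
  · obtain ⟨A', h3, h4, h5, h6⟩ := hv.fix A hA h2 m hm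
    refine ⟨A', h3, h4, h6, ?_⟩
    unfold phi
    have : min A'.card T ≤ min A.card T + 2 := by omega
    by_cases h7 : m = zero
    · have h8 : val A ≠ zero := fun h => h1 (h.trans h7.symm)
      have e1 : (if val A' = zero then 0 else 2) = 0 := if_pos (h6.trans h7)
      have e2 : (if val A = zero then 0 else 2) = 2 := if_neg h8
      omega
    · have e1 : (if m ≠ zero ∧ val A ≠ m then 4 else 0) = 4 := if_pos ⟨h7, h1⟩
      have e2 : (if val A' = zero then 0 else 2) ≤ 2 := by split_ifs <;> omega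
      omega
  · have h7 : m = zero := by
      rcases h with h | h | h
      · exact absurd h h2
      · exact absurd h h1
      · exact h
    have h8 : val A ≠ zero := fun h => h1 (h.trans h7.symm)
    refine ⟨Y, subset_rfl, hA, hv.full.trans h7.symm, ?_⟩
    unfold phi
    have e1 : (if val Y = zero then 0 else 2) = 0 := if_pos hv.full
    have e2 : (if val A = zero then 0 else 2) = 2 := if_neg h8
    omega

/-- Region lemma. -/
theorem region_fix {Y : Finset β} {T : ℕ} {val : Finset β → β} {zero : β}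
    (hv : ValSpec Y T val zero) (C : Finset γ) (Z : γ → Finset β)
    (hZ : ∀ c ∈ C, Z c ⊆ Y) (D : Finset β) (hD : D ⊆ Y)
    (hcard : D.card ≤ (C.filter fun c => (Z c).card < T).card) :
    ∃ Z' : γ → Finset β, (∀ c, Z c ⊆ Z' c) ∧ (∀ c ∈ C, Z' c ⊆ Y) ∧ (∀ c ∉ C, Z' c = Z c) ∧
      (∀ m, m ≠ zero → ((∃ c ∈ C, val (Z' c) = m) ↔ m ∈ D)) ∧
      ∑ c ∈ C, phi T val zero (Z' c) ≤
        ∑ c ∈ C, phi T val zero (Z c) + 4 * (D.filter fun m => ∀ c ∈ C, val (Z c) ≠ m).card := by
  classical
  -- hosts of shown tags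
  have hh : ∀ m ∈ D.filter (fun m => ∃ c ∈ C, val (Z c) = m), ∃ c ∈ C, val (Z c) = m := by
    intro m hm
    exact (Finset.mem_filter.1 hm).2
  choose! h hhC hhv using hh
  set S1 := D.filter (fun m => ∃ c ∈ C, val (Z c) = m) with hS1
  set S2 := D.filter (fun m => ∀ c ∈ C, val (Z c) ≠ m) with hS2
  have hS12 : S1.card + S2.card = D.card := by
    rw [hS1, hS2, ← Finset.card_filter_add_card_filter_not (s := D)
      (p := fun m => ∃ c ∈ C, val (Z c) = m)]
    congr 2
    ext m
    simp
  set H1 := S1.image h with hH1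
  have hH1c : H1.card ≤ S1.card := Finset.card_image_le
  set Al := (C.filter fun c => (Z c).card < T) \ H1 with hAl
  have hAlc : S2.card ≤ Al.card := by
    have := Finset.le_card_sdiff H1 (C.filter fun c => (Z c).card < T)
    rw [← hAl] at this
    omega
  obtain ⟨Al', hAl', hAlc'⟩ := Finset.exists_subset_card_eq hAlc
  obtain ⟨g⟩ : Nonempty (S2 ≃ Al') := ⟨Finset.equivOfCardEq hAlc'.symm⟩
  -- final values
  let f : γ → β := fun c =>
    if c ∈ H1 then val (Z c) else if hc : c ∈ Al' then (g.symm ⟨c, hc⟩ : β) else zero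
  have hfY : ∀ c ∈ C, f c ∈ Y := by
    intro c hc
    simp only [f]
    split_ifs with h1 h2
    · obtain ⟨m, hm, rfl⟩ := Finset.mem_image.1 h1
      rw [hhv m hm]
      exact hD (Finset.mem_filter.1 hm).1
    · exact hD (Finset.mem_filter.1 (g.symm ⟨c, h2⟩).2).1
    · exact hv.zero_mem
  have hfc : ∀ c ∈ C, (Z c).card < T ∨ val (Z c) = f c ∨ f c = zero := by
    intro c hc
    simp only [f]
    split_ifs with h1 h2
    · right; left; trivial
    · left
      have := Finset.mem_sdiff.1 (hAl' h2)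
      exact (Finset.mem_filter.1 this.1).2
    · right; right; trivial
  have key : ∀ c, ∃ A', c ∈ C → (A' ⊆ Y ∧ Z c ⊆ A' ∧ val A' = f c ∧
      phi T val zero A' ≤ phi T val zero (Z c) +
        (if f c ≠ zero ∧ val (Z c) ≠ f c then 4 else 0)) := by
    intro c
    by_cases hc : c ∈ C
    · obtain ⟨A', a1, a2, a3, a4⟩ := cell_fix hv (Z c) (hZ c hc) (f c) (hfY c hc) (hfc c hc)
      exact ⟨A', fun _ => ⟨a1, a2, a3, a4⟩⟩
    · exact ⟨∅, fun h => absurd h hc⟩
  choose Z1 hZ1 using key
  refine ⟨fun c => if c ∈ C then Z1 c else Z c, ?_, ?_, ?_, ?_, ?_⟩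
  · intro c
    by_cases hc : c ∈ C
    · simp only [hc, if_true]; exact (hZ1 c hc).2.1
    · simp only [hc, if_false]; exact subset_rfl
  · intro c hc
    simp only [hc, if_true]; exact (hZ1 c hc).1
  · intro c hc
    simp only [hc, if_false]
  · intro m hm
    have e1 : (∃ c ∈ C, val (if c ∈ C then Z1 c else Z c) = m) ↔ ∃ c ∈ C, f c = m := by
      constructor
      · rintro ⟨c, hc, h1⟩
        rw [if_pos hc, (hZ1 c hc).2.2.1] at h1
        exact ⟨c, hc, h1⟩
      · rintro ⟨c, hc, h1⟩
        refine ⟨c, hc, ?_⟩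
        rw [if_pos hc, (hZ1 c hc).2.2.1, h1]
    rw [e1]
    constructor
    · rintro ⟨c, hc, rfl⟩
      simp only [f] at hm ⊢
      split_ifs at hm ⊢ with h1 h2
      · obtain ⟨m, hm', rfl⟩ := Finset.mem_image.1 h1
        rw [hhv m hm']
        exact (Finset.mem_filter.1 hm').1
      · exact (Finset.mem_filter.1 (g.symm ⟨c, h2⟩).2).1
      · exact absurd rfl hm
    · intro hmD
      by_cases hs : ∃ c ∈ C, val (Z c) = m
      · have hm1 : m ∈ S1 := Finset.mem_filter.2 ⟨hmD, hs⟩
        refine ⟨h m, hhC m hm1, ?_⟩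
        simp only [f]
        rw [if_pos (Finset.mem_image_of_mem h hm1)]
        exact hhv m hm1
      · push Not at hs
        have hm2 : m ∈ S2 := Finset.mem_filter.2 ⟨hmD, hs⟩
        have h3 := (g ⟨m, hm2⟩).2
        have h4 := Finset.mem_sdiff.1 (hAl' h3)
        refine ⟨g ⟨m, hm2⟩, (Finset.mem_filter.1 h4.1).1, ?_⟩
        simp only [f]
        rw [if_neg h4.2, dif_pos h3]
        simp
  · -- cost
    have step : ∀ c ∈ C, phi T val zero (if c ∈ C then Z1 c else Z c) ≤
        phi T val zero (Z c) + (if c ∈ Al' then 4 else 0) := by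
      intro c hc
      rw [if_pos hc]
      refine (hZ1 c hc).2.2.2.trans ?_
      have : (if f c ≠ zero ∧ val (Z c) ≠ f c then 4 else 0) ≤ (if c ∈ Al' then 4 else 0) := by
        by_cases h5 : c ∈ Al'
        · rw [if_pos h5]; split_ifs <;> omega
        · rw [if_neg h5, if_neg]
          rintro ⟨h6, h7⟩
          simp only [f] at h6 h7
          split_ifs at h6 h7 with h8
          · exact h7 rfl
          · exact h6 rfl
      omega
    refine (Finset.sum_le_sum step).trans ?_
    rw [Finset.sum_add_distrib]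
    have : ∑ c ∈ C, (if c ∈ Al' then 4 else 0) ≤ 4 * S2.card := by
      rw [← Finset.sum_filter, Finset.sum_const, smul_eq_mul, mul_comm, ← hAlc']
      refine Nat.mul_le_mul_left 4 (Finset.card_le_card ?_)
      intro c hc
      exact (Finset.mem_filter.1 hc).2
    omega

theorem phi_mono_add {T : ℕ} {val : Finset β → β} {zero : β} {A A' : Finset β} (h : A ⊆ A') :
    phi T val zero A' ≤ phi T val zero A + 3 * (A' \ A).card := by
  have hc : (A' \ A).card = A'.card - A.card := Finset.card_sdiff_of_subset h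
  have hc' := Finset.card_le_card h
  by_cases h1 : A = A'
  · subst h1; omega
  · have h2 : A.card < A'.card := Finset.card_lt_card (Finset.ssubset_iff_subset_ne.2 ⟨h, h1⟩)
    unfold phi
    have e1 : (if val A' = zero then 0 else 2) ≤ 2 := by split_ifs <;> omega
    omega

/-- total of the truncated cell counts -/
def gsum (T : ℕ) (C : Finset γ) (Z : γ → Finset β) : ℕ := ∑ c ∈ C, min (Z c).card T

def Heavy (T : ℕ) (C : Finset γ) (Z : γ → Finset β) : Prop := C.card * T ≤ 2 * gsum T C Z

instance (T : ℕ) (C : Finset γ) (Z : γ → Finset β) : Decidable (Heavy T C Z) :=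
  inferInstanceAs (Decidable (_ ≤ _))

omit [DecidableEq γ] [DecidableEq β] [Inhabited γ] in
theorem gsum_mono {T : ℕ} {C : Finset γ} {Z Z' : γ → Finset β} (h : ∀ c ∈ C, Z c ⊆ Z' c) :
    gsum T C Z ≤ gsum T C Z' := by
  refine Finset.sum_le_sum fun c hc => ?_
  have := Finset.card_le_card (h c hc)
  omega

theorem heavy_mono {T : ℕ} {C : Finset γ} {Z Z' : γ → Finset β} (h : ∀ c ∈ C, Z c ⊆ Z' c)
    (hh : Heavy T C Z) : Heavy T C Z' := by
  have := gsum_mono (T := T) h
  unfold Heavy at *
  omega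

omit [DecidableEq γ] [DecidableEq β] [Inhabited γ] in
theorem light_alive {T : ℕ} {C : Finset γ} {Z : γ → Finset β} (hh : ¬ Heavy T C Z) :
    C.card < 2 * (C.filter fun c => (Z c).card < T).card := by
  have h1 : (C.filter fun c => ¬ (Z c).card < T).card * T ≤ gsum T C Z := by
    rw [← smul_eq_mul, ← Finset.sum_const]
    refine (Finset.sum_le_sum (g := fun c => min (Z c).card T) fun c hc => ?_).trans
      (Finset.sum_le_sum_of_subset (Finset.filter_subset _ _))
    have := (Finset.mem_filter.1 hc).2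
    omega
  have h2 := Finset.card_filter_add_card_filter_not (s := C) (p := fun c => (Z c).card < T)
  unfold Heavy at hh
  have h3 : (C.filter fun c => ¬ (Z c).card < T).card * T * 2 < C.card * T := by omega
  have h4 : (C.filter fun c => ¬ (Z c).card < T).card * 2 < C.card := by
    by_contra h5
    have := Nat.mul_le_mul_right T (not_lt.1 h5)
    nlinarith
  omega

end Region

section Level

variable {α ρ γ β : Type} [DecidableEq α] [DecidableEq ρ] [DecidableEq γ] [DecidableEq β]
  [Inhabited γ]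

/-- number of tags of `D` not shown -/
def missing (val : Finset β → β) (C : Finset γ) (Z : γ → Finset β) (D : Finset β) : ℕ :=
  (D.filter fun m => ∀ c ∈ C, val (Z c) ≠ m).card

/-- Level lemma. -/
theorem level_fix {Y : Finset β} {T : ℕ} {val : Finset β → β} {zero : β}
    (hv : ValSpec Y T val zero) (V : Finset α) (R : Finset ρ) (C : Finset γ)
    (Z Zp : ρ → γ → Finset β) (hZZ : ∀ r c, Z r c ⊆ Zp r c)
    (hZp : ∀ r ∈ R, ∀ c ∈ C, Zp r c ⊆ Y)
    (loc : α → ρ) (hloc : ∀ v ∈ V, loc v ∈ R) (hinj : Set.InjOn loc V)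
    (D : α → Finset β) (hD : ∀ v ∈ V, D v ⊆ Y) (M : ℕ) (hM : ∀ v ∈ V, (D v).card ≤ M)
    (hMC : 2 * M ≤ C.card) (k : ℕ) (hk : ∑ r ∈ R, ∑ c ∈ C, (Zp r c \ Z r c).card ≤ k)
    (hroom : (R.filter fun r => Heavy T C (Zp r)).card + V.card ≤ R.card) :
    ∃ (Z' : ρ → γ → Finset β) (loc' : α → ρ),
      (∀ r c, Zp r c ⊆ Z' r c) ∧ (∀ r ∈ R, ∀ c ∈ C, Z' r c ⊆ Y) ∧
      (∀ r c, ¬ (r ∈ R ∧ c ∈ C) → Z' r c = Zp r c) ∧
      (∀ v ∈ V, loc' v ∈ R) ∧ Set.InjOn loc' V ∧
      (∀ v ∈ V, ∀ m, m ≠ zero → ((∃ c ∈ C, val (Z' (loc' v) c) = m) ↔ m ∈ D v)) ∧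
      (∑ r ∈ R, ∑ c ∈ C, phi T val zero (Z' r c) ≤
        ∑ r ∈ R, ∑ c ∈ C, phi T val zero (Z r c) + 7 * k +
          4 * (∑ v ∈ V, missing val C (Z (loc v)) (D v)) +
          4 * M * (V.filter fun v => loc' v ≠ loc v).card) ∧
      ((R.filter fun r => Heavy T C (Z r) ∧ r ∉ V.image loc).card +
          (V.filter fun v => loc' v ≠ loc v).card ≤
        (R.filter fun r => Heavy T C (Z' r) ∧ r ∉ V.image loc').card) := by
  classical
  set S := V.filter fun v => Heavy T C (Zp (loc v)) with hS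
  set Av := (R.filter fun r => ¬ Heavy T C (Zp r)) \ V.image loc with hAv
  have hAvc : S.card ≤ Av.card := by
    have h1 := Finset.card_filter_add_card_filter_not (s := R) (p := fun r => Heavy T C (Zp r))
    have h2 : ((R.filter fun r => ¬ Heavy T C (Zp r)) ∩ V.image loc).card + S.card ≤ V.card := by
      have h3 : (R.filter fun r => ¬ Heavy T C (Zp r)) ∩ V.image loc ⊆
          (V.filter fun v => ¬ Heavy T C (Zp (loc v))).image loc := by
        intro r hr
        obtain ⟨hr1, hr2⟩ := Finset.mem_inter.1 hr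
        obtain ⟨v, hv1, rfl⟩ := Finset.mem_image.1 hr2
        exact Finset.mem_image_of_mem _ (Finset.mem_filter.2 ⟨hv1, (Finset.mem_filter.1 hr1).2⟩)
      have h4 := (Finset.card_le_card h3).trans Finset.card_image_le
      have h5 := Finset.card_filter_add_card_filter_not (s := V)
        (p := fun v => Heavy T C (Zp (loc v)))
      rw [← hS] at h5
      omega
    have h6 := Finset.card_sdiff_add_card_inter (R.filter fun r => ¬ Heavy T C (Zp r))
      (V.image loc)
    rw [← hAv] at h6
    omega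
  obtain ⟨Av', hAv', hAvc'⟩ := Finset.exists_subset_card_eq hAvc
  obtain ⟨g⟩ : Nonempty (S ≃ Av') := ⟨Finset.equivOfCardEq hAvc'.symm⟩
  let loc' : α → ρ := fun v => if hvS : v ∈ S then (g ⟨v, hvS⟩ : ρ) else loc v
  have hl1 : ∀ v (hvS : v ∈ S), loc' v = g ⟨v, hvS⟩ := fun v hvS => dif_pos hvS
  have hl2 : ∀ v, v ∉ S → loc' v = loc v := fun v hvS => dif_neg hvS
  have hAvm : ∀ v (hvS : v ∈ S), loc' v ∈ R ∧ ¬ Heavy T C (Zp (loc' v)) ∧ loc' v ∉ V.image loc := by
    intro v hvS
    rw [hl1 v hvS]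
    have h1 := Finset.mem_sdiff.1 (hAv' (g ⟨v, hvS⟩).2)
    have h2 := Finset.mem_filter.1 h1.1
    exact ⟨h2.1, h2.2, h1.2⟩
  have hloc' : ∀ v ∈ V, loc' v ∈ R := by
    intro v hv1
    by_cases hvS : v ∈ S
    · exact (hAvm v hvS).1
    · rw [hl2 v hvS]; exact hloc v hv1
  have hlight : ∀ v ∈ V, ¬ Heavy T C (Zp (loc' v)) := by
    intro v hv1
    by_cases hvS : v ∈ S
    · exact (hAvm v hvS).2.1
    · rw [hl2 v hvS]
      intro h
      exact hvS (Finset.mem_filter.2 ⟨hv1, h⟩)
  have hinj' : Set.InjOn loc' V := by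
    intro u hu v hv1 huv
    by_cases huS : u ∈ S <;> by_cases hvS : v ∈ S
    · rw [hl1 u huS, hl1 v hvS] at huv
      have := g.injective (Subtype.ext huv)
      exact congrArg Subtype.val this
    · exfalso
      rw [hl2 v hvS] at huv
      exact (hAvm u huS).2.2 (huv ▸ Finset.mem_image_of_mem _ hv1)
    · exfalso
      rw [hl2 u huS] at huv
      exact (hAvm v hvS).2.2 (huv ▸ Finset.mem_image_of_mem _ hu)
    · rw [hl2 u huS, hl2 v hvS] at huv
      exact hinj hu hv1 huv
  have hmv : ∀ v ∈ V, (loc' v ≠ loc v ↔ v ∈ S) := by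
    intro v hv1
    by_cases hvS : v ∈ S
    · simp only [hvS, iff_true]
      intro h
      exact (hAvm v hvS).2.2 (h ▸ Finset.mem_image_of_mem _ hv1)
    · simp only [hvS, iff_false, not_not]
      exact hl2 v hvS
  have hmvc : (V.filter fun v => loc' v ≠ loc v) = S := by
    ext v
    simp only [Finset.mem_filter]
    constructor
    · rintro ⟨h1, h2⟩
      exact (hmv v h1).1 h2
    · intro h
      have h1 : v ∈ V := (Finset.mem_filter.1 h).1
      exact ⟨h1, (hmv v h1).2 h⟩
  -- region fixes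
  have hfix : ∀ v, ∃ Z' : γ → Finset β, v ∈ V → ((∀ c, Zp (loc' v) c ⊆ Z' c) ∧
      (∀ c ∈ C, Z' c ⊆ Y) ∧ (∀ c ∉ C, Z' c = Zp (loc' v) c) ∧
      (∀ m, m ≠ zero → ((∃ c ∈ C, val (Z' c) = m) ↔ m ∈ D v)) ∧
      ∑ c ∈ C, phi T val zero (Z' c) ≤
        ∑ c ∈ C, phi T val zero (Zp (loc' v) c) + 4 * missing val C (Zp (loc' v)) (D v)) := by
    intro v
    by_cases hv1 : v ∈ V
    · have h1 := light_alive (hlight v hv1)
      have h2 := hM v hv1
      obtain ⟨Z', a1, a2, a3, a4, a5⟩ := region_fix hv C (Zp (loc' v)) (hZp _ (hloc' v hv1)) (D v)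
        (hD v hv1) (by omega)
      exact ⟨Z', fun _ => ⟨a1, a2, a3, a4, a5⟩⟩
    · exact ⟨fun _ => ∅, fun h => absurd h hv1⟩
  choose F hF using hfix
  let Z' : ρ → γ → Finset β := fun r =>
    if h : ∃ v ∈ V, loc' v = r then F h.choose else Zp r
  have hZ'1 : ∀ v ∈ V, Z' (loc' v) = F v := by
    intro v hv1
    have h : ∃ u ∈ V, loc' u = loc' v := ⟨v, hv1, rfl⟩
    simp only [Z']
    rw [dif_pos h]
    congr 1
    exact hinj' h.choose_spec.1 hv1 h.choose_spec.2
  have hZ'2 : ∀ r, (¬ ∃ v ∈ V, loc' v = r) → Z' r = Zp r := fun r h => dif_neg h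
  have hmono : ∀ r c, Zp r c ⊆ Z' r c := by
    intro r c
    by_cases h : ∃ v ∈ V, loc' v = r
    · obtain ⟨v, hv1, rfl⟩ := h
      rw [hZ'1 v hv1]
      exact (hF v hv1).1 c
    · rw [hZ'2 r h]
  refine ⟨Z', loc', hmono, ?_, ?_, hloc', hinj', ?_, ?_, ?_⟩
  · intro r hr c hc
    by_cases h : ∃ v ∈ V, loc' v = r
    · obtain ⟨v, hv1, rfl⟩ := h
      rw [hZ'1 v hv1]
      exact (hF v hv1).2.1 c hc
    · rw [hZ'2 r h]
      exact hZp r hr c hc
  · intro r c hrc
    by_cases h : ∃ v ∈ V, loc' v = r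
    · obtain ⟨v, hv1, rfl⟩ := h
      rw [hZ'1 v hv1]
      exact (hF v hv1).2.2.1 c fun hc => hrc ⟨hloc' v hv1, hc⟩
    · rw [hZ'2 r h]
  · intro v hv1 m hm
    rw [hZ'1 v hv1]
    exact (hF v hv1).2.2.2.1 m hm
  · -- cost
    rw [hmvc]
    have c1 : ∑ r ∈ R, ∑ c ∈ C, phi T val zero (Z' r c) ≤
        ∑ r ∈ R, ∑ c ∈ C, phi T val zero (Zp r c) +
          4 * ∑ v ∈ V, missing val C (Zp (loc' v)) (D v) := by
      have h1 : ∀ r ∈ R, ∑ c ∈ C, phi T val zero (Z' r c) ≤
          ∑ c ∈ C, phi T val zero (Zp r c) +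
            4 * ∑ v ∈ V, if loc' v = r then missing val C (Zp r) (D v) else 0 := by
        intro r _
        by_cases h : ∃ v ∈ V, loc' v = r
        · obtain ⟨v, hv1, rfl⟩ := h
          rw [hZ'1 v hv1]
          refine ((hF v hv1).2.2.2.2).trans ?_
          have h2 := Finset.single_le_sum (s := V)
            (f := fun u => if loc' u = loc' v then missing val C (Zp (loc' v)) (D u) else 0)
            (fun _ _ => Nat.zero_le _) hv1
          simp only [if_true] at h2
          omega
        · rw [hZ'2 r h]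
          omega
      refine (Finset.sum_le_sum h1).trans ?_
      rw [Finset.sum_add_distrib, ← Finset.mul_sum]
      have h3 : ∀ v ∈ V, ∑ r ∈ R, (if loc' v = r then missing val C (Zp r) (D v) else 0) ≤
          missing val C (Zp (loc' v)) (D v) := by
        intro v _
        rw [Finset.sum_ite_eq]
        split_ifs <;> omega
      have h4 := Finset.sum_le_sum h3
      rw [Finset.sum_comm] at h4
      omega
    have c2 : ∑ r ∈ R, ∑ c ∈ C, phi T val zero (Zp r c) ≤
        ∑ r ∈ R, ∑ c ∈ C, phi T val zero (Z r c) + 3 * k := by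
      have h1 : ∀ r ∈ R, ∑ c ∈ C, phi T val zero (Zp r c) ≤
          ∑ c ∈ C, phi T val zero (Z r c) + 3 * ∑ c ∈ C, (Zp r c \ Z r c).card := by
        intro r _
        rw [Finset.mul_sum, ← Finset.sum_add_distrib]
        exact Finset.sum_le_sum fun c _ => phi_mono_add (hZZ r c)
      refine (Finset.sum_le_sum h1).trans ?_
      rw [Finset.sum_add_distrib, ← Finset.mul_sum]
      omega
    have c3 : ∑ v ∈ V, missing val C (Zp (loc' v)) (D v) ≤
        ∑ v ∈ V, missing val C (Z (loc v)) (D v) + k + M * S.card := by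
      have h1 : ∀ v ∈ V, missing val C (Zp (loc' v)) (D v) ≤
          missing val C (Z (loc v)) (D v) + ∑ c ∈ C, (Zp (loc v) c \ Z (loc v) c).card +
            if v ∈ S then M else 0 := by
        intro v hv1
        by_cases hvS : v ∈ S
        · rw [if_pos hvS]
          have := (Finset.card_filter_le (D v) fun m => ∀ c ∈ C, val (Zp (loc' v) c) ≠ m).trans
            (hM v hv1)
          unfold missing
          omega
        · rw [if_neg hvS, hl2 v hvS]
          unfold missing
          have h2 : ((D v).filter fun m => ∀ c ∈ C, val (Zp (loc v) c) ≠ m) ⊆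
              ((D v).filter fun m => ∀ c ∈ C, val (Z (loc v) c) ≠ m) ∪
                (C.filter fun c => Zp (loc v) c ≠ Z (loc v) c).image fun c => val (Z (loc v) c) := by
            intro m hm
            obtain ⟨hm1, hm2⟩ := Finset.mem_filter.1 hm
            by_cases h3 : ∀ c ∈ C, val (Z (loc v) c) ≠ m
            · exact Finset.mem_union_left _ (Finset.mem_filter.2 ⟨hm1, h3⟩)
            · push Not at h3
              obtain ⟨c, hc, hc2⟩ := h3
              refine Finset.mem_union_right _ (Finset.mem_image.2 ⟨c, ?_, hc2⟩)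
              refine Finset.mem_filter.2 ⟨hc, fun h4 => hm2 c hc ?_⟩
              rw [h4]; exact hc2
          have h5 := (Finset.card_le_card h2).trans (Finset.card_union_le _ _)
          have h6 : ((C.filter fun c => Zp (loc v) c ≠ Z (loc v) c).image
              fun c => val (Z (loc v) c)).card ≤ ∑ c ∈ C, (Zp (loc v) c \ Z (loc v) c).card := by
            refine Finset.card_image_le.trans ?_
            rw [Finset.card_filter]
            refine Finset.sum_le_sum fun c _ => ?_
            split_ifs with h7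
            · refine Finset.card_pos.2 ?_
              rw [Finset.sdiff_nonempty]
              intro h8
              exact h7 (Finset.Subset.antisymm h8 (hZZ _ _))
            · omega
          omega
      refine (Finset.sum_le_sum h1).trans ?_
      rw [Finset.sum_add_distrib, Finset.sum_add_distrib]
      have h9 : ∑ v ∈ V, ∑ c ∈ C, (Zp (loc v) c \ Z (loc v) c).card ≤ k := by
        refine le_trans ?_ hk
        rw [← Finset.sum_image (g := loc) (s := V)
          (f := fun r => ∑ c ∈ C, (Zp r c \ Z r c).card) hinj]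
        refine Finset.sum_le_sum_of_subset ?_
        intro r hr
        obtain ⟨v, hv1, rfl⟩ := Finset.mem_image.1 hr
        exact hloc v hv1
      have h10 : ∑ v ∈ V, (if v ∈ S then M else 0) ≤ M * S.card := by
        rw [← Finset.sum_filter, Finset.sum_const, smul_eq_mul, mul_comm]
        refine Nat.mul_le_mul_left M (Finset.card_le_card ?_)
        intro v hv1
        exact (Finset.mem_filter.1 hv1).2
      omega
    nlinarith
  · -- heavy count
    rw [hmvc]
    have hSc : S.card = (S.image loc).card := by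
      rw [Finset.card_image_of_injOn]
      exact hinj.mono fun v hv1 => (Finset.mem_filter.1 hv1).1
    rw [hSc, ← Finset.card_union_of_disjoint]
    · refine Finset.card_le_card ?_
      intro r hr
      rcases Finset.mem_union.1 hr with hr | hr
      · obtain ⟨h1, h2, h3⟩ := Finset.mem_filter.1 hr
        refine Finset.mem_filter.2 ⟨h1, heavy_mono (fun c _ => (hZZ r c).trans (hmono r c)) h2, ?_⟩
        intro h4
        obtain ⟨v, hv1, rfl⟩ := Finset.mem_image.1 h4
        exact hlight v hv1 (heavy_mono (fun c _ => hZZ _ c) h2)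
      · obtain ⟨v, hvS, rfl⟩ := Finset.mem_image.1 hr
        obtain ⟨hv1, hv2⟩ := Finset.mem_filter.1 hvS
        refine Finset.mem_filter.2 ⟨hloc v hv1, heavy_mono (fun c _ => hmono _ c) hv2, ?_⟩
        intro h4
        obtain ⟨u, hu1, hu2⟩ := Finset.mem_image.1 h4
        exact hlight u hu1 (hu2 ▸ hv2)
    · rw [Finset.disjoint_left]
      intro r h1 h2
      obtain ⟨v, hvS, rfl⟩ := Finset.mem_image.1 h2
      exact (Finset.mem_filter.1 h1).2.2
        (Finset.mem_image_of_mem _ (Finset.mem_filter.1 hvS).1)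

end Level

end Pool.Agent.LibRC
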