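import Mathlib

/-! The decoding procedure: `Z x = true` means that the string `x` has been removed
(is not random). -/

namespace Pool.Agent.LibRC

/-- least significant bit first increment of a fixed-length binary string -/
def inc : List Bool → List Bool
  | [] => []
  | false :: l => true :: l
  | true :: l => false :: inc l

/-- the same, but an overflow makes the string longer -/
def incx : List Bool → List Bool
  | [] => [false]
  | false :: l => true :: l
  | true :: l => false :: incx l

/-- all strings of length `n`, in counter order -/
def strs : ℕ → List (List Bool)
  | 0 => [[]]
  | n + 1 => (strs n).flatMap fun l => [false :: l, true :: l]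

/-- size parameter of level `j` -/
def sz (j : ℕ) : ℕ := Nat.log 2 (j + 1) + 8

def xorL (l m : List Bool) : List Bool := List.zipWith xor l m

/-- value of the cell with prefix `pre`: XOR of all removed positions -/
def cellVal (Z : List Bool → Bool) (pre : List Bool) (s : ℕ) : List Bool :=
  (strs s).foldl (fun acc y => if Z (pre ++ y) then xorL acc y else acc) (List.replicate s false)

/-- region `a` shows the tag `m` -/
def shows (Z : List Bool → Bool) (a : List Bool) (s : ℕ) (m : List Bool) : Bool :=
  (strs s).any fun c => cellVal Z (a ++ c) s == m

/-- index string number `p` -/
def idx (s p : ℕ) : List Bool := inc^[p] (List.replicate (s - 2) false)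

/-- new address from the pointer bits `x` and the (reversed) name of the child -/
def build (x : ℕ → Bool) : List Bool → ℕ → List Bool → List Bool
  | [], _, na => na
  | b :: u, p, na => build x u (p + 2) (x (p + 1) :: xor (x p) b :: na)

/-- address of the node whose name is the reverse of the argument -/
def addr (Z : List Bool → Bool) : List Bool → List Bool
  | [] => []
  | d :: u => build (fun p => shows Z (addr Z u) (sz u.length) (true :: d :: idx (sz u.length) p))
      (d :: u) 0 []

def haltTag (s : ℕ) : List Bool := false :: true :: List.replicate (s - 2) false

/-- the answer of the decoding procedure on input `w` -/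
def accepts (Z : List Bool → Bool) (w : List Bool) : Bool :=
  shows Z (addr Z w.reverse) (sz w.length) (haltTag (sz w.length))

end Pool.Agent.LibRC
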