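import Mathlib
import Pool.Agent.LibRC.Walk
import Pool.Agent.LibRC.Region

/-! Basic facts on strings, XOR and cell values. -/

namespace Pool.Agent.LibRC

theorem mem_strs {n : ℕ} {l : List Bool} : l ∈ strs n ↔ l.length = n := by
  induction n generalizing l with
  | zero => simp [strs]
  | succ n ih =>
    simp only [strs, List.mem_flatMap, ih]
    constructor
    · rintro ⟨m, hm, h⟩
      simp only [List.mem_cons, List.not_mem_nil, or_false] at h
      rcases h with rfl | rfl <;> simp [hm]
    · intro h
      cases l with
      | nil => simp at h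
      | cons b m =>
        refine ⟨m, by simpa using h, ?_⟩
        cases b <;> simp

theorem nodup_strs (n : ℕ) : (strs n).Nodup := by
  induction n with
  | zero => simp [strs]
  | succ n ih =>
    rw [strs, List.nodup_flatMap]
    refine ⟨fun x _ => by simp, ?_⟩
    refine ih.imp ?_
    intro a b hab
    simp only [Function.onFun, List.disjoint_cons_left, List.mem_cons, List.cons.injEq,
      List.not_mem_nil, or_false, not_or, List.disjoint_nil_left, and_true]
    refine ⟨⟨fun h => hab h.2, fun h => by simp at h⟩, ⟨fun h => by simp at h, fun h => hab h.2⟩⟩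

theorem length_strs (n : ℕ) : (strs n).length = 2 ^ n := by
  induction n with
  | zero => simp [strs]
  | succ n ih =>
    rw [strs, List.length_flatMap]
    simp [ih, pow_succ]

/-- finite set of the strings of length `n` -/
def strF (n : ℕ) : Finset (List Bool) := (strs n).toFinset

theorem mem_strF {n : ℕ} {l : List Bool} : l ∈ strF n ↔ l.length = n := by
  rw [strF, List.mem_toFinset, mem_strs]

theorem card_strF (n : ℕ) : (strF n).card = 2 ^ n := by
  rw [strF, List.toFinset_card_of_nodup (nodup_strs n), length_strs]

def zeroS (s : ℕ) : List Bool := List.replicate s false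

theorem length_zeroS (s : ℕ) : (zeroS s).length = s := by simp [zeroS]

theorem xorL_comm (a b : List Bool) : xorL a b = xorL b a := by
  unfold xorL
  exact List.zipWith_comm_of_comm (fun x y => Bool.xor_comm x y)

theorem xorL_assoc (a b c : List Bool) : xorL (xorL a b) c = xorL a (xorL b c) := by
  unfold xorL
  induction a generalizing b c with
  | nil => simp
  | cons x a ih =>
    cases b with
    | nil => simp
    | cons y b =>
      cases c with
      | nil => simp
      | cons z c => simp [ih]

theorem length_xorL (a b : List Bool) : (xorL a b).length = min a.length b.length := by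
  simp [xorL]

theorem xorL_self (a : List Bool) : xorL a a = zeroS a.length := by
  unfold xorL zeroS
  induction a with
  | nil => simp
  | cons x a ih => simp [List.replicate_succ, ih]

theorem xorL_zero (a : List Bool) {s : ℕ} (h : a.length = s) : xorL a (zeroS s) = a := by
  subst h
  unfold xorL zeroS
  induction a with
  | nil => simp
  | cons x a ih => simp [ih, List.replicate_succ]

theorem zero_xorL (a : List Bool) {s : ℕ} (h : a.length = s) : xorL (zeroS s) a = a := by
  rw [xorL_comm, xorL_zero a h]

instance : RightCommutative xorL := ⟨fun a b c => by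
  rw [xorL_assoc, xorL_comm b c, ← xorL_assoc]⟩

/-- xor of a list of strings of length `s` -/
def valL (s : ℕ) (l : List (List Bool)) : List Bool := l.foldl xorL (zeroS s)

theorem foldl_xorL_cons (acc y : List Bool) (l : List (List Bool)) :
    l.foldl xorL (xorL acc y) = xorL (l.foldl xorL acc) y := by
  induction l generalizing acc with
  | nil => rfl
  | cons z l ih =>
    rw [List.foldl_cons, List.foldl_cons, ← ih]
    congr 1
    rw [xorL_assoc, xorL_comm y z, ← xorL_assoc]

theorem length_foldl_xorL {s : ℕ} (acc : List Bool) (h : acc.length = s) (l : List (List Bool))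
    (hl : ∀ y ∈ l, y.length = s) : (l.foldl xorL acc).length = s := by
  induction l generalizing acc with
  | nil => exact h
  | cons z l ih =>
    rw [List.foldl_cons]
    refine ih _ ?_ fun y hy => hl y (List.mem_cons_of_mem _ hy)
    rw [length_xorL, h, hl z List.mem_cons_self]
    simp

/-- the value of a set of positions -/
def valF (s : ℕ) (A : Finset (List Bool)) : List Bool := valL s ((strs s).filter (· ∈ A))

theorem length_valF (s : ℕ) (A : Finset (List Bool)) : (valF s A).length = s := by
  refine length_foldl_xorL _ (length_zeroS s) _ ?_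
  intro y hy
  exact mem_strs.1 (List.mem_of_mem_filter hy)

theorem valF_insert {s : ℕ} {A : Finset (List Bool)} {y : List Bool} (hy : y.length = s)
    (hA : y ∉ A) : valF s (insert y A) = xorL (valF s A) y := by
  unfold valF valL
  rw [← foldl_xorL_cons, ← List.foldl_cons]
  refine List.Perm.foldl_eq (f := xorL) ?_ (zeroS s)
  refine (List.perm_ext_iff_of_nodup ((nodup_strs s).filter _) ?_).2 ?_
  · refine List.nodup_cons.2 ⟨?_, (nodup_strs s).filter _⟩
    intro h
    have := (List.mem_filter.1 h).2
    exact hA (by simpa using this)
  · intro z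
    simp only [List.mem_filter, mem_strs, Finset.mem_insert, decide_eq_true_eq, List.mem_cons]
    constructor
    · rintro ⟨h1, h2 | h2⟩
      · exact Or.inl h2
      · exact Or.inr ⟨h1, h2⟩
    · rintro (h | ⟨h1, h2⟩)
      · exact ⟨h ▸ hy, Or.inl h⟩
      · exact ⟨h1, Or.inr h2⟩

theorem foldl_pairs (ls : List (List Bool)) (n : ℕ) (hl : ∀ y ∈ ls, y.length = n) (b : Bool)
    (acc : List Bool) (ha : acc.length = n) :
    (ls.flatMap fun l => [false :: l, true :: l]).foldl xorL (b :: acc) =
      (xor b (decide (ls.length % 2 = 1))) :: acc := by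
  induction ls generalizing b with
  | nil => simp
  | cons z ls ih =>
    have hz : z.length = n := hl z List.mem_cons_self
    have e : xorL (xorL (b :: acc) (false :: z)) (true :: z) = (!b) :: acc := by
      have e1 : xorL (xorL (b :: acc) (false :: z)) (true :: z) =
          (xor (xor b false) true) :: xorL (xorL acc z) z := rfl
      rw [e1, xorL_assoc, xorL_self, xorL_zero acc (ha.trans hz.symm)]
      simp
    rw [List.flatMap_cons, List.cons_append, List.cons_append, List.nil_append,
      List.foldl_cons, List.foldl_cons, e, ih (fun y hy => hl y (List.mem_cons_of_mem _ hy))]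
    congr 1
    rw [List.length_cons]
    rcases Nat.mod_two_eq_zero_or_one ls.length with h | h
    · have h2 : (ls.length + 1) % 2 = 1 := by omega
      simp [h, h2]
    · have h2 : (ls.length + 1) % 2 = 0 := by omega
      simp [h, h2]

theorem valF_full {s : ℕ} (hs : 2 ≤ s) : valF s (strF s) = zeroS s := by
  obtain ⟨n, rfl⟩ : ∃ n, s = n + 1 := ⟨s - 1, by omega⟩
  have h1 : (strs (n + 1)).filter (· ∈ strF (n + 1)) = strs (n + 1) := by
    rw [List.filter_eq_self]
    intro y hy
    simp [mem_strF, mem_strs.1 hy]
  unfold valF
  rw [h1]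
  unfold valL
  have h2 : zeroS (n + 1) = false :: zeroS n := rfl
  rw [h2, strs, foldl_pairs (strs n) n (fun y hy => mem_strs.1 hy) false (zeroS n)
    (length_zeroS n), length_strs]
  have : 2 ^ n % 2 = 0 := by
    obtain ⟨m, rfl⟩ : ∃ m, n = m + 1 := ⟨n - 1, by omega⟩
    rw [pow_succ]; omega
  simp [this]

theorem valSpec {s : ℕ} (hs : 2 ≤ s) : ValSpec (strF s) (2 ^ (s - 1)) (valF s) (zeroS s) where
  fix := by
    intro A hA hc m hm
    have hm' := mem_strF.1 hm
    by_cases h0 : valF s A = m
    · exact ⟨A, hA, subset_rfl, by omega, h0⟩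
    set δ := xorL (valF s A) m with hδ
    have hδl : δ.length = s := by rw [hδ, length_xorL, length_valF, hm']; simp
    have hδ0 : δ ≠ zeroS s := by
      intro h
      apply h0
      have : xorL (valF s A) (xorL (valF s A) m) = m := by
        rw [← xorL_assoc, xorL_self, length_valF, zero_xorL m hm']
      rw [← this, ← hδ, h, xorL_zero _ (length_valF s A)]
    have key : ∃ y ∈ strF s, y ∉ A ∧ xorL y δ ∉ A := by
      by_contra hcon
      push Not at hcon
      have h1 : strF s ⊆ A ∪ A.image (fun z => xorL z δ) := by
        intro y hy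
        by_cases hyA : y ∈ A
        · exact Finset.mem_union_left _ hyA
        · refine Finset.mem_union_right _ (Finset.mem_image.2 ⟨xorL y δ, hcon y hy hyA, ?_⟩)
          rw [xorL_assoc, xorL_self, hδl, xorL_zero y (mem_strF.1 hy)]
      have h2 := (Finset.card_le_card h1).trans (Finset.card_union_le _ _)
      have h3 : (A.image (fun z => xorL z δ)).card ≤ A.card := Finset.card_image_le
      rw [card_strF] at h2
      have h4 : 2 ^ s = 2 * 2 ^ (s - 1) := by
        rw [← pow_succ']; congr 1; omega
      omega
    obtain ⟨y, hy, hyA, hyδ⟩ := key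
    have hyl := mem_strF.1 hy
    have hne : xorL y δ ≠ y := by
      intro h
      apply hδ0
      have : xorL y (xorL y δ) = δ := by
        rw [← xorL_assoc, xorL_self, hyl, zero_xorL δ hδl]
      rw [← this, h, xorL_self, hyl]
    have hzl : (xorL y δ).length = s := by rw [length_xorL, hyl, hδl]; simp
    refine ⟨insert (xorL y δ) (insert y A), ?_, ?_, ?_, ?_⟩
    · intro z hz
      rcases Finset.mem_insert.1 hz with rfl | hz
      · exact mem_strF.2 hzl
      · rcases Finset.mem_insert.1 hz with rfl | hz
        · exact hy
        · exact hA hz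
    · intro z hz
      exact Finset.mem_insert_of_mem (Finset.mem_insert_of_mem hz)
    · refine (Finset.card_insert_le _ _).trans ?_
      have := Finset.card_insert_le y A
      omega
    · rw [valF_insert hzl, valF_insert hyl hyA, xorL_assoc, ← xorL_assoc y y δ, xorL_self, hyl,
        zero_xorL δ hδl, hδ, ← xorL_assoc, xorL_self, length_valF, zero_xorL m hm']
      simp only [Finset.mem_insert, not_or]
      exact ⟨hne, hyδ⟩
  full := valF_full hs
  zero_mem := mem_strF.2 (length_zeroS s)

/-- removed positions of a cell -/
def cellF (Z : List Bool → Bool) (s : ℕ) (a c : List Bool) : Finset (List Bool) :=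
  (strF s).filter fun y => Z (a ++ c ++ y) = true

theorem cellVal_eq (Z : List Bool → Bool) (s : ℕ) (a c : List Bool) :
    cellVal Z (a ++ c) s = valF s (cellF Z s a c) := by
  unfold cellVal valF valL
  rw [List.foldl_filter]
  refine List.foldl_ext _ _ _ ?_
  intro acc y hy
  have : (y ∈ cellF Z s a c) ↔ Z (a ++ c ++ y) = true := by
    unfold cellF
    rw [Finset.mem_filter]
    exact ⟨fun h => h.2, fun h => ⟨mem_strF.2 (mem_strs.1 hy), h⟩⟩
  by_cases h : Z (a ++ c ++ y) = true
  · simp [this]
  · simp [this]

theorem shows_iff (Z : List Bool → Bool) (a : List Bool) (s : ℕ) (m : List Bool) :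
    shows Z a s m = true ↔ ∃ c ∈ strF s, valF s (cellF Z s a c) = m := by
  unfold shows
  rw [List.any_eq_true]
  constructor
  · rintro ⟨c, hc, h⟩
    refine ⟨c, mem_strF.2 (mem_strs.1 hc), ?_⟩
    rw [← cellVal_eq]
    simpa using h
  · rintro ⟨c, hc, h⟩
    refine ⟨c, mem_strs.2 (mem_strF.1 hc), ?_⟩
    rw [cellVal_eq, h]
    simp

end Pool.Agent.LibRC
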