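import Mathlib
import Pool.Agent.LibRC.Strs

/-! Tags, index strings and addresses. -/

namespace Pool.Agent.LibRC

/-- pointer tag -/
def tag (s : ℕ) (d : Bool) (p : ℕ) : List Bool := true :: d :: idx s p

/-- value of a string, least significant bit first -/
def toN : List Bool → ℕ
  | [] => 0
  | b :: l => (if b then 1 else 0) + 2 * toN l

theorem toN_lt (l : List Bool) : toN l < 2 ^ l.length := by
  induction l with
  | nil => simp [toN]
  | cons b l ih =>
    rw [toN, List.length_cons, pow_succ]
    split_ifs <;> omega

theorem toN_inj {l m : List Bool} (h : l.length = m.length) (h2 : toN l = toN m) : l = m := by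
  induction l generalizing m with
  | nil => cases m with
    | nil => rfl
    | cons b m => simp at h
  | cons a l ih => cases m with
    | nil => simp at h
    | cons b m =>
      rw [toN, toN] at h2
      have h3 : l.length = m.length := by simpa using h
      have h4 : toN l = toN m := by
        cases a <;> cases b <;> simp at h2 <;> omega
      have h5 : a = b := by
        cases a <;> cases b <;> simp at h2 <;> first | rfl | omega
      rw [h5, ih h3 h4]

theorem length_inc (l : List Bool) : (inc l).length = l.length := by
  induction l with
  | nil => rfl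
  | cons b l ih => cases b <;> simp [inc, ih]

theorem toN_inc (l : List Bool) : toN (inc l) = (toN l + 1) % 2 ^ l.length := by
  induction l with
  | nil => simp [toN, inc]
  | cons b l ih =>
    have hl := toN_lt l
    cases b
    · simp only [inc, toN, List.length_cons, pow_succ]
      rw [Nat.mod_eq_of_lt]
      · simp; omega
      · simp; omega
    · simp only [inc, toN, List.length_cons, pow_succ, ih]
      simp only [Bool.false_eq_true, if_false, if_true]
      have e : 1 + 2 * toN l + 1 = 2 * (toN l + 1) := by ring
      rw [e, mul_comm (2 ^ l.length) 2, Nat.mul_mod_mul_left]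
      omega

theorem length_idx (s p : ℕ) : (idx s p).length = s - 2 := by
  unfold idx
  induction p with
  | zero => simp
  | succ p ih => rw [Function.iterate_succ_apply', length_inc, ih]

theorem toN_replicate (n : ℕ) : toN (List.replicate n false) = 0 := by
  induction n with
  | zero => rfl
  | succ n ih => rw [List.replicate_succ, toN, ih]; simp

theorem toN_idx (s p : ℕ) : toN (idx s p) = p % 2 ^ (s - 2) := by
  induction p with
  | zero => unfold idx; rw [Function.iterate_zero, id, toN_replicate]; simp
  | succ p ih =>
    have h : idx s (p + 1) = inc (idx s p) := by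
      unfold idx
      rw [Function.iterate_succ_apply']
    rw [h, toN_inc, ih, length_idx]
    simp

theorem idx_succ (s p : ℕ) : idx s (p + 1) = inc (idx s p) := by
  unfold idx
  rw [Function.iterate_succ_apply']

theorem length_tag {s : ℕ} (hs : 2 ≤ s) (d : Bool) (p : ℕ) : (tag s d p).length = s := by
  simp only [tag, List.length_cons, length_idx]
  omega

theorem tag_inj {s : ℕ} {d d' : Bool} {p p' : ℕ} (hp : p < 2 ^ (s - 2)) (hp' : p' < 2 ^ (s - 2))
    (h : tag s d p = tag s d' p') : d = d' ∧ p = p' := by
  simp only [tag, List.cons.injEq, true_and] at h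
  refine ⟨h.1, ?_⟩
  have := congrArg toN h.2
  rwa [toN_idx, toN_idx, Nat.mod_eq_of_lt hp, Nat.mod_eq_of_lt hp'] at this

theorem tag_ne_zero {s : ℕ} (hs : 2 ≤ s) (d : Bool) (p : ℕ) : tag s d p ≠ zeroS s := by
  obtain ⟨n, rfl⟩ : ∃ n, s = n + 1 := ⟨s - 1, by omega⟩
  simp [tag, zeroS, List.replicate_succ]

theorem length_haltTag {s : ℕ} (hs : 2 ≤ s) : (haltTag s).length = s := by
  simp only [haltTag, List.length_cons, List.length_replicate]
  omega

theorem haltTag_ne_zero {s : ℕ} (hs : 2 ≤ s) : haltTag s ≠ zeroS s := by
  obtain ⟨n, rfl⟩ : ∃ n, s = n + 2 := ⟨s - 2, by omega⟩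
  simp [haltTag, zeroS, List.replicate_succ]

theorem haltTag_ne_tag (s : ℕ) (d : Bool) (p : ℕ) : haltTag s ≠ tag s d p := by
  simp [haltTag, tag]

/-! size parameters -/

theorem sz_ge (j : ℕ) : 8 ≤ sz j := by unfold sz; omega

theorem sz_mono {i j : ℕ} (h : i ≤ j) : sz i ≤ sz j := by
  unfold sz
  have := Nat.log_mono_right (b := 2) (show i + 1 ≤ j + 1 by omega)
  omega

theorem pow_sz (j : ℕ) : 128 * (j + 2) ≤ 2 ^ sz j := by
  unfold sz
  have h := Nat.lt_pow_succ_log_self (b := 2) (by norm_num) (j + 1)
  rw [pow_add]
  rw [pow_succ] at h
  omega

theorem pow_sz_le (j : ℕ) : 2 ^ sz j ≤ 256 * (j + 1) := by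
  unfold sz
  have h := Nat.pow_log_le_self 2 (show j + 1 ≠ 0 by omega)
  rw [pow_add]
  omega

/-- length of the strings of level `j` -/
def lenL (j : ℕ) : ℕ := 2 * j + 2 * sz j

theorem lenL_strictMono : StrictMono lenL := by
  refine strictMono_nat_of_lt_succ fun n => ?_
  have := sz_mono (Nat.le_succ n)
  unfold lenL
  simp only [Nat.succ_eq_add_one] at this
  omega

theorem lenL_inj {i j : ℕ} (h : lenL i = lenL j) : i = j := lenL_strictMono.injective h

theorem ptr_lt (j p : ℕ) (hp : p < 2 * (j + 1)) : p < 2 ^ (sz j - 2) := by
  have h1 := pow_sz j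
  have h2 := sz_ge j
  have h3 : 2 ^ sz j = 4 * 2 ^ (sz j - 2) := by
    rw [show (4 : ℕ) = 2 ^ 2 by norm_num, ← pow_add]; congr 1; omega
  omega

/-! the address builder -/

theorem length_build (x : ℕ → Bool) (u : List Bool) (p : ℕ) (na : List Bool) :
    (build x u p na).length = 2 * u.length + na.length := by
  induction u generalizing p na with
  | nil => simp [build]
  | cons b u ih => rw [build, ih]; simp only [List.length_cons]; ring

theorem build_congr (x x' : ℕ → Bool) (u : List Bool) (p : ℕ) (na : List Bool)
    (h : ∀ q, p ≤ q → q < p + 2 * u.length → x q = x' q) :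
    build x u p na = build x' u p na := by
  induction u generalizing p na with
  | nil => rfl
  | cons b u ih =>
    rw [build, build, h p le_rfl (by simp), h (p + 1) (by omega) (by simp; omega)]
    refine ih _ _ fun q h1 h2 => h q (by omega) (by simp only [List.length_cons]; omega)

theorem build_append (x : ℕ → Bool) (u : List Bool) (p : ℕ) (na : List Bool) :
    build x u p na = build x u p [] ++ na := by
  induction u generalizing p na with
  | nil => rfl
  | cons b u ih =>
    rw [build, ih, build, ih (p + 2) [x (p + 1), xor (x p) b]]
    simp

theorem build_surj (u : List Bool) (p : ℕ) (r : List Bool) (hr : r.length = 2 * u.length) :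
    ∃ x : ℕ → Bool, build x u p [] = r := by
  induction u generalizing p r with
  | nil =>
    refine ⟨fun _ => false, ?_⟩
    have : r = [] := List.length_eq_zero_iff.1 (by simpa using hr)
    rw [this]; rfl
  | cons b u ih =>
    have hl : r.length = 2 * u.length + 2 := by rw [hr]; simp; ring
    obtain ⟨x, hx⟩ := ih (p + 2) (r.take (2 * u.length)) (by rw [List.length_take]; omega)
    obtain ⟨e1, e2, he⟩ : ∃ e1 e2, r.drop (2 * u.length) = [e1, e2] := by
      have : (r.drop (2 * u.length)).length = 2 := by rw [List.length_drop]; omega
      exact List.length_eq_two.1 this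
    refine ⟨fun q => if q = p then xor e2 b else if q = p + 1 then e1 else x q, ?_⟩
    rw [build, build_append]
    rw [build_congr _ x]
    · rw [hx]
      simp only [if_true, show p + 1 ≠ p by omega, if_false]
      have : xor (xor e2 b) b = e2 := by cases e2 <;> cases b <;> rfl
      rw [this, ← he, List.take_append_drop]
    · intro q h1 h2
      rw [if_neg (by omega), if_neg (by omega)]

theorem build_zero_inj (u v : List Bool) (h : u.length = v.length) (p : ℕ)
    (h2 : build (fun _ => false) u p [] = build (fun _ => false) v p []) : u = v := by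
  induction u generalizing v p with
  | nil => exact (List.length_eq_zero_iff.1 h.symm).symm
  | cons b u ih =>
    cases v with
    | nil => simp at h
    | cons c v =>
      have hl : u.length = v.length := by simpa using h
      rw [build, build, build_append, build_append _ v] at h2
      have h3 := List.append_inj h2 (by rw [length_build, length_build, hl])
      rw [ih v hl (p + 2) h3.1]
      have h4 := h3.2
      simp only [Bool.false_bne, Bool.false_xor, List.cons.injEq, and_true, true_and] at h4
      rw [h4]

theorem length_addr (Z : List Bool → Bool) (u : List Bool) : (addr Z u).length = 2 * u.length := by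
  cases u with
  | nil => rfl
  | cons d u => rw [addr, length_build]; simp

end Pool.Agent.LibRC
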