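import Mathlib
import Pool.Agent.LibRC.Tags

/-! The level lemma for sets of strings. -/

namespace Pool.Agent.LibRC

attribute [local irreducible] sz strF lenL

theorem card_split (m n : ℕ) (P : List Bool → Prop) [DecidablePred P] :
    ∑ a ∈ strF m, ((strF n).filter fun y => P (a ++ y)).card = ((strF (m + n)).filter P).card := by
  have hmaps : ∀ x ∈ (strF (m + n)).filter P, x.take m ∈ strF m := by
    intro x hx
    have := mem_strF.1 (Finset.mem_filter.1 hx).1
    rw [mem_strF, List.length_take]
    omega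
  rw [Finset.card_eq_sum_card_fiberwise hmaps]
  refine Finset.sum_congr rfl fun a ha => ?_
  have ha' := mem_strF.1 ha
  have hinj : Function.Injective (fun y : List Bool => a ++ y) := fun y z h =>
    List.append_cancel_left h
  rw [← Finset.card_image_of_injective _ hinj]
  congr 1
  ext x
  simp only [Finset.mem_image, Finset.mem_filter, mem_strF]
  constructor
  · rintro ⟨y, ⟨h1, h2⟩, rfl⟩
    refine ⟨⟨by rw [List.length_append, ha', h1], h2⟩, ?_⟩
    rw [← ha', List.take_left']
    rfl
  · rintro ⟨⟨h1, h2⟩, h3⟩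
    refine ⟨x.drop m, ⟨?_, ?_⟩, ?_⟩
    · rw [List.length_drop]; omega
    · rw [← h3, List.take_append_drop]; exact h2
    · rw [← h3, List.take_append_drop]

theorem card_cells (j : ℕ) (P : List Bool → Prop) [DecidablePred P] :
    ∑ a ∈ strF (2 * j), ∑ c ∈ strF (sz j), ((strF (sz j)).filter fun y => P (a ++ c ++ y)).card =
      ((strF (lenL j)).filter P).card := by
  have h1 : ∀ a ∈ strF (2 * j), ∑ c ∈ strF (sz j),
      ((strF (sz j)).filter fun y => P (a ++ c ++ y)).card =
      ((strF (sz j + sz j)).filter fun z => P (a ++ z)).card := by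
    intro a _
    rw [← card_split (sz j) (sz j) fun z => P (a ++ z)]
    refine Finset.sum_congr rfl fun c _ => ?_
    congr 1
    ext y
    rw [Finset.mem_filter, Finset.mem_filter, List.append_assoc]
  rw [Finset.sum_congr rfl h1, card_split]
  have : 2 * j + (sz j + sz j) = lenL j := by unfold lenL; ring
  rw [this]

def halfS (j : ℕ) : ℕ := 2 ^ (sz j - 1)

theorem two_halfS (j : ℕ) : 2 * halfS j = 2 ^ sz j := by
  unfold halfS
  have := sz_ge j
  rw [← pow_succ']
  congr 1
  omega

def phiC (j : ℕ) (A : Finset (List Bool)) : ℕ := phi (halfS j) (valF (sz j)) (zeroS (sz j)) A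

/-- potential of level `j` -/
def PhiC (Z : List Bool → Bool) (j : ℕ) : ℕ :=
  ∑ a ∈ strF (2 * j), ∑ c ∈ strF (sz j), phiC j (cellF Z (sz j) a c)

def HeavyC (Z : List Bool → Bool) (j : ℕ) (a : List Bool) : Prop :=
  Heavy (halfS j) (strF (sz j)) (cellF Z (sz j) a)

instance (Z : List Bool → Bool) (j : ℕ) (a : List Bool) : Decidable (HeavyC Z j a) :=
  inferInstanceAs (Decidable (Heavy _ _ _))

def MvC (Z : List Bool → Bool) (j : ℕ) (loc : List Bool → List Bool) : ℕ :=
  ((strF (2 * j)).filter fun a => HeavyC Z j a ∧ a ∉ (strF j).image loc).card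

theorem levelC (j : ℕ) (Z Zp : List Bool → Bool) (hZZ : ∀ x, Z x = true → Zp x = true)
    (loc : List Bool → List Bool) (hloc : ∀ u ∈ strF j, loc u ∈ strF (2 * j))
    (hinj : Set.InjOn loc (strF j)) (D : List Bool → Finset (List Bool))
    (hD : ∀ u ∈ strF j, D u ⊆ strF (sz j)) (hM : ∀ u ∈ strF j, (D u).card ≤ 4 * j + 5)
    (k : ℕ) (hk : ((strF (lenL j)).filter fun x => Zp x = true ∧ ¬ Z x = true).card ≤ k)
    (hroom : ((strF (2 * j)).filter fun a => HeavyC Zp j a).card + 2 ^ j ≤ 2 ^ (2 * j)) :
    ∃ (Z' : List Bool → Bool) (loc' : List Bool → List Bool),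
      (∀ x, Zp x = true → Z' x = true) ∧ (∀ x, x.length ≠ lenL j → Z' x = Zp x) ∧
      (∀ u ∈ strF j, loc' u ∈ strF (2 * j)) ∧ Set.InjOn loc' (strF j) ∧
      (∀ u ∈ strF j, ∀ m, m ≠ zeroS (sz j) → (shows Z' (loc' u) (sz j) m = true ↔ m ∈ D u)) ∧
      PhiC Z' j ≤ PhiC Z j + 7 * k +
        4 * (∑ u ∈ strF j, ((D u).filter fun m => ¬ shows Z (loc u) (sz j) m = true).card) +
        4 * (4 * j + 5) * ((strF j).filter fun u => loc' u ≠ loc u).card ∧
      MvC Z j loc + ((strF j).filter fun u => loc' u ≠ loc u).card ≤ MvC Z' j loc' := by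
  have hs := sz_ge j
  have hps := pow_sz j
  obtain ⟨Zq, loc', b1, b2, b3, b4, b5, b6, b7, b8⟩ :=
    level_fix (valSpec (s := sz j) (by omega)) (strF j) (strF (2 * j)) (strF (sz j))
      (fun a c => cellF Z (sz j) a c) (fun a c => cellF Zp (sz j) a c)
      (by
        intro a c y hy
        unfold cellF at *
        rw [Finset.mem_filter] at *
        exact ⟨hy.1, hZZ _ hy.2⟩)
      (by intro a _ c _; exact Finset.filter_subset _ _)
      loc hloc hinj D hD (4 * j + 5) hM (by rw [card_strF]; omega) k
      (by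
        refine le_trans (le_of_eq ?_) hk
        rw [← card_cells]
        refine Finset.sum_congr rfl fun a _ => Finset.sum_congr rfl fun c _ => ?_
        congr 1
        ext y
        simp only [cellF, Finset.mem_sdiff, Finset.mem_filter]
        tauto)
      (by rw [card_strF, card_strF]; exact hroom)
  let Z' : List Bool → Bool := fun x =>
    if x.length = lenL j then
      decide (x.drop (2 * j + sz j) ∈ Zq (x.take (2 * j)) ((x.drop (2 * j)).take (sz j)))
    else Zp x
  have hZ' : ∀ a ∈ strF (2 * j), ∀ c ∈ strF (sz j), ∀ y ∈ strF (sz j),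
      (Z' (a ++ c ++ y) = true ↔ y ∈ Zq a c) := by
    intro a ha c hc y hy
    rw [mem_strF] at ha hc hy
    have hl : (a ++ c ++ y).length = lenL j := by
      rw [List.length_append, List.length_append, ha, hc, hy]; unfold lenL; ring
    simp only [Z', hl, if_true, decide_eq_true_eq]
    have e1 : (a ++ c ++ y).drop (2 * j + sz j) = y := by
      rw [← ha, ← hc, ← List.length_append, List.drop_left']
      rfl
    have e2 : (a ++ c ++ y).take (2 * j) = a := by
      rw [List.append_assoc, ← ha, List.take_left']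
      rfl
    have e3 : ((a ++ c ++ y).drop (2 * j)).take (sz j) = c := by
      rw [List.append_assoc, ← ha, List.drop_left', ← hc, List.take_left']
      · rfl
      · rfl
    rw [e1, e2, e3]
  have hcell : ∀ a ∈ strF (2 * j), ∀ c ∈ strF (sz j), cellF Z' (sz j) a c = Zq a c := by
    intro a ha c hc
    ext y
    unfold cellF
    rw [Finset.mem_filter]
    constructor
    · rintro ⟨h1, h2⟩
      exact (hZ' a ha c hc y h1).1 h2
    · intro h
      have := b2 a ha c hc h
      exact ⟨this, (hZ' a ha c hc y this).2 h⟩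
  have hsplit : ∀ x : List Bool, x.length = lenL j →
      ∃ a ∈ strF (2 * j), ∃ c ∈ strF (sz j), ∃ y ∈ strF (sz j), x = a ++ c ++ y := by
    intro x hx
    unfold lenL at hx
    refine ⟨x.take (2 * j), ?_, (x.drop (2 * j)).take (sz j), ?_, (x.drop (2 * j)).drop (sz j),
      ?_, ?_⟩
    · rw [mem_strF, List.length_take]; omega
    · rw [mem_strF, List.length_take, List.length_drop]; omega
    · rw [mem_strF, List.length_drop, List.length_drop]; omega
    · rw [List.append_assoc, List.take_append_drop, List.take_append_drop]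
  have hheavy : ∀ a ∈ strF (2 * j), (HeavyC Z' j a ↔ Heavy (2 ^ (sz j - 1)) (strF (sz j)) (Zq a)) := by
    intro a ha
    unfold HeavyC Heavy gsum halfS
    rw [Finset.sum_congr rfl fun c hc => by rw [hcell a ha c hc]]
  refine ⟨Z', loc', ?_, ?_, b4, b5, ?_, ?_, ?_⟩
  · intro x hx
    by_cases hl : x.length = lenL j
    · obtain ⟨a, ha, c, hc, y, hy, rfl⟩ := hsplit x hl
      rw [hZ' a ha c hc y hy]
      refine b1 a c ?_
      unfold cellF
      exact Finset.mem_filter.2 ⟨hy, hx⟩
    · simp only [Z', hl, if_false]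
      exact hx
  · intro x hx
    simp only [Z', hx, if_false]
  · intro u hu m hm
    rw [shows_iff, ← b6 u hu m hm]
    constructor
    · rintro ⟨c, hc, h⟩
      exact ⟨c, hc, by rw [← hcell _ (b4 u hu) c hc]; exact h⟩
    · rintro ⟨c, hc, h⟩
      exact ⟨c, hc, by rw [hcell _ (b4 u hu) c hc]; exact h⟩
  · have e1 : PhiC Z' j = ∑ a ∈ strF (2 * j), ∑ c ∈ strF (sz j),
        phi (2 ^ (sz j - 1)) (valF (sz j)) (zeroS (sz j)) (Zq a c) := by
      unfold PhiC phiC halfS
      refine Finset.sum_congr rfl fun a ha => Finset.sum_congr rfl fun c hc => ?_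
      rw [hcell a ha c hc]
    rw [e1]
    have e2 : ∑ u ∈ strF j, ((D u).filter fun m => ¬ shows Z (loc u) (sz j) m = true).card =
        ∑ v ∈ strF j, missing (valF (sz j)) (strF (sz j)) (fun c => cellF Z (sz j) (loc v) c)
          (D v) := by
      refine Finset.sum_congr rfl fun u _ => ?_
      unfold missing
      congr 1
      ext m
      simp only [Finset.mem_filter, shows_iff]
      push Not
      rfl
    rw [e2]
    exact b7
  · have e1 : MvC Z' j loc' = ((strF (2 * j)).filter fun a =>
        Heavy (2 ^ (sz j - 1)) (strF (sz j)) (Zq a) ∧ a ∉ (strF j).image loc').card := by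
      unfold MvC
      congr 1
      ext a
      simp only [Finset.mem_filter]
      constructor
      · rintro ⟨h1, h2, h3⟩
        exact ⟨h1, (hheavy a h1).1 h2, h3⟩
      · rintro ⟨h1, h2, h3⟩
        exact ⟨h1, (hheavy a h1).2 h2, h3⟩
    rw [e1]
    exact b8

end Pool.Agent.LibRC
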