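import Mathlib
import Pool.Agent.LibRC.LevelC

/-! The invariant and the repair step for all levels. -/

namespace Pool.Agent.LibRC

attribute [local irreducible] sz strF lenL

/-- number of strings of length `N` satisfying `Z` -/
def cnt (Z : List Bool → Bool) (N : ℕ) : ℕ := ((strF N).filter fun x => Z x = true).card

theorem cnt_le (Z : List Bool → Bool) (N : ℕ) : cnt Z N ≤ 2 ^ N :=
  (Finset.card_filter_le _ _).trans (le_of_eq (card_strF N))

structure Inv (n : ℕ) (A H Z : List Bool → Bool) : Prop where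
  lens : ∀ x, Z x = true → ∃ j ≤ n, x.length = lenL j
  adv : ∀ x, A x = true → Z x = true
  hlen : ∀ u, H u = true → u.length ≤ n
  inj : ∀ j ≤ n + 1, Set.InjOn (addr Z) (strF j)
  hlt : ∀ u, u.length ≤ n →
    (shows Z (addr Z u) (sz u.length) (haltTag (sz u.length)) = true ↔ H u = true)
  pot : ∀ j ≤ n, PhiC Z j ≤ 7 * cnt A (lenL j) +
    4 * (2 * (j + 1) * MvC Z (j + 1) (addr Z) + cnt H j) + 4 * (4 * j + 5) * MvC Z j (addr Z)

/-! ### congruence -/

theorem cellF_congr {Z Z' : List Bool → Bool} {j : ℕ} (h : ∀ x, x.length = lenL j → Z x = Z' x)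
    {a c : List Bool} (ha : a.length = 2 * j) (hc : c.length = sz j) :
    cellF Z (sz j) a c = cellF Z' (sz j) a c := by
  unfold cellF
  refine Finset.filter_congr fun y hy => ?_
  rw [h]
  rw [List.length_append, List.length_append, ha, hc, mem_strF.1 hy]
  unfold lenL; ring

theorem shows_congr {Z Z' : List Bool → Bool} {j : ℕ} (h : ∀ x, x.length = lenL j → Z x = Z' x)
    {a : List Bool} (ha : a.length = 2 * j) (m : List Bool) :
    shows Z a (sz j) m = shows Z' a (sz j) m := by
  rw [Bool.eq_iff_iff, shows_iff, shows_iff]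
  constructor
  · rintro ⟨c, hc, h1⟩
    exact ⟨c, hc, by rw [← cellF_congr h ha (mem_strF.1 hc)]; exact h1⟩
  · rintro ⟨c, hc, h1⟩
    exact ⟨c, hc, by rw [cellF_congr h ha (mem_strF.1 hc)]; exact h1⟩

theorem PhiC_congr {Z Z' : List Bool → Bool} {j : ℕ} (h : ∀ x, x.length = lenL j → Z x = Z' x) :
    PhiC Z j = PhiC Z' j := by
  unfold PhiC
  refine Finset.sum_congr rfl fun a ha => Finset.sum_congr rfl fun c hc => ?_
  rw [cellF_congr h (mem_strF.1 ha) (mem_strF.1 hc)]

theorem HeavyC_congr {Z Z' : List Bool → Bool} {j : ℕ} (h : ∀ x, x.length = lenL j → Z x = Z' x)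
    {a : List Bool} (ha : a.length = 2 * j) : HeavyC Z j a ↔ HeavyC Z' j a := by
  unfold HeavyC Heavy gsum
  rw [Finset.sum_congr rfl fun c hc => by rw [cellF_congr h ha (mem_strF.1 hc)]]

theorem MvC_congr {Z Z' : List Bool → Bool} {j : ℕ} (h : ∀ x, x.length = lenL j → Z x = Z' x)
    {loc loc' : List Bool → List Bool} (hl : ∀ u ∈ strF j, loc u = loc' u) :
    MvC Z j loc = MvC Z' j loc' := by
  unfold MvC
  congr 1
  refine Finset.filter_congr fun a ha => ?_
  rw [HeavyC_congr h (mem_strF.1 ha), Finset.image_congr (f := loc) (g := loc')]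
  intro u hu
  exact hl u hu

/-! ### empty levels -/

theorem valF_empty (s : ℕ) : valF s ∅ = zeroS s := by
  unfold valF valL
  simp

theorem cellF_empty {Z : List Bool → Bool} {j : ℕ} (h : ∀ x, x.length = lenL j → Z x = false)
    {a c : List Bool} (ha : a.length = 2 * j) (hc : c.length = sz j) :
    cellF Z (sz j) a c = ∅ := by
  rw [cellF_congr (Z' := fun _ => false) h ha hc]
  unfold cellF
  simp

theorem shows_empty {Z : List Bool → Bool} {j : ℕ} (h : ∀ x, x.length = lenL j → Z x = false)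
    {a : List Bool} (ha : a.length = 2 * j) {m : List Bool} (hm : m ≠ zeroS (sz j)) :
    shows Z a (sz j) m = false := by
  rw [Bool.eq_false_iff, ne_eq, shows_iff]
  rintro ⟨c, hc, h1⟩
  rw [cellF_empty h ha (mem_strF.1 hc), valF_empty] at h1
  exact hm h1.symm

theorem PhiC_empty {Z : List Bool → Bool} {j : ℕ} (h : ∀ x, x.length = lenL j → Z x = false) :
    PhiC Z j = 0 := by
  unfold PhiC
  refine Finset.sum_eq_zero fun a ha => Finset.sum_eq_zero fun c hc => ?_
  rw [cellF_empty h (mem_strF.1 ha) (mem_strF.1 hc)]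
  unfold phiC phi
  rw [valF_empty]
  simp

section InvAll

variable {n : ℕ} {A H Z : List Bool → Bool}

theorem Inv.empty (h : Inv n A H Z) {j : ℕ} (hj : n < j) : ∀ x, x.length = lenL j → Z x = false := by
  intro x hx
  rw [Bool.eq_false_iff]
  intro h1
  obtain ⟨i, hi, h2⟩ := h.lens x h1
  have := lenL_inj (h2.symm.trans hx)
  omega

theorem Inv.inj_all (h : Inv n A H Z) (j : ℕ) : Set.InjOn (addr Z) (strF j) := by
  by_cases hj : j ≤ n + 1
  · exact h.inj j hj
  · intro u hu v hv huv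
    have hu' : u.length = j := mem_strF.1 hu
    have hv' : v.length = j := mem_strF.1 hv
    have key : ∀ w : List Bool, w.length = j → addr Z w = build (fun _ => false) w 0 [] := by
      intro w hw
      cases w with
      | nil => simp at hw; omega
      | cons d w =>
        have hw2 : w.length + 1 = j := by simpa using hw
        rw [addr]
        refine build_congr _ _ _ _ _ fun q _ _ => ?_
        refine shows_empty (h.empty (by omega)) (length_addr Z w) ?_
        have := sz_ge w.length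
        exact tag_ne_zero (by omega) d q
    rw [key u hu', key v hv'] at huv
    exact build_zero_inj u v (hu'.trans hv'.symm) 0 huv

theorem Inv.hlt_all (h : Inv n A H Z) (u : List Bool) :
    shows Z (addr Z u) (sz u.length) (haltTag (sz u.length)) = true ↔ H u = true := by
  by_cases hj : u.length ≤ n
  · exact h.hlt u hj
  · rw [shows_empty (h.empty (by omega)) (length_addr Z u)
      (haltTag_ne_zero (by have := sz_ge u.length; omega))]
    constructor
    · intro h1; exact absurd h1 (by simp)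
    · intro h1; exact absurd (h.hlen u h1) hj

theorem Inv.pot_all (h : Inv n A H Z) (j : ℕ) : PhiC Z j ≤ 7 * cnt A (lenL j) +
    4 * (2 * (j + 1) * MvC Z (j + 1) (addr Z) + cnt H j) + 4 * (4 * j + 5) * MvC Z j (addr Z) := by
  by_cases hj : j ≤ n
  · exact h.pot j hj
  · rw [PhiC_empty (h.empty (by omega))]
    exact Nat.zero_le _

end InvAll

/-! ### numerical bounds -/

def hvC (Z : List Bool → Bool) (j : ℕ) : ℕ := ((strF (2 * j)).filter fun a => HeavyC Z j a).card

theorem MvC_le_hvC (Z : List Bool → Bool) (j : ℕ) (loc : List Bool → List Bool) :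
    MvC Z j loc ≤ hvC Z j := by
  refine Finset.card_le_card fun a ha => ?_
  obtain ⟨h1, h2, _⟩ := Finset.mem_filter.1 ha
  exact Finset.mem_filter.2 ⟨h1, h2⟩

theorem hvC_le (Z : List Bool → Bool) (j : ℕ) : hvC Z j ≤ 2 ^ (2 * j) :=
  (Finset.card_filter_le _ _).trans (le_of_eq (card_strF _))

/-- sum of the truncated counts -/
def GC (Z : List Bool → Bool) (j : ℕ) : ℕ :=
  ∑ a ∈ strF (2 * j), gsum (halfS j) (strF (sz j)) (cellF Z (sz j) a)

theorem GC_le_PhiC (Z : List Bool → Bool) (j : ℕ) : GC Z j ≤ PhiC Z j := by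
  unfold GC PhiC gsum phiC phi
  exact Finset.sum_le_sum fun a _ => Finset.sum_le_sum fun c _ => Nat.le_add_right _ _

theorem hvC_mul_le (Z : List Bool → Bool) (j : ℕ) :
    hvC Z j * (2 ^ sz j * halfS j) ≤ 2 * GC Z j := by
  unfold hvC GC
  rw [← smul_eq_mul, ← Finset.sum_const, Finset.mul_sum]
  refine (Finset.sum_le_sum (g := fun a => 2 * gsum (halfS j) (strF (sz j)) (cellF Z (sz j) a))
    fun a ha => ?_).trans (Finset.sum_le_sum_of_subset (Finset.filter_subset _ _))
  have := (Finset.mem_filter.1 ha).2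
  unfold HeavyC Heavy at this
  rwa [card_strF] at this

theorem cnt_le_GC (Z : List Bool → Bool) (j : ℕ) : cnt Z (lenL j) ≤ 2 * GC Z j := by
  unfold cnt
  rw [← card_cells, GC, Finset.mul_sum]
  refine Finset.sum_le_sum fun a _ => ?_
  unfold gsum
  rw [Finset.mul_sum]
  refine Finset.sum_le_sum fun c _ => ?_
  have h1 : (cellF Z (sz j) a c).card ≤ 2 ^ sz j :=
    (Finset.card_filter_le _ _).trans (le_of_eq (card_strF _))
  have h2 := two_halfS j
  have h3 : (Finset.filter (fun y => Z (a ++ c ++ y) = true) (strF (sz j))) =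
    cellF Z (sz j) a c := rfl
  rw [h3]
  omega

theorem PhiC_add {Z Zp : List Bool → Bool} (hZZ : ∀ x, Z x = true → Zp x = true) (j : ℕ) :
    PhiC Zp j ≤ PhiC Z j +
      3 * ((strF (lenL j)).filter fun x => Zp x = true ∧ ¬ Z x = true).card := by
  rw [← card_cells, Finset.mul_sum]
  unfold PhiC
  rw [← Finset.sum_add_distrib]
  refine Finset.sum_le_sum fun a _ => ?_
  rw [Finset.mul_sum, ← Finset.sum_add_distrib]
  refine Finset.sum_le_sum fun c _ => ?_
  have h1 : cellF Z (sz j) a c ⊆ cellF Zp (sz j) a c := by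
    intro y hy
    unfold cellF at *
    rw [Finset.mem_filter] at *
    exact ⟨hy.1, hZZ _ hy.2⟩
  have h2 := phi_mono_add (T := halfS j) (val := valF (sz j)) (zero := zeroS (sz j)) h1
  have h3 : cellF Zp (sz j) a c \ cellF Z (sz j) a c =
      (strF (sz j)).filter fun y => Zp (a ++ c ++ y) = true ∧ ¬ Z (a ++ c ++ y) = true := by
    ext y
    simp only [cellF, Finset.mem_sdiff, Finset.mem_filter]
    tauto
  rw [h3] at h2
  exact h2

theorem bounds (j a m1 h mv Phi hv G : ℕ) (h1 : Phi ≤ 7 * a + 4 * (2 * (j + 1) * m1 + h) +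
      4 * (4 * j + 5) * mv) (h2 : mv ≤ hv) (h3 : G ≤ Phi) (h4 : hv * (2 ^ sz j * halfS j) ≤ 2 * G)
    (h5 : m1 ≤ 2 ^ (2 * (j + 1))) (h6 : h ≤ 2 ^ j) (h7 : 256 * a ≤ 2 ^ lenL j) :
    4 * hv < 2 ^ (2 * j) ∧ 8 * (2 * G) < 2 ^ lenL j := by
  have e1 : 2 ^ lenL j = 2 ^ (2 * j) * (2 ^ sz j * 2 ^ sz j) := by
    unfold lenL
    rw [pow_add, two_mul (sz j), pow_add]
  have e2 := two_halfS j
  have e3 := pow_sz j
  have e4 : 2 ^ (2 * (j + 1)) = 4 * 2 ^ (2 * j) := by
    rw [mul_add, pow_add]; ring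
  have e5 : 2 ^ j ≤ 2 ^ (2 * j) := Nat.pow_le_pow_right (by norm_num) (by omega)
  set W := 2 ^ (2 * j) with hW
  set B := 2 ^ sz j with hB
  set t := halfS j with ht
  have hWpos : 0 < W := by positivity
  -- Q = B * B
  have hQ : 128 * (j + 2) * B ≤ B * B := Nat.mul_le_mul_right _ e3
  have hBt : 2 * (B * t) = B * B := by rw [← e2]; ring
  rw [e1] at h7 ⊢
  rw [e4] at h5
  set Q := B * B with hQdef
  -- lower bound of Q
  have hQ2 : 16384 * ((j + 2) * (j + 2)) ≤ Q := by
    calc 16384 * ((j + 2) * (j + 2)) = (128 * (j + 2)) * (128 * (j + 2)) := by ring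
      _ ≤ B * B := Nat.mul_le_mul e3 e3
  have hQ3 : 32768 * (j + 2) ≤ Q := by
    calc 32768 * (j + 2) = 16384 * ((j + 2) * 2) := by ring
      _ ≤ 16384 * ((j + 2) * (j + 2)) := by
        refine Nat.mul_le_mul_left _ (Nat.mul_le_mul_left _ (by omega))
      _ ≤ Q := hQ2
  have c1 : hv * Q ≤ 4 * G := by
    calc hv * Q = 2 * (hv * (B * t)) := by rw [← hBt]; ring
      _ ≤ 2 * (2 * G) := Nat.mul_le_mul_left 2 h4
      _ = 4 * G := by ring
  have c2 : 8 * (j + 1) * m1 ≤ 32 * ((j + 2) * W) := by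
    calc 8 * (j + 1) * m1 ≤ 8 * (j + 1) * (4 * W) := Nat.mul_le_mul_left _ h5
      _ = 32 * ((j + 1) * W) := by ring
      _ ≤ 32 * ((j + 2) * W) := by
        refine Nat.mul_le_mul_left _ (Nat.mul_le_mul_right _ (by omega))
  have c3 : 4 * (4 * j + 5) * mv ≤ 20 * ((j + 2) * hv) := by
    calc 4 * (4 * j + 5) * mv ≤ 4 * (4 * j + 5) * hv := Nat.mul_le_mul_left _ h2
      _ ≤ 20 * (j + 2) * hv := Nat.mul_le_mul_right _ (by omega)
      _ = 20 * ((j + 2) * hv) := by ring
  have c4 : G ≤ 7 * a + 32 * ((j + 2) * W) + 4 * W + 20 * ((j + 2) * hv) := by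
    have : 4 * (2 * (j + 1) * m1 + h) = 8 * (j + 1) * m1 + 4 * h := by ring
    omega
  have c5 : 32768 * ((j + 2) * W) ≤ W * Q := by
    calc 32768 * ((j + 2) * W) = W * (32768 * (j + 2)) := by ring
      _ ≤ W * Q := Nat.mul_le_mul_left _ hQ3
  have c6 : 16384 * W ≤ W * Q := by
    calc 16384 * W = W * 16384 := by ring
      _ ≤ W * Q := Nat.mul_le_mul_left _ (by omega)
  have c7 : 32768 * ((j + 2) * hv) ≤ hv * Q := by
    calc 32768 * ((j + 2) * hv) = hv * (32768 * (j + 2)) := by ring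
      _ ≤ hv * Q := Nat.mul_le_mul_left _ hQ3
  have c8 : 256 * a ≤ W * Q := h7
  have hQpos : 0 < Q := by omega
  have hWQ : 0 < W * Q := Nat.mul_pos hWpos hQpos
  constructor
  · by_contra hcon
    have hcon' : W ≤ 4 * hv := not_lt.1 hcon
    have : W * Q ≤ 4 * (hv * Q) := by
      calc W * Q ≤ (4 * hv) * Q := Nat.mul_le_mul_right _ hcon'
        _ = 4 * (hv * Q) := by ring
    omega
  · omega

end Pool.Agent.LibRC
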