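import Mathlib
import Pool.Agent.LibRC.Multi

/-! The repair step. -/

namespace Pool.Agent.LibRC

theorem sum_cons (j : ℕ) (f : List Bool → ℕ) :
    ∑ v ∈ strF (j + 1), f v = ∑ u ∈ strF j, (f (false :: u) + f (true :: u)) := by
  unfold strF
  rw [List.sum_toFinset _ (nodup_strs _), List.sum_toFinset _ (nodup_strs _), strs]
  induction strs j with
  | nil => simp
  | cons a l ih =>
    rw [List.flatMap_cons, List.map_append, List.sum_append, ih]
    simp

attribute [local irreducible] sz strF lenL

theorem demand (j : ℕ) (Z : List Bool → Bool) (locN : List Bool → List Bool)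
    (hlocN : ∀ v ∈ strF (j + 1), locN v ∈ strF (2 * (j + 1))) (H H' : List Bool → Bool)
    (hlt : ∀ u ∈ strF j, (shows Z (addr Z u) (sz j) (haltTag (sz j)) = true ↔ H u = true)) :
    ∃ D : List Bool → Finset (List Bool), (∀ u ∈ strF j, D u ⊆ strF (sz j)) ∧
      (∀ u ∈ strF j, (D u).card ≤ 4 * j + 5) ∧
      (∑ u ∈ strF j, ((D u).filter fun m => ¬ shows Z (addr Z u) (sz j) m = true).card ≤
        2 * (j + 1) * ((strF (j + 1)).filter fun v => locN v ≠ addr Z v).card +
          ((strF j).filter fun u => H' u = true ∧ ¬ H u = true).card) ∧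
      (∀ u ∈ strF j, ∀ (Z' : List Bool → Bool) (a : List Bool),
        (∀ m, m ≠ zeroS (sz j) → (shows Z' a (sz j) m = true ↔ m ∈ D u)) →
          (∀ d, build (fun p => shows Z' a (sz j) (tag (sz j) d p)) (d :: u) 0 [] =
            locN (d :: u)) ∧
          (shows Z' a (sz j) (haltTag (sz j)) = true ↔ H' u = true)) := by
  classical
  have hs := sz_ge j
  have key : ∀ v : List Bool, ∃ x : ℕ → Bool, v ∈ strF (j + 1) → (build x v 0 [] = locN v ∧
      (locN v = addr Z v → ∀ p, x p = shows Z (addr Z v.tail) (sz j)
        (tag (sz j) (v.headD false) p))) := by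
    intro v
    by_cases hv : v ∈ strF (j + 1)
    · by_cases h1 : locN v = addr Z v
      · refine ⟨fun p => shows Z (addr Z v.tail) (sz j) (tag (sz j) (v.headD false) p),
          fun _ => ⟨?_, fun _ _ => rfl⟩⟩
        rw [h1]
        have hl := mem_strF.1 hv
        cases v with
        | nil => simp at hl
        | cons d u =>
          have hu : u.length = j := by simpa using hl
          rw [addr, hu]
          rfl
      · obtain ⟨x, hx⟩ := build_surj v 0 (locN v)
          (by rw [mem_strF.1 (hlocN v hv), mem_strF.1 hv])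
        exact ⟨x, fun _ => ⟨hx, fun h2 => absurd h2 h1⟩⟩
    · exact ⟨fun _ => false, fun h => absurd h hv⟩
  choose x hx using key
  let T : List Bool → Bool → Finset (List Bool) := fun u d =>
    ((Finset.range (2 * (j + 1))).filter fun p => x (d :: u) p = true).image (tag (sz j) d)
  let Hs : List Bool → Finset (List Bool) := fun u => if H' u = true then {haltTag (sz j)} else ∅
  have hmem : ∀ u ∈ strF j, ∀ d, d :: u ∈ strF (j + 1) := by
    intro u hu d
    rw [mem_strF, List.length_cons, mem_strF.1 hu]
  have hTcard : ∀ u d, (T u d).card ≤ 2 * (j + 1) := by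
    intro u d
    refine Finset.card_image_le.trans ((Finset.card_filter_le _ _).trans ?_)
    rw [Finset.card_range]
  have hHcard : ∀ u, (Hs u).card ≤ 1 := by
    intro u
    simp only [Hs]
    split_ifs <;> simp
  refine ⟨fun u => T u false ∪ T u true ∪ Hs u, ?_, ?_, ?_, ?_⟩
  · intro u _ m hm
    rw [mem_strF]
    simp only [Finset.mem_union, T, Finset.mem_image] at hm
    rcases hm with (⟨p, _, rfl⟩ | ⟨p, _, rfl⟩) | hm
    · exact length_tag (by omega) _ _
    · exact length_tag (by omega) _ _
    · simp only [Hs] at hm
      split_ifs at hm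
      · rw [Finset.mem_singleton] at hm
        rw [hm]
        exact length_haltTag (by omega)
      · simp at hm
  · intro u _
    have h1 := Finset.card_union_le (T u false ∪ T u true) (Hs u)
    have h2 := Finset.card_union_le (T u false) (T u true)
    have h3 := hTcard u false
    have h4 := hTcard u true
    have h5 := hHcard u
    show (T u false ∪ T u true ∪ Hs u).card ≤ _
    omega
  · have hone : ∀ u ∈ strF j,
        ((T u false ∪ T u true ∪ Hs u).filter fun m =>
          ¬ shows Z (addr Z u) (sz j) m = true).card ≤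
        ((if locN (false :: u) ≠ addr Z (false :: u) then 2 * (j + 1) else 0) +
          (if locN (true :: u) ≠ addr Z (true :: u) then 2 * (j + 1) else 0)) +
          (if H' u = true ∧ ¬ H u = true then 1 else 0) := by
      intro u hu
      have hT : ∀ d, ((T u d).filter fun m => ¬ shows Z (addr Z u) (sz j) m = true).card ≤
          (if locN (d :: u) ≠ addr Z (d :: u) then 2 * (j + 1) else 0) := by
        intro d
        split_ifs with h1
        · exact (Finset.card_filter_le _ _).trans (hTcard u d)
        · push Not at h1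
          rw [Nat.le_zero, Finset.card_eq_zero, Finset.filter_eq_empty_iff]
          intro m hm
          simp only [T, Finset.mem_image, Finset.mem_filter] at hm
          obtain ⟨p, ⟨_, h3⟩, rfl⟩ := hm
          have := (hx (d :: u) (hmem u hu d)).2 h1 p
          simp only [List.tail_cons, List.headD_cons] at this
          rw [not_not, ← this]
          exact h3
      have hH : ((Hs u).filter fun m => ¬ shows Z (addr Z u) (sz j) m = true).card ≤
          (if H' u = true ∧ ¬ H u = true then 1 else 0) := by
        split_ifs with h1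
        · exact (Finset.card_filter_le _ _).trans (hHcard u)
        · rw [Nat.le_zero, Finset.card_eq_zero, Finset.filter_eq_empty_iff]
          intro m hm
          simp only [Hs] at hm
          split_ifs at hm with h2
          · rw [Finset.mem_singleton] at hm
            rw [hm, not_not, hlt u hu]
            by_contra h3
            exact h1 ⟨h2, h3⟩
          · simp at hm
      rw [Finset.filter_union, Finset.filter_union]
      have h1 := Finset.card_union_le
        (((T u false).filter fun m => ¬ shows Z (addr Z u) (sz j) m = true) ∪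
          ((T u true).filter fun m => ¬ shows Z (addr Z u) (sz j) m = true))
        ((Hs u).filter fun m => ¬ shows Z (addr Z u) (sz j) m = true)
      have h2 := Finset.card_union_le
        ((T u false).filter fun m => ¬ shows Z (addr Z u) (sz j) m = true)
        ((T u true).filter fun m => ¬ shows Z (addr Z u) (sz j) m = true)
      have h3 := hT false
      have h4 := hT true
      omega
    refine (Finset.sum_le_sum hone).trans (le_of_eq ?_)
    rw [Finset.sum_add_distrib,
      ← sum_cons j fun v => if locN v ≠ addr Z v then 2 * (j + 1) else 0]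
    congr 1
    · rw [← Finset.sum_filter, Finset.sum_const, smul_eq_mul, mul_comm]
    · rw [← Finset.sum_filter, Finset.sum_const, smul_eq_mul, mul_one]
  · intro u hu Z' a hm
    constructor
    · intro d
      rw [← (hx (d :: u) (hmem u hu d)).1]
      refine build_congr _ _ _ _ _ fun q _ hq => ?_
      have hq' : q < 2 * (j + 1) := by
        rw [List.length_cons, mem_strF.1 hu] at hq
        omega
      rw [Bool.eq_iff_iff, hm _ (tag_ne_zero (by omega) d q)]
      simp only [Finset.mem_union]
      have hptr := ptr_lt j q hq'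
      have hTT : ∀ d', tag (sz j) d q ∈ T u d' ↔ d = d' ∧ x (d :: u) q = true := by
        intro d'
        simp only [T, Finset.mem_image, Finset.mem_filter, Finset.mem_range]
        constructor
        · rintro ⟨p, ⟨h1, h2⟩, h3⟩
          obtain ⟨rfl, rfl⟩ := tag_inj (ptr_lt j p h1) hptr h3
          exact ⟨rfl, h2⟩
        · rintro ⟨rfl, h2⟩
          exact ⟨q, ⟨hq', h2⟩, rfl⟩
      have hHs : tag (sz j) d q ∉ Hs u := by
        simp only [Hs]
        split_ifs
        · rw [Finset.mem_singleton]
          exact (haltTag_ne_tag _ _ _).symm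
        · simp
      rw [hTT, hTT]
      constructor
      · rintro ((⟨_, h⟩ | ⟨_, h⟩) | h)
        · exact h
        · exact h
        · exact absurd h hHs
      · intro h
        left
        cases d
        · exact Or.inl ⟨rfl, h⟩
        · exact Or.inr ⟨rfl, h⟩
    · rw [hm _ (haltTag_ne_zero (by omega))]
      simp only [Finset.mem_union]
      have hT : ∀ d, haltTag (sz j) ∉ T u d := by
        intro d
        simp only [T, Finset.mem_image, not_exists, not_and]
        intro p _ h
        exact haltTag_ne_tag _ _ _ h.symm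
      constructor
      · rintro ((h | h) | h)
        · exact absurd h (hT _)
        · exact absurd h (hT _)
        · simp only [Hs] at h
          split_ifs at h with h2
          · exact h2
          · simp at h
      · intro h
        right
        simp only [Hs, h, if_true, Finset.mem_singleton]

structure Mid (n' i : ℕ) (A' H' Z Zp Z2 : List Bool → Bool) (loc : List Bool → List Bool) :
    Prop where
  up : ∀ x, Zp x = true → Z2 x = true
  same : ∀ x, (∀ j, i ≤ j → j ≤ n' → x.length ≠ lenL j) → Z2 x = Zp x
  reg : ∀ j, i ≤ j → j ≤ n' + 1 → ∀ u ∈ strF j, loc u ∈ strF (2 * j)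
  inj : ∀ j, i ≤ j → j ≤ n' + 1 → Set.InjOn loc (strF j)
  ptr : ∀ j, i ≤ j → j ≤ n' → ∀ u ∈ strF j, ∀ d,
    build (fun p => shows Z2 (loc u) (sz j) (tag (sz j) d p)) (d :: u) 0 [] = loc (d :: u)
  hlt : ∀ j, i ≤ j → j ≤ n' → ∀ u ∈ strF j,
    (shows Z2 (loc u) (sz j) (haltTag (sz j)) = true ↔ H' u = true)
  pot : ∀ j, i ≤ j → j ≤ n' → PhiC Z2 j ≤ 7 * cnt A' (lenL j) +
    4 * (2 * (j + 1) * MvC Z2 (j + 1) loc + cnt H' j) + 4 * (4 * j + 5) * MvC Z2 j loc
  mv : ∀ j, i ≤ j → j ≤ n' + 1 →
    MvC Z j (addr Z) + ((strF j).filter fun u => loc u ≠ addr Z u).card ≤ MvC Z2 j loc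

theorem HeavyC_mono {Z Z' : List Bool → Bool} (h : ∀ x, Z x = true → Z' x = true) (j : ℕ)
    (a : List Bool) (hh : HeavyC Z j a) : HeavyC Z' j a := by
  refine heavy_mono (fun c _ => ?_) hh
  intro y hy
  unfold cellF at *
  rw [Finset.mem_filter] at *
  exact ⟨hy.1, h _ hy.2⟩

section

variable {n n' : ℕ} {A H Z A' H' : List Bool → Bool}

theorem mid_exists (h : Inv n A H Z) (hA : ∀ x, A x = true → A' x = true)
    (hH : ∀ u, H u = true → H' u = true)
    (hb : ∀ j, 256 * cnt A' (lenL j) ≤ 2 ^ lenL j) (k : ℕ) (hk : k ≤ n' + 1) :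
    ∃ (Z2 : List Bool → Bool) (loc : List Bool → List Bool),
      Mid n' (n' + 1 - k) A' H' Z (fun x => Z x || A' x) Z2 loc := by
  induction k with
  | zero =>
    refine ⟨fun x => Z x || A' x, addr Z, ?_⟩
    constructor
    · intro x hx; exact hx
    · intro x _; rfl
    · intro j _ _ u hu
      rw [mem_strF, length_addr, mem_strF.1 hu]
    · intro j _ _
      exact h.inj_all j
    · intro j h1 h2; omega
    · intro j h1 h2; omega
    · intro j h1 h2; omega
    · intro j _ _
      have h1 : ((strF j).filter fun u => addr Z u ≠ addr Z u) = ∅ := by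
        rw [Finset.filter_eq_empty_iff]
        intro u _ h2
        exact h2 rfl
      rw [h1, Finset.card_empty, add_zero]
      refine Finset.card_le_card fun a ha => ?_
      obtain ⟨h2, h3, h4⟩ := Finset.mem_filter.1 ha
      refine Finset.mem_filter.2 ⟨h2, HeavyC_mono (fun x hx => ?_) j a h3, h4⟩
      simp [hx]
  | succ k ih =>
    obtain ⟨Z2, loc, M⟩ := ih (by omega)
    set i := n' + 1 - (k + 1) with hi
    have hi1 : n' + 1 - k = i + 1 := by omega
    rw [hi1] at M
    have hin : i ≤ n' := by omega
    set Zp : List Bool → Bool := fun x => Z x || A' x with hZp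
    have hZZp : ∀ x, Z x = true → Zp x = true := by intro x hx; simp [hZp, hx]
    have hsame : ∀ x, x.length = lenL i → Z2 x = Zp x := by
      intro x hx
      refine M.same x fun j h1 _ h3 => ?_
      have := lenL_inj (hx.symm.trans h3)
      omega
    -- demands
    obtain ⟨D, d1, d2, d3, d4⟩ := demand i Z loc
      (fun v hv => M.reg (i + 1) le_rfl (by omega) v hv) H H'
      (fun u hu => by
        have := h.hlt_all u
        rw [mem_strF.1 hu] at this
        exact this)
    -- number of new strings
    set kk := ((strF (lenL i)).filter fun x => Z2 x = true ∧ ¬ Z x = true).card with hkk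
    have hkk2 : kk + cnt A (lenL i) ≤ cnt A' (lenL i) := by
      unfold cnt
      rw [hkk, ← Finset.card_union_of_disjoint]
      · refine Finset.card_le_card fun x hx => ?_
        rcases Finset.mem_union.1 hx with hx | hx
        · obtain ⟨h1, h2, h3⟩ := Finset.mem_filter.1 hx
          refine Finset.mem_filter.2 ⟨h1, ?_⟩
          rw [hsame x (mem_strF.1 h1)] at h2
          simp only [hZp, Bool.or_eq_true] at h2
          exact h2.resolve_left h3
        · obtain ⟨h1, h2⟩ := Finset.mem_filter.1 hx
          exact Finset.mem_filter.2 ⟨h1, hA x h2⟩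
      · rw [Finset.disjoint_left]
        intro x hx hx2
        exact (Finset.mem_filter.1 hx).2.2 (h.adv x (Finset.mem_filter.1 hx2).2)
    have hZZ2 : ∀ x, Z x = true → Z2 x = true := fun x hx => M.up x (hZZp x hx)
    have hpotold := h.pot_all i
    have hH1 : cnt H i + ((strF i).filter fun u => H' u = true ∧ ¬ H u = true).card ≤
        cnt H' i := by
      unfold cnt
      rw [← Finset.card_union_of_disjoint]
      · refine Finset.card_le_card fun x hx => ?_
        rcases Finset.mem_union.1 hx with hx | hx
        · obtain ⟨h1, h2⟩ := Finset.mem_filter.1 hx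
          exact Finset.mem_filter.2 ⟨h1, hH x h2⟩
        · obtain ⟨h1, h2, h3⟩ := Finset.mem_filter.1 hx
          exact Finset.mem_filter.2 ⟨h1, h2⟩
      · rw [Finset.disjoint_left]
        intro x hx hx2
        exact (Finset.mem_filter.1 hx2).2.2 (Finset.mem_filter.1 hx).2
    -- room
    have hroom : hvC Z2 i + 2 ^ i ≤ 2 ^ (2 * i) := by
      have b1 := PhiC_add hZZ2 i
      rw [← hkk] at b1
      have b2 : MvC Z i (addr Z) ≤ hvC Z2 i := by
        refine (MvC_le_hvC _ _ _).trans (Finset.card_le_card fun a ha => ?_)
        obtain ⟨c1, c2⟩ := Finset.mem_filter.1 ha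
        exact Finset.mem_filter.2 ⟨c1, HeavyC_mono hZZ2 i a c2⟩
      have b3 := bounds i (cnt A' (lenL i)) (MvC Z (i + 1) (addr Z)) (cnt H i)
        (MvC Z i (addr Z)) (PhiC Z2 i) (hvC Z2 i) (GC Z2 i) (by omega) b2 (GC_le_PhiC _ _)
        (hvC_mul_le _ _) ((MvC_le_hvC _ _ _).trans (hvC_le _ _)) (cnt_le _ _) (hb i)
      have b4 := b3.1
      rcases Nat.eq_zero_or_pos i with h0 | h0
      · rw [h0] at b4 ⊢
        simp at b4 ⊢
        exact b4
      · have h1 : 2 ^ (2 * i) = 2 ^ i * 2 ^ i := by rw [two_mul, pow_add]
        have h2 : 2 ≤ 2 ^ i := by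
          calc 2 = 2 ^ 1 := by norm_num
            _ ≤ 2 ^ i := Nat.pow_le_pow_right (by norm_num) h0
        rw [h1] at b4 ⊢
        nlinarith
    obtain ⟨Z3, loc', e1, e2, e3, e4, e5, e6, e7⟩ := levelC i Z Z2 hZZ2 (addr Z)
      (fun u hu => by rw [mem_strF, length_addr, mem_strF.1 hu]) (h.inj_all i) D d1 d2 kk le_rfl
      hroom
    -- new location function
    let loc3 : List Bool → List Bool := fun u => if u.length = i then loc' u else loc u
    have l1 : ∀ u ∈ strF i, loc3 u = loc' u := fun u hu => if_pos (mem_strF.1 hu)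
    have l2 : ∀ j, j ≠ i → ∀ u ∈ strF j, loc3 u = loc u := fun j hj u hu =>
      if_neg (by rw [mem_strF.1 hu]; exact hj)
    have z1 : ∀ j, j ≠ i → ∀ x : List Bool, x.length = lenL j → Z3 x = Z2 x := by
      intro j hj x hx
      refine e2 x ?_
      rw [hx]
      intro h1
      exact hj (lenL_inj h1)
    have mvi : MvC Z3 i loc3 = MvC Z3 i loc' := MvC_congr (fun _ _ => rfl) l1
    have mvj : ∀ j, j ≠ i → MvC Z3 j loc3 = MvC Z2 j loc := fun j hj =>
      MvC_congr (z1 j hj) (l2 j hj)
    refine ⟨Z3, loc3, ?_⟩
    constructor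
    · intro x hx
      exact e1 x (M.up x hx)
    · intro x hx
      rw [e2 x (hx i le_rfl hin)]
      exact M.same x fun j h1 h2 => hx j (by omega) h2
    · intro j h1 h2 u hu
      by_cases hj : j = i
      · subst hj
        rw [l1 u hu]; exact e3 u hu
      · rw [l2 j hj u hu]; exact M.reg j (by omega) h2 u hu
    · intro j h1 h2
      by_cases hj : j = i
      · subst hj
        intro u hu v hv huv
        rw [l1 u hu, l1 v hv] at huv
        exact e4 hu hv huv
      · intro u hu v hv huv
        rw [l2 j hj u hu, l2 j hj v hv] at huv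
        exact M.inj j (by omega) h2 hu hv huv
    · intro j h1 h2 u hu d
      have hdu : d :: u ∈ strF (j + 1) := by rw [mem_strF, List.length_cons, mem_strF.1 hu]
      rw [l2 (j + 1) (by omega) _ hdu]
      by_cases hj : j = i
      · subst hj
        rw [l1 u hu]
        exact (d4 u hu Z3 (loc' u) (e5 u hu)).1 d
      · rw [l2 j hj u hu, ← M.ptr j (by omega) h2 u hu d]
        refine build_congr _ _ _ _ _ fun q _ _ => ?_
        exact shows_congr (z1 j hj) (mem_strF.1 (M.reg j (by omega) (by omega) u hu)) _
    · intro j h1 h2 u hu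
      by_cases hj : j = i
      · subst hj
        rw [l1 u hu]
        exact (d4 u hu Z3 (loc' u) (e5 u hu)).2
      · rw [l2 j hj u hu, shows_congr (z1 j hj) (mem_strF.1 (M.reg j (by omega) (by omega) u hu))]
        exact M.hlt j (by omega) h2 u hu
    · intro j h1 h2
      by_cases hj : j = i
      · subst hj
        rw [mvi, mvj (i + 1) (by omega)]
        have m1 := M.mv (i + 1) le_rfl (by omega)
        have p1 : 2 * (i + 1) * MvC Z (i + 1) (addr Z) +
            2 * (i + 1) * ((strF (i + 1)).filter fun v => loc v ≠ addr Z v).card ≤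
            2 * (i + 1) * MvC Z2 (i + 1) loc := by
          rw [← mul_add]
          exact Nat.mul_le_mul_left _ m1
        have p2 : 4 * (4 * i + 5) * MvC Z i (addr Z) +
            4 * (4 * i + 5) * ((strF i).filter fun u => loc' u ≠ addr Z u).card ≤
            4 * (4 * i + 5) * MvC Z3 i loc' := by
          rw [← mul_add]
          exact Nat.mul_le_mul_left _ e7
        omega
      · rw [mvj j hj, mvj (j + 1) (by omega), PhiC_congr (z1 j hj)]
        exact M.pot j (by omega) h2
    · intro j h1 h2
      by_cases hj : j = i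
      · subst hj
        rw [mvi]
        have : ((strF i).filter fun u => loc3 u ≠ addr Z u) =
            (strF i).filter fun u => loc' u ≠ addr Z u :=
          Finset.filter_congr fun u hu => by rw [l1 u hu]
        rw [this]
        exact e7
      · rw [mvj j hj]
        have : ((strF j).filter fun u => loc3 u ≠ addr Z u) =
            (strF j).filter fun u => loc u ≠ addr Z u :=
          Finset.filter_congr fun u hu => by rw [l2 j hj u hu]
        rw [this]
        exact M.mv j (by omega) h2

/-- The repair step. -/
theorem Inv.step (h : Inv n A H Z) (hn : n ≤ n') (hA : ∀ x, A x = true → A' x = true)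
    (hH : ∀ u, H u = true → H' u = true) (hAl : ∀ x, A' x = true → ∃ j ≤ n', x.length = lenL j)
    (hHl : ∀ u, H' u = true → u.length ≤ n')
    (hb : ∀ j, 256 * cnt A' (lenL j) ≤ 2 ^ lenL j) :
    ∃ Z' : List Bool → Bool, (∀ x, Z x = true → Z' x = true) ∧ Inv n' A' H' Z' := by
  obtain ⟨Z2, loc, M⟩ := mid_exists h hA hH hb (n' + 1) le_rfl
  rw [Nat.sub_self] at M
  have hloc : ∀ u : List Bool, u.length ≤ n' + 1 → addr Z2 u = loc u := by
    intro u
    induction u with
    | nil =>
      intro _
      have := M.reg 0 le_rfl (by omega) [] (by rw [mem_strF]; rfl)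
      rw [mem_strF] at this
      rw [addr]
      exact (List.length_eq_zero_iff.1 (by simpa using this)).symm
    | cons d u ih =>
      intro hu
      have hu' : u.length ≤ n' := by simpa using hu
      rw [addr, ih (by omega), ← M.ptr u.length (Nat.zero_le _) hu' u (mem_strF.2 rfl) d]
      rfl
  refine ⟨Z2, fun x hx => M.up x (by simp [hx]), ?_⟩
  constructor
  · intro x hx
    by_contra hcon
    push Not at hcon
    have h1 := M.same x fun j _ h2 => hcon j h2
    rw [h1] at hx
    simp only [Bool.or_eq_true] at hx
    rcases hx with hx | hx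
    · obtain ⟨j, hj, h3⟩ := h.lens x hx
      exact hcon j (by omega) h3
    · obtain ⟨j, hj, h3⟩ := hAl x hx
      exact hcon j hj h3
  · intro x hx
    exact M.up x (by simp [hx])
  · exact hHl
  · intro j hj u hu v hv huv
    rw [hloc u (by rw [mem_strF.1 hu]; exact hj), hloc v (by rw [mem_strF.1 hv]; exact hj)] at huv
    exact M.inj j (Nat.zero_le _) hj hu hv huv
  · intro u hu
    rw [hloc u (by omega)]
    exact M.hlt u.length (Nat.zero_le _) hu u (mem_strF.2 rfl)
  · intro j hj
    have e1 : MvC Z2 j (addr Z2) = MvC Z2 j loc :=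
      MvC_congr (fun _ _ => rfl) fun u hu => hloc u (by rw [mem_strF.1 hu]; omega)
    have e2 : MvC Z2 (j + 1) (addr Z2) = MvC Z2 (j + 1) loc :=
      MvC_congr (fun _ _ => rfl) fun u hu => hloc u (by rw [mem_strF.1 hu]; omega)
    rw [e1, e2]
    exact M.pot j (Nat.zero_le _) hj

/-- budget: few strings are removed at each length -/
theorem Inv.budget (h : Inv n A H Z) (hb : ∀ j, 256 * cnt A (lenL j) ≤ 2 ^ lenL j) (j : ℕ) :
    8 * cnt Z (lenL j) < 2 ^ lenL j := by
  have b := bounds j (cnt A (lenL j)) (MvC Z (j + 1) (addr Z)) (cnt H j)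
    (MvC Z j (addr Z)) (PhiC Z j) (hvC Z j) (GC Z j) (h.pot_all j) (MvC_le_hvC _ _ _)
    (GC_le_PhiC _ _) (hvC_mul_le _ _) ((MvC_le_hvC _ _ _).trans (hvC_le _ _)) (cnt_le _ _) (hb j)
  have := cnt_le_GC Z j
  omega

end

theorem Inv.zero (H : List Bool → Bool) (hH : ∀ u, H u = false) :
    Inv 0 (fun _ => false) H (fun _ => false) := by
  constructor
  · intro x hx; simp at hx
  · intro x hx; simp at hx
  · intro u hu; rw [hH] at hu; simp at hu
  · intro j _ u hu v hv huv
    have key : ∀ w : List Bool, addr (fun _ => false) w = build (fun _ => false) w 0 [] := by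
      intro w
      cases w with
      | nil => rfl
      | cons d w =>
        rw [addr]
        refine build_congr _ _ _ _ _ fun q _ _ => ?_
        refine shows_empty (fun _ _ => rfl) (length_addr _ w) ?_
        have := sz_ge w.length
        exact tag_ne_zero (by omega) d q
    rw [key u, key v] at huv
    exact build_zero_inj u v ((mem_strF.1 hu).trans (mem_strF.1 hv).symm) 0 huv
  · intro u _
    rw [shows_empty (fun _ _ => rfl) (length_addr _ u)
      (haltTag_ne_zero (by have := sz_ge u.length; omega)), hH]
  · intro j _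
    rw [PhiC_empty (fun _ _ => rfl)]
    exact Nat.zero_le _

end Pool.Agent.LibRC
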