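import Mathlib
import Pool.Agent.LibRC.Step

/-! Computability of the combinatorial notions. -/

namespace Pool.Agent.LibRC

open Primrec

section Gen

variable {α β : Type} [Primcodable α] [Primcodable β]

theorem prim_any {f : α → List β} {p : α → β → Bool} (hf : Primrec f) (hp : Primrec₂ p) :
    Primrec fun a => (f a).any (p a) :=
  (list_foldr hf (const false) (h := fun a q => p a q.1 || q.2)
    (Primrec.or.comp (hp.comp fst (fst.comp snd)) (snd.comp snd)).to₂).of_eq fun a => by
      induction f a with
      | nil => rfl
      | cons b l ih => rw [List.foldr_cons, ih, List.any_cons]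

theorem prim_all {f : α → List β} {p : α → β → Bool} (hf : Primrec f) (hp : Primrec₂ p) :
    Primrec fun a => (f a).all (p a) :=
  (list_foldr hf (const true) (h := fun a q => p a q.1 && q.2)
    (Primrec.and.comp (hp.comp fst (fst.comp snd)) (snd.comp snd)).to₂).of_eq fun a => by
      induction f a with
      | nil => rfl
      | cons b l ih => rw [List.foldr_cons, ih, List.all_cons]

theorem prim_filter {f : α → List β} {p : α → β → Bool} (hf : Primrec f) (hp : Primrec₂ p) :
    Primrec fun a => (f a).filter (p a) :=
  (list_foldr hf (const []) (h := fun a q => bif p a q.1 then q.1 :: q.2 else q.2)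
    (Primrec.cond (hp.comp fst (fst.comp snd)) (list_cons.comp (fst.comp snd) (snd.comp snd))
      (snd.comp snd)).to₂).of_eq fun a => by
      induction f a with
      | nil => rfl
      | cons b l ih =>
        rw [List.foldr_cons, ih, List.filter_cons]
        cases p a b <;> simp

theorem prim_sum {f : α → List β} {g : α → β → ℕ} (hf : Primrec f) (hg : Primrec₂ g) :
    Primrec fun a => ((f a).map (g a)).sum :=
  (list_foldr hf (const 0) (h := fun a q => g a q.1 + q.2)
    (nat_add.comp (hg.comp fst (fst.comp snd)) (snd.comp snd)).to₂).of_eq fun a => by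
      induction f a with
      | nil => rfl
      | cons b l ih => rw [List.foldr_cons, ih, List.map_cons, List.sum_cons]

theorem prim_replicate (b : β) : Primrec fun n => List.replicate n b :=
  (list_map list_range (const b).to₂).of_eq fun n => by
    rw [List.eq_replicate_iff]
    simp

end Gen

theorem prim_strs : Primrec strs :=
  (nat_rec₁ (f := fun _ (l : List (List Bool)) => l.flatMap fun l => [false :: l, true :: l])
    [[]]
    (list_flatMap snd (list_cons.comp (list_cons.comp (const false) snd)
      (list_cons.comp (list_cons.comp (const true) snd) (const []))).to₂).to₂).of_eq fun n => by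
      induction n with
      | zero => rfl
      | succ n ih =>
        show (List.flatMap _ (Nat.rec _ _ n)) = _
        rw [strs, ih]

theorem xorL_eq (l m : List Bool) : xorL l m =
    (List.range (min l.length m.length)).map fun i => xor (l.getD i false) (m.getD i false) := by
  unfold xorL
  apply List.ext_getElem
  · simp
  · intro i h1 h2
    simp only [List.getElem_zipWith, List.getElem_map, List.getElem_range]
    have h3 : i < l.length := by simp at h1; omega
    have h4 : i < m.length := by simp at h1; omega
    simp [List.getD_eq_getElem?_getD, h3, h4]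

theorem prim_xorL : Primrec₂ xorL :=
  (list_map (f := fun q : List Bool × List Bool => List.range (min q.1.length q.2.length))
    (g := fun q i => xor (q.1.getD i false) (q.2.getD i false))
    (list_range.comp (nat_min.comp (list_length.comp fst) (list_length.comp snd)))
    ((dom_bool₂ xor).comp
      ((list_getD false).comp (fst.comp fst) snd)
      ((list_getD false).comp (snd.comp fst) snd)).to₂).of_eq fun q => (xorL_eq q.1 q.2).symm

theorem prim_zeroS : Primrec zeroS := prim_replicate false

def inL (L : List (List Bool)) (x : List Bool) : Bool := decide (x ∈ L)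

theorem prim_beqL : Primrec₂ fun a b : List Bool => a == b :=
  Primrec₂.of_eq Primrec.beq fun a b => by
    show decide (a = b) = (a == b)
    by_cases h : a = b <;> simp [h]

theorem prim_inL : Primrec₂ inL :=
  (prim_any (α := List (List Bool) × List Bool) (f := Prod.fst) (p := fun a y => y == a.2) fst
    (prim_beqL.comp snd (snd.comp fst)).to₂).of_eq fun a => by
      unfold inL
      rw [Bool.eq_iff_iff, List.any_eq_true, decide_eq_true_eq]
      constructor
      · rintro ⟨y, hy, h⟩
        rw [beq_iff_eq] at h
        exact h ▸ hy
      · intro h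
        exact ⟨a.2, h, by simp⟩

theorem prim_cellVal : Primrec fun q : List (List Bool) × List Bool × ℕ =>
    cellVal (inL q.1) q.2.1 q.2.2 :=
  (list_foldl (f := fun q : List (List Bool) × List Bool × ℕ => strs q.2.2)
    (g := fun q => zeroS q.2.2)
    (h := fun q r => bif inL q.1 (q.2.1 ++ r.2) then xorL r.1 r.2 else r.1)
    (prim_strs.comp (snd.comp snd)) (prim_zeroS.comp (snd.comp snd))
    (Primrec.cond (prim_inL.comp (fst.comp fst)
      (list_append.comp (fst.comp (snd.comp fst)) (snd.comp snd)))
      (prim_xorL.comp (fst.comp snd) (snd.comp snd)) (fst.comp snd)).to₂).of_eq fun q => by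
      unfold cellVal zeroS
      refine List.foldl_ext _ _ _ fun a b _ => ?_
      cases inL q.1 (q.2.1 ++ b) <;> rfl

theorem prim_shows : Primrec fun q : List (List Bool) × List Bool × ℕ × List Bool =>
    shows (inL q.1) q.2.1 q.2.2.1 q.2.2.2 :=
  prim_any (prim_strs.comp (fst.comp (snd.comp snd)))
    (prim_beqL.comp
      (prim_cellVal.comp (pair (fst.comp fst) (pair
        (list_append.comp (fst.comp (snd.comp fst)) snd) (fst.comp (snd.comp (snd.comp fst))))))
      (snd.comp (snd.comp (snd.comp fst)))).to₂

theorem prim_inc : Primrec inc :=
  (list_rec (f := fun l : List Bool => l) (g := fun _ => ([] : List Bool))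
    (h := fun _ q => bif q.1 then false :: q.2.2 else true :: q.2.1) Primrec.id (const [])
    (Primrec.cond (fst.comp snd)
      (list_cons.comp (const false) (snd.comp (snd.comp snd)))
      (list_cons.comp (const true) (fst.comp (snd.comp snd)))).to₂).of_eq fun l => by
      induction l with
      | nil => rfl
      | cons b l ih =>
        cases b
        · rfl
        · show false :: _ = _
          rw [inc]
          congr 1

theorem prim_idx : Primrec₂ idx :=
  (nat_iterate (f := fun q : ℕ × ℕ => q.2) (g := fun q => List.replicate (q.1 - 2) false)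
    (h := fun _ l => inc l) snd ((prim_replicate false).comp (nat_sub.comp fst (const 2)))
    (prim_inc.comp snd).to₂).of_eq fun _ => rfl

theorem prim_tag : Primrec fun q : ℕ × Bool × ℕ => tag q.1 q.2.1 q.2.2 :=
  (list_cons.comp (const true) (list_cons.comp (fst.comp snd)
    (prim_idx.comp fst (snd.comp snd)))).of_eq fun _ => rfl

theorem prim_haltTag : Primrec haltTag :=
  (list_cons.comp (const false) (list_cons.comp (const true)
    ((prim_replicate false).comp (nat_sub.comp Primrec.id (const 2))))).of_eq fun _ => rfl

theorem log_eq_findGreatest (j : ℕ) :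
    Nat.log 2 (j + 1) = Nat.findGreatest (fun k => 2 ^ k ≤ j + 1) (j + 1) := by
  symm
  rw [Nat.findGreatest_eq_iff]
  refine ⟨?_, fun _ => Nat.pow_log_le_self 2 (by omega), fun k hk _ h => ?_⟩
  · exact (Nat.log_lt_self 2 (by omega)).le
  · have := Nat.lt_pow_of_log_lt (by norm_num) hk
    omega

theorem prim_pow2 : Primrec fun k : ℕ => 2 ^ k :=
  (nat_rec₁ (f := fun _ m => 2 * m) 1 (nat_mul.comp (const 2) snd).to₂).of_eq fun k => by
    induction k with
    | zero => rfl
    | succ k ih =>
      show 2 * (Nat.rec 1 _ k) = _
      rw [ih, pow_succ, mul_comm]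

theorem prim_sz : Primrec sz := by
  have h : Primrec fun j : ℕ => Nat.findGreatest (fun k => 2 ^ k ≤ j + 1) (j + 1) :=
    nat_findGreatest (f := fun j : ℕ => j + 1) (p := fun j k => 2 ^ k ≤ j + 1) Primrec.succ
      (nat_le.comp (prim_pow2.comp snd) (Primrec.succ.comp fst))
  refine (nat_add.comp h (const 8)).of_eq fun j => ?_
  unfold sz
  rw [log_eq_findGreatest]

end Pool.Agent.LibRC
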