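import Mathlib
import Pool.Agent.LibRC.Comp

/-! Computability of addresses and potentials. -/

namespace Pool.Agent.LibRC

open Primrec

theorem addr_cons (Z : List Bool → Bool) (d : Bool) (u : List Bool) : addr Z (d :: u) =
    build (fun p => shows Z (addr Z u) (sz u.length) (tag (sz u.length) d p)) (d :: u) 0 [] := rfl

theorem addr_nil (Z : List Bool → Bool) : addr Z [] = [] := rfl

theorem HeavyC_iff (Z : List Bool → Bool) (j : ℕ) (a : List Bool) : HeavyC Z j a ↔
    2 ^ sz j * halfS j ≤ 2 * ((strs (sz j)).map fun c =>
      min (cellF Z (sz j) a c).card (halfS j)).sum := by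
  unfold HeavyC Heavy gsum
  rw [card_strF]
  have : ∑ c ∈ strF (sz j), min (cellF Z (sz j) a c).card (halfS j) =
    ((strs (sz j)).map fun c => min (cellF Z (sz j) a c).card (halfS j)).sum :=
    List.sum_toFinset _ (nodup_strs _)
  rw [this]

theorem card_filter_strF (n : ℕ) (p : List Bool → Bool) :
    ((strF n).filter fun x => p x = true).card = ((strs n).filter p).length := by
  have h1 : ((strF n).filter fun x => p x = true) = ((strs n).filter p).toFinset := by
    ext x
    rw [Finset.mem_filter, strF, List.mem_toFinset, List.mem_toFinset, List.mem_filter]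
  rw [h1, List.toFinset_card_of_nodup ((nodup_strs n).filter _)]

theorem sum_strF (n : ℕ) (f : List Bool → ℕ) : ∑ x ∈ strF n, f x = ((strs n).map f).sum :=
  List.sum_toFinset _ (nodup_strs n)

theorem phiC_eq (j : ℕ) (A : Finset (List Bool)) : phiC j A =
    min A.card (halfS j) + if valF (sz j) A = zeroS (sz j) then 0 else 2 := rfl

attribute [local irreducible] sz strs strF lenL halfS shows cellVal addr phiC HeavyC inL cellF

/-! ### addresses -/

def bitsL (L : List (List Bool)) (a : List Bool) (s : ℕ) (d : Bool) (n : ℕ) : List Bool :=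
  (List.range n).map fun p => shows (inL L) a s (tag s d p)

def buildL (xs u : List Bool) : List Bool :=
  (u.foldl (fun st b => (st.1 + 2, xs.getD (st.1 + 1) false :: xor (xs.getD st.1 false) b :: st.2))
    ((0, []) : ℕ × List Bool)).2

theorem buildL_aux (xs u : List Bool) (p : ℕ) (na : List Bool) :
    u.foldl (fun st b => (st.1 + 2, xs.getD (st.1 + 1) false :: xor (xs.getD st.1 false) b :: st.2))
    ((p, na) : ℕ × List Bool) = (p + 2 * u.length, build (fun p => xs.getD p false) u p na) := by
  induction u generalizing p na with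
  | nil => rfl
  | cons b u ih =>
    rw [List.foldl_cons, ih, build]
    simp only [List.length_cons, Prod.mk.injEq, and_true]
    ring

theorem addr_cons_eq (L : List (List Bool)) (d : Bool) (u : List Bool) :
    addr (inL L) (d :: u) =
      buildL (bitsL L (addr (inL L) u) (sz u.length) d (2 * (u.length + 1))) (d :: u) := by
  unfold buildL
  rw [buildL_aux, addr_cons]
  refine build_congr _ _ _ _ _ fun q _ hq => ?_
  rw [List.length_cons, zero_add] at hq
  unfold bitsL
  rw [List.getD_eq_getElem?_getD, List.getElem?_map, List.getElem?_range hq]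
  rfl

theorem prim_bitsL : Primrec fun q : (List (List Bool) × List Bool) × ℕ × Bool × ℕ =>
    bitsL q.1.1 q.1.2 q.2.1 q.2.2.1 q.2.2.2 :=
  list_map (list_range.comp (snd.comp (snd.comp snd)))
    (prim_shows.comp (pair (fst.comp (fst.comp fst)) (pair (snd.comp (fst.comp fst))
      (pair (fst.comp (snd.comp fst))
        (prim_tag.comp (pair (fst.comp (snd.comp fst))
          (pair (fst.comp (snd.comp (snd.comp fst))) snd))))))).to₂

theorem prim_buildL : Primrec₂ buildL := by
  have h : Primrec fun q : List Bool × List Bool =>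
      q.2.foldl (fun st b => (st.1 + 2,
        q.1.getD (st.1 + 1) false :: xor (q.1.getD st.1 false) b :: st.2))
        ((0, []) : ℕ × List Bool) :=
    list_foldl (h := fun (q : List Bool × List Bool) (r : (ℕ × List Bool) × Bool) =>
        ((r.1.1 + 2, q.1.getD (r.1.1 + 1) false :: xor (q.1.getD r.1.1 false) r.2 :: r.1.2) :
          ℕ × List Bool)) snd (const (0, []))
      (pair (nat_add.comp (fst.comp (fst.comp snd)) (const 2))
        (list_cons.comp
          ((list_getD false).comp (fst.comp fst) (nat_add.comp (fst.comp (fst.comp snd)) (const 1)))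
          (list_cons.comp
            ((dom_bool₂ xor).comp ((list_getD false).comp (fst.comp fst) (fst.comp (fst.comp snd)))
              (snd.comp snd))
            (snd.comp (fst.comp snd))))).to₂
  exact (snd.comp h).to₂

theorem prim_addr : Primrec fun q : List (List Bool) × List Bool => addr (inL q.1) q.2 :=
  (list_rec (f := fun q : List (List Bool) × List Bool => q.2) (g := fun _ => ([] : List Bool))
    (h := fun q r => buildL (bitsL q.1 r.2.2 (sz r.2.1.length) r.1 (2 * (r.2.1.length + 1)))
      (r.1 :: r.2.1)) snd (const [])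
    (prim_buildL.comp
      (prim_bitsL.comp (pair (pair (fst.comp fst) (snd.comp (snd.comp snd)))
        (pair (prim_sz.comp (list_length.comp (fst.comp (snd.comp snd))))
          (pair (fst.comp snd)
            (nat_mul.comp (const 2) (Primrec.succ.comp
              (list_length.comp (fst.comp (snd.comp snd)))))))))
      (list_cons.comp (fst.comp snd) (fst.comp (snd.comp snd)))).to₂).of_eq fun q => by
      obtain ⟨L, u⟩ := q
      induction u with
      | nil => exact (addr_nil _).symm
      | cons d u ih =>
        rw [addr_cons_eq]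
        simp only at ih ⊢
        rw [ih]

/-! ### counting -/

theorem prim_cnt {α : Type} [Primcodable α] {f : α → ℕ} {p : α → List Bool → Bool}
    (hf : Primrec f) (hp : Primrec₂ p) : Primrec fun a => cnt (p a) (f a) :=
  (list_length.comp (prim_filter (prim_strs.comp hf) hp)).of_eq fun a => by
    unfold cnt
    rw [card_filter_strF]

theorem prim_lenL : Primrec lenL :=
  (nat_add.comp (nat_mul.comp (const 2) Primrec.id) (nat_mul.comp (const 2) prim_sz)).of_eq
    fun j => by unfold lenL; rfl

theorem prim_halfS : Primrec halfS :=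
  (prim_pow2.comp (nat_sub.comp prim_sz (const 1))).of_eq fun j => by unfold halfS; rfl

theorem prim_cellCnt : Primrec fun q : List (List Bool) × ℕ × List Bool × List Bool =>
    (cellF (inL q.1) q.2.1 q.2.2.1 q.2.2.2).card :=
  (list_length.comp (prim_filter
    (f := fun q : List (List Bool) × ℕ × List Bool × List Bool => strs q.2.1)
    (p := fun q y => inL q.1 (q.2.2.1 ++ q.2.2.2 ++ y)) (prim_strs.comp (fst.comp snd))
    (prim_inL.comp (fst.comp fst) (list_append.comp
      (list_append.comp (fst.comp (snd.comp (snd.comp fst))) (snd.comp (snd.comp (snd.comp fst))))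
      snd)).to₂)).of_eq fun q => by
      unfold cellF
      rw [card_filter_strF]

theorem prim_phiC : Primrec fun q : List (List Bool) × ℕ × List Bool × List Bool =>
    phiC q.2.1 (cellF (inL q.1) (sz q.2.1) q.2.2.1 q.2.2.2) := by
  have h1 : Primrec fun q : List (List Bool) × ℕ × List Bool × List Bool =>
      (cellF (inL q.1) (sz q.2.1) q.2.2.1 q.2.2.2).card :=
    prim_cellCnt.comp (pair fst (pair (prim_sz.comp (fst.comp snd)) (snd.comp snd)))
  have h2 : Primrec fun q : List (List Bool) × ℕ × List Bool × List Bool =>
      cellVal (inL q.1) (q.2.2.1 ++ q.2.2.2) (sz q.2.1) :=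
    prim_cellVal.comp (pair fst (pair (list_append.comp (fst.comp (snd.comp snd))
      (snd.comp (snd.comp snd))) (prim_sz.comp (fst.comp snd))))
  refine (nat_add.comp (nat_min.comp h1 (prim_halfS.comp (fst.comp snd)))
    (Primrec.cond (prim_beqL.comp h2 (prim_zeroS.comp (prim_sz.comp (fst.comp snd))))
      (const 0) (const 2))).of_eq fun q => ?_
  rw [phiC_eq, cellVal_eq]
  congr 1
  by_cases h : valF (sz q.2.1) (cellF (inL q.1) (sz q.2.1) q.2.2.1 q.2.2.2) = zeroS (sz q.2.1)
  · simp [h]
  · have h' : (valF (sz q.2.1) (cellF (inL q.1) (sz q.2.1) q.2.2.1 q.2.2.2) ==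
      zeroS (sz q.2.1)) = false := by
      rw [Bool.eq_false_iff]
      intro h1
      exact h (beq_iff_eq.1 h1)
    rw [h', if_neg h]
    rfl

theorem prim_PhiC : Primrec fun q : List (List Bool) × ℕ => PhiC (inL q.1) q.2 := by
  have h1 : Primrec fun q : (List (List Bool) × ℕ) × List Bool =>
      ((strs (sz q.1.2)).map fun c => phiC q.1.2 (cellF (inL q.1.1) (sz q.1.2) q.2 c)).sum :=
    prim_sum (prim_strs.comp (prim_sz.comp (snd.comp fst)))
      (prim_phiC.comp (pair (fst.comp (fst.comp fst))
        (pair (snd.comp (fst.comp fst)) (pair (snd.comp fst) snd)))).to₂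
  refine (prim_sum (f := fun q : List (List Bool) × ℕ => strs (2 * q.2))
    (g := fun q a => ((strs (sz q.2)).map fun c =>
      phiC q.2 (cellF (inL q.1) (sz q.2) a c)).sum)
    (prim_strs.comp (nat_mul.comp (const 2) snd)) h1.to₂).of_eq fun q => ?_
  unfold PhiC
  rw [sum_strF]
  simp only [sum_strF]

theorem prim_HeavyC : Primrec fun q : List (List Bool) × ℕ × List Bool =>
    decide (HeavyC (inL q.1) q.2.1 q.2.2) := by
  have h1 : Primrec fun q : List (List Bool) × ℕ × List Bool =>
      ((strs (sz q.2.1)).map fun c =>
        min (cellF (inL q.1) (sz q.2.1) q.2.2 c).card (halfS q.2.1)).sum :=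
    prim_sum (prim_strs.comp (prim_sz.comp (fst.comp snd)))
      (nat_min.comp (prim_cellCnt.comp (pair (fst.comp fst)
        (pair (prim_sz.comp (fst.comp (snd.comp fst)))
          (pair (snd.comp (snd.comp fst)) snd))))
        (prim_halfS.comp (fst.comp (snd.comp fst)))).to₂
  have h2 : PrimrecPred fun q : List (List Bool) × ℕ × List Bool =>
      2 ^ sz q.2.1 * halfS q.2.1 ≤ 2 * ((strs (sz q.2.1)).map fun c =>
        min (cellF (inL q.1) (sz q.2.1) q.2.2 c).card (halfS q.2.1)).sum :=
    nat_le.comp (nat_mul.comp (prim_pow2.comp (prim_sz.comp (fst.comp snd)))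
      (prim_halfS.comp (fst.comp snd))) (nat_mul.comp (const 2) h1)
  refine h2.decide.of_eq fun q => ?_
  rw [Bool.eq_iff_iff, decide_eq_true_eq, decide_eq_true_eq, HeavyC_iff]

theorem prim_MvC : Primrec fun q : List (List Bool) × ℕ =>
    MvC (inL q.1) q.2 (addr (inL q.1)) := by
  have h1 : Primrec fun q : (List (List Bool) × ℕ) × List Bool =>
      (strs q.1.2).any fun u => addr (inL q.1.1) u == q.2 :=
    prim_any (prim_strs.comp (snd.comp fst))
      (prim_beqL.comp (prim_addr.comp (pair (fst.comp (fst.comp fst)) snd)) (snd.comp fst)).to₂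
  have h2 : Primrec fun q : (List (List Bool) × ℕ) × List Bool =>
      (decide (HeavyC (inL q.1.1) q.1.2 q.2) &&
        !((strs q.1.2).any fun u => addr (inL q.1.1) u == q.2)) :=
    Primrec.and.comp (prim_HeavyC.comp (pair (fst.comp fst) (pair (snd.comp fst) snd)))
      (Primrec.not.comp h1)
  refine (list_length.comp (prim_filter (f := fun q : List (List Bool) × ℕ => strs (2 * q.2))
    (p := fun q a => (decide (HeavyC (inL q.1) q.2 a) &&
        !((strs q.2).any fun u => addr (inL q.1) u == a)))
    (prim_strs.comp (nat_mul.comp (const 2) snd)) h2.to₂)).of_eq fun q => ?_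
  unfold MvC
  rw [← card_filter_strF]
  congr 1
  refine Finset.filter_congr fun a _ => ?_
  rw [Bool.and_eq_true, decide_eq_true_eq, Bool.not_eq_true', Bool.eq_false_iff, ne_eq,
    List.any_eq_true]
  refine and_congr_right fun _ => not_congr ?_
  constructor
  · rintro ⟨u, hu, h⟩
    exact Finset.mem_image.2 ⟨u, mem_strF.2 (mem_strs.1 hu), by simpa using h⟩
  · intro h
    obtain ⟨u, hu, h⟩ := Finset.mem_image.1 h
    exact ⟨u, mem_strs.2 (mem_strF.1 hu), by simpa using h⟩

end Pool.Agent.LibRC
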