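import Mathlib

/-! Universal machines, plain Kolmogorov complexity and the set of random strings. -/

namespace Pool.Agent.LibRC

/-- A universal machine: a partial computable function `U` on binary strings such that every
partial computable `M` satisfies `U (d ++ p) = M p` for some fixed string `d`. -/
def IsUniversal (U : List Bool →. List Bool) : Prop :=
  Partrec U ∧ ∀ M : List Bool →. List Bool, Partrec M → ∃ d : List Bool, ∀ p, U (d ++ p) = M p

/-- plain Kolmogorov complexity relative to `U` -/
noncomputable def KC (U : List Bool →. List Bool) (x : List Bool) : ℕ :=
  sInf {n | ∃ p : List Bool, p.length = n ∧ x ∈ U p}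

/-- the set of `C_U`-random strings -/
def RandC (U : List Bool →. List Bool) : Set (List Bool) := {x | x.length ≤ KC U x}

end Pool.Agent.LibRC
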