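import Mathlib
import Pool.Agent.LibRC.Comp2

/-! A stage-bounded universal machine and the adversary's sets. -/

namespace Pool.Agent.LibRC

open Primrec Nat.Partrec

/-- split `1^e 0 r` into `(e, r)` -/
def parse (p : List Bool) : Option (ℕ × List Bool) :=
  if (p.takeWhile id).length < p.length then
    some ((p.takeWhile id).length, p.drop ((p.takeWhile id).length + 1))
  else none

theorem prim_takeWhile_id : Primrec fun p : List Bool => (p.takeWhile id).length :=
  (list_rec (f := fun l : List Bool => l) (g := fun _ => (0 : ℕ))
    (h := fun _ q => bif q.1 then q.2.2 + 1 else 0) Primrec.id (const 0)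
    (Primrec.cond (fst.comp snd) (Primrec.succ.comp (snd.comp (snd.comp snd)))
      (const 0)).to₂).of_eq fun l => by
      induction l with
      | nil => rfl
      | cons b l ih =>
        cases b
        · rfl
        · show (List.recOn l _ _ : ℕ) + 1 = _
          simp only [List.takeWhile_cons, id, if_true, List.length_cons]
          rw [← ih]

theorem prim_parse : Primrec parse :=
  Primrec.ite (nat_lt.comp prim_takeWhile_id list_length)
    (option_some.comp (pair prim_takeWhile_id
      (list_drop.comp (Primrec.succ.comp prim_takeWhile_id) Primrec.id))) (const none)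

theorem parse_append (e : ℕ) (r : List Bool) :
    parse (List.replicate e true ++ false :: r) = some (e, r) := by
  have h : ((List.replicate e true ++ false :: r).takeWhile id).length = e := by
    induction e with
    | zero => rfl
    | succ e ih =>
      rw [List.replicate_succ, List.cons_append, List.takeWhile_cons]
      simp only [id, if_true, List.length_cons]
      rw [ih]
  unfold parse
  rw [h, if_pos (by simp)]
  congr 2
  rw [← List.drop_drop, List.drop_left' (by simp)]
  rfl

/-- stage `n` of the universal machine -/
def Vn (n : ℕ) (p : List Bool) : Option (List Bool) :=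
  (parse p).bind fun q => (Code.evaln n (Denumerable.ofNat Code q.1) (Encodable.encode q.2)).bind
    fun m => (Encodable.decode m : Option (List Bool))

theorem prim_Vn : Primrec₂ Vn := by
  have h1 : Primrec fun a : (ℕ × List Bool) × (ℕ × List Bool) =>
      Code.evaln a.1.1 (Denumerable.ofNat Code a.2.1) (Encodable.encode a.2.2) :=
    (Code.primrec_evaln).comp (pair (pair (fst.comp fst) ((Primrec.ofNat Code).comp
      (fst.comp snd))) (Primrec.encode.comp (snd.comp snd)))
  have h2 : Primrec fun a : (ℕ × List Bool) × (ℕ × List Bool) =>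
      (Code.evaln a.1.1 (Denumerable.ofNat Code a.2.1) (Encodable.encode a.2.2)).bind
        fun m => (Encodable.decode m : Option (List Bool)) :=
    option_bind h1 (Primrec.decode.comp snd).to₂
  exact (option_bind (prim_parse.comp snd) h2.to₂).to₂

theorem Vn_mono {n m : ℕ} (h : n ≤ m) {p x : List Bool} (hx : Vn n p = some x) :
    Vn m p = some x := by
  unfold Vn at *
  rw [Option.bind_eq_some_iff] at hx ⊢
  obtain ⟨q, hq, hx⟩ := hx
  refine ⟨q, hq, ?_⟩
  rw [Option.bind_eq_some_iff] at hx ⊢
  obtain ⟨k, hk, hx⟩ := hx
  exact ⟨k, Code.evaln_mono h hk, hx⟩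

/-- the program prefix of a partial computable function -/
theorem Vn_univ (M : List Bool →. List Bool) (hM : Partrec M) :
    ∃ d : List Bool, ∀ p x, x ∈ M p ↔ ∃ n, Vn n (d ++ p) = some x := by
  obtain ⟨c, hc⟩ := Code.exists_code.1 hM
  refine ⟨List.replicate (Encodable.encode c) true ++ [false], fun p x => ?_⟩
  have h1 : ∀ n, Vn n (List.replicate (Encodable.encode c) true ++ [false] ++ p) =
      (Code.evaln n c (Encodable.encode p)).bind
        fun m => (Encodable.decode m : Option (List Bool)) := by
    intro n
    unfold Vn
    rw [List.append_assoc, List.cons_append, List.nil_append, parse_append]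
    simp
  have h2 : Code.eval c (Encodable.encode p) = (M p).map Encodable.encode := by
    rw [hc]
    simp
  constructor
  · intro hx
    have h3 : Encodable.encode x ∈ Code.eval c (Encodable.encode p) := by
      rw [h2]
      exact Part.mem_map _ hx
    obtain ⟨n, hn⟩ := Code.evaln_complete.1 h3
    refine ⟨n, ?_⟩
    rw [h1, Option.bind_eq_some_iff]
    exact ⟨_, hn, Encodable.encodek x⟩
  · rintro ⟨n, hn⟩
    rw [h1, Option.bind_eq_some_iff] at hn
    obtain ⟨m, hm, hx⟩ := hn
    have h3 := Code.evaln_sound hm
    rw [h2] at h3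
    obtain ⟨y, hy, rfl⟩ := (Part.mem_map_iff _).1 h3
    rw [Encodable.encodek] at hx
    cases hx
    exact hy

/-- strings removed by the adversary at stage `n` -/
def advA (n : ℕ) (x : List Bool) : Bool :=
  ((List.range (n + 1)).any fun j => x.length == lenL j) &&
    ((List.range x.length).any fun l => decide (l + 8 < x.length) &&
      (strs l).any fun r => decide (Vn n r = some x))

theorem advA_iff (n : ℕ) (x : List Bool) : advA n x = true ↔
    (∃ j ≤ n, x.length = lenL j) ∧ ∃ r : List Bool, r.length + 8 < x.length ∧ Vn n r = some x := by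
  unfold advA
  rw [Bool.and_eq_true, List.any_eq_true, List.any_eq_true]
  refine and_congr ?_ ?_
  · constructor
    · rintro ⟨j, hj, h⟩
      exact ⟨j, by have := List.mem_range.1 hj; omega, by simpa using h⟩
    · rintro ⟨j, hj, h⟩
      exact ⟨j, List.mem_range.2 (by omega), by simpa using h⟩
  · constructor
    · rintro ⟨l, hl, h⟩
      rw [Bool.and_eq_true, List.any_eq_true, decide_eq_true_eq] at h
      obtain ⟨h1, r, hr, h2⟩ := h
      rw [mem_strs] at hr
      exact ⟨r, by rw [hr]; exact h1, by simpa using h2⟩
    · rintro ⟨r, h1, h2⟩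
      refine ⟨r.length, List.mem_range.2 (by omega), ?_⟩
      rw [Bool.and_eq_true, List.any_eq_true, decide_eq_true_eq]
      exact ⟨h1, r, mem_strs.2 rfl, by simpa using h2⟩

theorem advA_mono {n m : ℕ} (h : n ≤ m) (x : List Bool) (hx : advA n x = true) :
    advA m x = true := by
  rw [advA_iff] at *
  obtain ⟨⟨j, hj, h1⟩, r, h2, h3⟩ := hx
  exact ⟨⟨j, by omega, h1⟩, r, h2, Vn_mono h h3⟩

theorem card_short (m : ℕ) : ((Finset.range m).biUnion strF).card < 2 ^ m := by
  refine lt_of_le_of_lt Finset.card_biUnion_le ?_
  induction m with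
  | zero => simp
  | succ m ih =>
    rw [Finset.sum_range_succ, card_strF, pow_succ]
    omega

theorem advA_count (n j : ℕ) : 256 * cnt (advA n) (lenL j) ≤ 2 ^ lenL j := by
  have h16 : 16 ≤ lenL j := by
    have := sz_ge j
    unfold lenL; omega
  have h1 : cnt (advA n) (lenL j) ≤ 2 ^ (lenL j - 8) := by
    refine le_trans ?_ (card_short (lenL j - 8)).le
    have key : ∀ x ∈ (strF (lenL j)).filter (fun x => advA n x = true),
        ∃ r ∈ (Finset.range (lenL j - 8)).biUnion strF, Vn n r = some x := by
      intro x hx
      obtain ⟨h1, h2⟩ := Finset.mem_filter.1 hx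
      rw [advA_iff] at h2
      obtain ⟨_, r, h3, h4⟩ := h2
      refine ⟨r, ?_, h4⟩
      rw [mem_strF.1 h1] at h3
      exact Finset.mem_biUnion.2 ⟨r.length, Finset.mem_range.2 (by omega), mem_strF.2 rfl⟩
    choose! f hf1 hf2 using key
    refine Finset.card_le_card_of_injOn f hf1 ?_
    intro x hx y hy hxy
    have e1 := hf2 x hx
    have e2 := hf2 y hy
    rw [hxy, e2] at e1
    exact (Option.some.inj e1).symm
  calc 256 * cnt (advA n) (lenL j) ≤ 256 * 2 ^ (lenL j - 8) := Nat.mul_le_mul_left _ h1
    _ = 2 ^ lenL j := by
      rw [show (256 : ℕ) = 2 ^ 8 by norm_num, ← pow_add]; congr 1; omega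

theorem prim_advA : Primrec₂ advA := by
  have h1 : Primrec fun q : ℕ × List Bool =>
      (List.range (q.1 + 1)).any fun j => q.2.length == lenL j := by
    refine prim_any (list_range.comp (Primrec.succ.comp fst)) ?_
    have : Primrec fun r : (ℕ × List Bool) × ℕ => decide (r.1.2.length = lenL r.2) :=
      (Primrec.eq.comp (list_length.comp (snd.comp fst)) (prim_lenL.comp snd)).decide
    have h' : Primrec fun r : (ℕ × List Bool) × ℕ => (r.1.2.length == lenL r.2) :=
      this.of_eq fun r => by by_cases h : r.1.2.length = lenL r.2 <;> simp [h]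
    exact h'.to₂
  have h2 : Primrec fun q : (ℕ × List Bool) × ℕ =>
      (strs q.2).any fun r => decide (Vn q.1.1 r = some q.1.2) := by
    refine prim_any (prim_strs.comp snd) ?_
    have : Primrec fun r : ((ℕ × List Bool) × ℕ) × List Bool =>
        decide (Vn r.1.1.1 r.2 = some r.1.1.2) :=
      (Primrec.eq.comp (prim_Vn.comp (fst.comp (fst.comp fst)) snd)
        (option_some.comp (snd.comp (fst.comp fst)))).decide
    exact this.to₂
  have h3 : Primrec fun q : ℕ × List Bool =>
      (List.range q.2.length).any fun l => decide (l + 8 < q.2.length) &&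
        (strs l).any fun r => decide (Vn q.1 r = some q.2) := by
    refine prim_any (list_range.comp (list_length.comp snd)) ?_
    have : Primrec fun r : (ℕ × List Bool) × ℕ => decide (r.2 + 8 < r.1.2.length) :=
      (nat_lt.comp (nat_add.comp snd (const 8)) (list_length.comp (snd.comp fst))).decide
    exact (Primrec.and.comp this h2).to₂
  exact (Primrec.and.comp h1 h3).to₂

end Pool.Agent.LibRC
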