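import Mathlib
import Pool.Agent.LibRC.Univ

/-! The construction by stages. -/

namespace Pool.Agent.LibRC

open Primrec Nat.Partrec

/-- stage `n` of the enumeration of the r.e. set with code `cH`; the argument is the reversed
name -/
def hB (cH : Code) (n : ℕ) (u : List Bool) : Bool :=
  decide (u.length ≤ n) && (Code.evaln n cH (Encodable.encode u.reverse)).isSome

theorem prim_hB (cH : Code) : Primrec₂ (hB cH) := by
  have h1 : Primrec fun q : ℕ × List Bool => decide (q.2.length ≤ q.1) :=
    (nat_le.comp (list_length.comp snd) fst).decide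
  have h2 : Primrec fun q : ℕ × List Bool =>
      (Code.evaln q.1 cH (Encodable.encode q.2.reverse)).isSome :=
    option_isSome.comp (Code.primrec_evaln.comp (pair (pair fst (const cH))
      (Primrec.encode.comp (list_reverse.comp snd))))
  exact (Primrec.and.comp h1 h2).to₂

theorem hB_mono (cH : Code) {n m : ℕ} (h : n ≤ m) (u : List Bool) (hu : hB cH n u = true) :
    hB cH m u = true := by
  unfold hB at *
  rw [Bool.and_eq_true, decide_eq_true_eq, Option.isSome_iff_exists] at *
  obtain ⟨h1, k, hk⟩ := hu
  exact ⟨by omega, k, Code.evaln_mono h hk⟩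

theorem hB_len (cH : Code) (n : ℕ) (u : List Bool) (hu : hB cH n u = true) : u.length ≤ n := by
  unfold hB at hu
  rw [Bool.and_eq_true, decide_eq_true_eq] at hu
  exact hu.1

theorem hB_zero (cH : Code) (u : List Bool) : hB cH 0 u = false := by
  unfold hB
  simp [Code.evaln]

theorem advA_zero (x : List Bool) : advA 0 x = false := by
  rw [Bool.eq_false_iff, ne_eq, advA_iff]
  rintro ⟨_, r, _, h⟩
  unfold Vn at h
  rw [Option.bind_eq_some_iff] at h
  obtain ⟨q, _, h⟩ := h
  simp [Code.evaln] at h

/-- the decidable form of the invariant together with the absence of repetitions -/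
def checkB (cH : Code) (n : ℕ) (G : List (List Bool)) : Bool :=
  (G.all fun x => decide ((G.filter fun y => y == x).length ≤ 1)) &&
  ((G.all fun x => (List.range (n + 1)).any fun j => decide (x.length = lenL j)) &&
  (((List.range (n + 1)).all fun j => (strs (lenL j)).all fun x => !advA n x || inL G x) &&
  (((List.range (n + 2)).all fun j => (strs j).all fun u => (strs j).all fun v =>
    !(addr (inL G) u == addr (inL G) v) || (u == v)) &&
  (((List.range (n + 1)).all fun j => (strs j).all fun u =>
    (shows (inL G) (addr (inL G) u) (sz j) (haltTag (sz j)) == hB cH n u)) &&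
  ((List.range (n + 1)).all fun j => decide (PhiC (inL G) j ≤ 7 * cnt (advA n) (lenL j) +
    4 * (2 * (j + 1) * MvC (inL G) (j + 1) (addr (inL G)) + cnt (hB cH n) j) +
      4 * (4 * j + 5) * MvC (inL G) j (addr (inL G))))))))

theorem checkB_iff (cH : Code) (n : ℕ) (G : List (List Bool)) :
    checkB cH n G = true ↔ G.Nodup ∧ Inv n (advA n) (hB cH n) (inL G) := by
  have hin : ∀ x, inL G x = true ↔ x ∈ G := by intro x; unfold inL; simp
  unfold checkB
  rw [Bool.and_eq_true, Bool.and_eq_true, Bool.and_eq_true, Bool.and_eq_true, Bool.and_eq_true]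
  simp only [List.all_eq_true, List.any_eq_true, decide_eq_true_eq, Bool.or_eq_true,
    Bool.not_eq_true', beq_iff_eq, beq_eq_false_iff_ne, ne_eq]
  constructor
  · rintro ⟨h0, h1, h2, h3, h4, h5⟩
    refine ⟨?_, ?_, ?_, ?_, ?_, ?_, ?_⟩
    · rw [List.nodup_iff_count_le_one]
      intro x
      by_cases hx : x ∈ G
      · have := h0 x hx
        rwa [List.count_eq_length_filter]
      · rw [List.count_eq_zero_of_not_mem hx]; omega
    · intro x hx
      obtain ⟨j, hj, h⟩ := h1 x ((hin x).1 hx)
      exact ⟨j, by have := List.mem_range.1 hj; omega, h⟩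
    · intro x hx
      obtain ⟨⟨j, hj, hxj⟩, _⟩ := (advA_iff n x).1 hx
      rcases h2 j (List.mem_range.2 (by omega)) x (mem_strs.2 hxj) with h | h
      · rw [h] at hx; exact absurd hx (by simp)
      · exact h
    · exact hB_len cH n
    · intro j hj u hu v hv huv
      rcases h3 j (List.mem_range.2 (by omega)) u (mem_strs.2 (mem_strF.1 hu)) v
        (mem_strs.2 (mem_strF.1 hv)) with h | h
      · exact absurd huv h
      · exact h
    · intro u hu
      have := h4 u.length (List.mem_range.2 (by omega)) u (mem_strs.2 rfl)
      rw [this]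
    · intro j hj
      exact h5 j (List.mem_range.2 (by omega))
  · rintro ⟨h0, h⟩
    refine ⟨?_, ?_, ?_, ?_, ?_, ?_⟩
    · intro x _
      have := List.nodup_iff_count_le_one.1 h0 x
      rwa [List.count_eq_length_filter] at this
    · intro x hx
      obtain ⟨j, hj, h1⟩ := h.lens x ((hin x).2 hx)
      exact ⟨j, List.mem_range.2 (by omega), h1⟩
    · intro j _ x _
      by_cases hx : advA n x = true
      · exact Or.inr (h.adv x hx)
      · exact Or.inl (by simpa using hx)
    · intro j hj u hu v hv
      by_cases huv : addr (inL G) u = addr (inL G) v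
      · right
        have := List.mem_range.1 hj
        exact h.inj j (by omega) (mem_strF.2 (mem_strs.1 hu)) (mem_strF.2 (mem_strs.1 hv)) huv
      · exact Or.inl huv
    · intro j hj u hu
      have h1 := List.mem_range.1 hj
      have h2 := mem_strs.1 hu
      have := h.hlt u (by omega)
      rw [h2] at this
      exact Bool.eq_iff_iff.2 this
    · intro j hj
      have h1 := List.mem_range.1 hj
      exact h.pot j (by omega)

section

attribute [local irreducible] sz strs strF lenL halfS shows cellVal addr phiC HeavyC inL cellF
  PhiC MvC cnt advA hB haltTag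

theorem prim_checkB (cH : Code) : Primrec₂ (checkB cH) := by
  have hn : Primrec fun q : ℕ × List (List Bool) => List.range (q.1 + 1) :=
    list_range.comp (Primrec.succ.comp fst)
  have c0 : Primrec fun q : ℕ × List (List Bool) =>
      q.2.all fun x => decide ((q.2.filter fun y => y == x).length ≤ 1) := by
    refine prim_all snd ?_
    have : Primrec fun r : (ℕ × List (List Bool)) × List Bool =>
        r.1.2.filter fun y => y == r.2 :=
      prim_filter (snd.comp fst) (prim_beqL.comp snd (snd.comp fst)).to₂
    exact ((nat_le.comp (list_length.comp this) (const 1)).decide).to₂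
  have c1 : Primrec fun q : ℕ × List (List Bool) =>
      q.2.all fun x => (List.range (q.1 + 1)).any fun j => decide (x.length = lenL j) := by
    refine prim_all snd ?_
    have : Primrec fun r : (ℕ × List (List Bool)) × List Bool =>
        (List.range (r.1.1 + 1)).any fun j => decide (r.2.length = lenL j) :=
      prim_any (hn.comp fst)
        ((Primrec.eq.comp (list_length.comp (snd.comp fst)) (prim_lenL.comp snd)).decide).to₂
    exact this.to₂
  have c2 : Primrec fun q : ℕ × List (List Bool) => (List.range (q.1 + 1)).all fun j =>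
      (strs (lenL j)).all fun x => !advA q.1 x || inL q.2 x := by
    refine prim_all hn ?_
    have : Primrec fun r : (ℕ × List (List Bool)) × ℕ =>
        (strs (lenL r.2)).all fun x => !advA r.1.1 x || inL r.1.2 x :=
      prim_all (prim_strs.comp (prim_lenL.comp snd))
        (Primrec.or.comp (Primrec.not.comp (prim_advA.comp (fst.comp (fst.comp fst)) snd))
          (prim_inL.comp (snd.comp (fst.comp fst)) snd)).to₂
    exact this.to₂
  have c3 : Primrec fun q : ℕ × List (List Bool) => (List.range (q.1 + 2)).all fun j =>
      (strs j).all fun u => (strs j).all fun v =>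
        !(addr (inL q.2) u == addr (inL q.2) v) || (u == v) := by
    refine prim_all (list_range.comp (nat_add.comp fst (const 2))) ?_
    have : Primrec fun r : (ℕ × List (List Bool)) × ℕ => (strs r.2).all fun u =>
        (strs r.2).all fun v => !(addr (inL r.1.2) u == addr (inL r.1.2) v) || (u == v) := by
      refine prim_all (prim_strs.comp snd) ?_
      have : Primrec fun t : ((ℕ × List (List Bool)) × ℕ) × List Bool =>
          (strs t.1.2).all fun v =>
            !(addr (inL t.1.1.2) t.2 == addr (inL t.1.1.2) v) || (t.2 == v) := by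
        refine prim_all (prim_strs.comp (snd.comp fst)) ?_
        exact (Primrec.or.comp (Primrec.not.comp (prim_beqL.comp
          (prim_addr.comp (pair (snd.comp (fst.comp (fst.comp fst))) (snd.comp fst)))
          (prim_addr.comp (pair (snd.comp (fst.comp (fst.comp fst))) snd))))
          (prim_beqL.comp (snd.comp fst) snd)).to₂
      exact this.to₂
    exact this.to₂
  have c4 : Primrec fun q : ℕ × List (List Bool) => (List.range (q.1 + 1)).all fun j =>
      (strs j).all fun u =>
        (shows (inL q.2) (addr (inL q.2) u) (sz j) (haltTag (sz j)) == hB cH q.1 u) := by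
    refine prim_all hn ?_
    have : Primrec fun r : (ℕ × List (List Bool)) × ℕ => (strs r.2).all fun u =>
        (shows (inL r.1.2) (addr (inL r.1.2) u) (sz r.2) (haltTag (sz r.2)) ==
          hB cH r.1.1 u) := by
      refine prim_all (prim_strs.comp snd) ?_
      have h1 : Primrec fun t : ((ℕ × List (List Bool)) × ℕ) × List Bool =>
          shows (inL t.1.1.2) (addr (inL t.1.1.2) t.2) (sz t.1.2) (haltTag (sz t.1.2)) :=
        prim_shows.comp (pair (snd.comp (fst.comp fst)) (pair
          (prim_addr.comp (pair (snd.comp (fst.comp fst)) snd))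
          (pair (prim_sz.comp (snd.comp fst)) (prim_haltTag.comp (prim_sz.comp (snd.comp fst))))))
      have h2 : Primrec fun t : ((ℕ × List (List Bool)) × ℕ) × List Bool =>
          hB cH t.1.1.1 t.2 := (prim_hB cH).comp (fst.comp (fst.comp fst)) snd
      exact ((dom_bool₂ (fun a b => a == b)).comp h1 h2).to₂
    exact this.to₂
  have c5 : Primrec fun q : ℕ × List (List Bool) => (List.range (q.1 + 1)).all fun j =>
      decide (PhiC (inL q.2) j ≤ 7 * cnt (advA q.1) (lenL j) +
        4 * (2 * (j + 1) * MvC (inL q.2) (j + 1) (addr (inL q.2)) + cnt (hB cH q.1) j) +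
          4 * (4 * j + 5) * MvC (inL q.2) j (addr (inL q.2))) := by
    refine prim_all hn ?_
    have g1 : Primrec fun r : (ℕ × List (List Bool)) × ℕ => PhiC (inL r.1.2) r.2 :=
      prim_PhiC.comp (pair (snd.comp fst) snd)
    have g2 : Primrec fun r : (ℕ × List (List Bool)) × ℕ => cnt (advA r.1.1) (lenL r.2) :=
      prim_cnt (prim_lenL.comp snd) (prim_advA.comp (fst.comp (fst.comp fst)) snd).to₂
    have g3 : Primrec fun r : (ℕ × List (List Bool)) × ℕ =>
        MvC (inL r.1.2) (r.2 + 1) (addr (inL r.1.2)) :=
      prim_MvC.comp (pair (snd.comp fst) (Primrec.succ.comp snd))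
    have g4 : Primrec fun r : (ℕ × List (List Bool)) × ℕ => cnt (hB cH r.1.1) r.2 :=
      prim_cnt snd ((prim_hB cH).comp (fst.comp (fst.comp fst)) snd).to₂
    have g5 : Primrec fun r : (ℕ × List (List Bool)) × ℕ =>
        MvC (inL r.1.2) r.2 (addr (inL r.1.2)) :=
      prim_MvC.comp (pair (snd.comp fst) snd)
    exact ((nat_le.comp g1 (nat_add.comp (nat_add.comp (nat_mul.comp (const 7) g2)
      (nat_mul.comp (const 4) (nat_add.comp (nat_mul.comp (nat_mul.comp (const 2)
        (nat_add.comp snd (const 1))) g3) g4)))
      (nat_mul.comp (nat_mul.comp (const 4) (nat_add.comp (nat_mul.comp (const 4) snd)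
        (const 5))) g5))).decide).to₂
  exact (Primrec.and.comp c0 (Primrec.and.comp c1 (Primrec.and.comp c2 (Primrec.and.comp c3
    (Primrec.and.comp c4 c5))))).to₂

end

end Pool.Agent.LibRC
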