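import Mathlib
import Pool.Agent.LibRC.Stage
import Pool.Agent.LibRC.Defs

/-! The universal machine. -/

namespace Pool.Agent.LibRC

open Nat.Partrec

theorem not_mem_RandC {U : List Bool →. List Bool} (hU : IsUniversal U) (x : List Bool) :
    x ∉ RandC U ↔ ∃ p : List Bool, p.length < x.length ∧ x ∈ U p := by
  have hne : {n | ∃ p : List Bool, p.length = n ∧ x ∈ U p}.Nonempty := by
    obtain ⟨d, hd⟩ := hU.2 (fun _ => Part.some x) (Computable.const x).partrec
    exact ⟨(d ++ []).length, d ++ [], rfl, by rw [hd]; exact Part.mem_some x⟩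
  unfold RandC KC
  show ¬ (x.length ≤ _) ↔ _
  rw [not_le]
  constructor
  · intro h
    obtain ⟨p, h1, h2⟩ := Nat.sInf_mem hne
    exact ⟨p, by rw [h1]; exact h, h2⟩
  · rintro ⟨p, h1, h2⟩
    exact lt_of_le_of_lt (Nat.sInf_le ⟨p, rfl, h2⟩) h1

section

variable (cH : Code)

def decF (m : ℕ) : List (List Bool) := (Encodable.decode m : Option (List (List Bool))).getD []

theorem decF_encode (F : List (List Bool)) : decF (Encodable.encode F) = F := by
  unfold decF; rw [Encodable.encodek]; rfl

theorem prim_decF : Primrec decF := Primrec.option_getD.comp Primrec.decode (Primrec.const [])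

theorem next_exists (n : ℕ) (G : List (List Bool)) (h : checkB cH n G = true) :
    ∃ m, checkB cH (n + 1) (G ++ decF m) = true := by
  obtain ⟨hnd, hI⟩ := (checkB_iff cH n G).1 h
  obtain ⟨Z', hZ, hI'⟩ := hI.step (Nat.le_succ n) (advA_mono (Nat.le_succ n))
    (hB_mono cH (Nat.le_succ n)) (fun x hx => by
      obtain ⟨h1, _⟩ := (advA_iff (n + 1) x).1 hx
      exact h1) (hB_len cH (n + 1)) (advA_count (n + 1))
  classical
  set F := (((Finset.range (n + 2)).biUnion fun j => strF (lenL j)).filter
    fun x => Z' x = true ∧ x ∉ G).toList with hF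
  have hFm : ∀ x, x ∈ F ↔ Z' x = true ∧ x ∉ G := by
    intro x
    rw [hF, Finset.mem_toList, Finset.mem_filter]
    refine ⟨fun h => h.2, fun h => ⟨?_, h⟩⟩
    obtain ⟨j, hj, h1⟩ := hI'.lens x h.1
    exact Finset.mem_biUnion.2 ⟨j, Finset.mem_range.2 (by omega), mem_strF.2 h1⟩
  have hin : inL (G ++ F) = Z' := by
    funext x
    rw [Bool.eq_iff_iff]
    unfold inL
    rw [decide_eq_true_eq, List.mem_append, hFm]
    constructor
    · rintro (h1 | h1)
      · exact hZ x (by unfold inL; simpa using h1)
      · exact h1.1
    · intro h1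
      by_cases hx : x ∈ G
      · exact Or.inl hx
      · exact Or.inr ⟨h1, hx⟩
  refine ⟨Encodable.encode F, ?_⟩
  rw [decF_encode, checkB_iff, hin]
  refine ⟨?_, hI'⟩
  rw [List.nodup_append]
  refine ⟨hnd, Finset.nodup_toList _, ?_⟩
  intro a ha b hb hab
  exact ((hFm b).1 hb).2 (hab ▸ ha)

/-- the process as a partial function -/
noncomputable def stP (n : ℕ) : Part (List (List Bool)) :=
  Nat.rec (Part.some []) (fun n IH => IH.bind fun L =>
    (Nat.rfind fun m => Part.some (checkB cH (n + 1) (L ++ decF m))).map fun m => L ++ decF m) n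

theorem partrec_stP : Partrec (stP cH) := by
  have h1 : Primrec₂ fun (q : ℕ × List (List Bool)) (m : ℕ) =>
      checkB cH (q.1 + 1) (q.2 ++ decF m) :=
    (prim_checkB cH).comp (Primrec.succ.comp (Primrec.fst.comp Primrec.fst))
      (Primrec.list_append.comp (Primrec.snd.comp Primrec.fst) (prim_decF.comp Primrec.snd))
  have h2 : Partrec fun q : ℕ × List (List Bool) =>
      Nat.rfind fun m => Part.some (checkB cH (q.1 + 1) (q.2 ++ decF m)) :=
    Partrec.rfind (p := fun (q : ℕ × List (List Bool)) (m : ℕ) =>
      Part.some (checkB cH (q.1 + 1) (q.2 ++ decF m))) h1.to_comp.partrec₂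
  have h3 : Partrec fun q : ℕ × List (List Bool) =>
      (Nat.rfind fun m => Part.some (checkB cH (q.1 + 1) (q.2 ++ decF m))).map
        fun m => q.2 ++ decF m :=
    h2.map (Primrec.list_append.comp (Primrec.snd.comp Primrec.fst)
      (prim_decF.comp Primrec.snd)).to_comp.to₂
  have h4 := Partrec.nat_rec (f := fun n : ℕ => n) (g := fun _ => Part.some ([] : List (List Bool)))
    (h := fun (_ : ℕ) (q : ℕ × List (List Bool)) =>
      (Nat.rfind fun m => Part.some (checkB cH (q.1 + 1) (q.2 ++ decF m))).map
        fun m => q.2 ++ decF m) Computable.id (Computable.const []).partrec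
    (h3.comp Computable.snd).to₂
  exact h4

theorem stP_zero : stP cH 0 = Part.some [] := rfl

theorem stP_succ (n : ℕ) : stP cH (n + 1) = (stP cH n).bind fun L =>
    (Nat.rfind fun m => Part.some (checkB cH (n + 1) (L ++ decF m))).map fun m => L ++ decF m :=
  rfl

theorem check_zero : checkB cH 0 [] = true := by
  rw [checkB_iff]
  refine ⟨List.nodup_nil, ?_⟩
  have e1 : advA 0 = fun _ => false := by funext x; exact advA_zero x
  have e2 : inL [] = fun _ => false := by funext x; unfold inL; simp
  rw [e1, e2]
  exact Inv.zero _ (hB_zero cH)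

theorem stP_spec (n : ℕ) : ∃ L, stP cH n = Part.some L ∧ checkB cH n L = true := by
  induction n with
  | zero => exact ⟨[], stP_zero cH, check_zero cH⟩
  | succ n ih =>
    obtain ⟨L, h1, h2⟩ := ih
    obtain ⟨m, hm⟩ := next_exists cH n L h2
    obtain ⟨k, hk, _⟩ := Nat.rfind_min' (p := fun m => checkB cH (n + 1) (L ++ decF m)) hm
    refine ⟨L ++ decF k, ?_, ?_⟩
    · rw [stP_succ, h1, Part.bind_some, Part.eq_some_iff]
      exact Part.mem_map _ hk
    · have := Nat.rfind_spec hk
      exact (Part.mem_some_iff.1 this).symm

noncomputable def stL (n : ℕ) : List (List Bool) := (stP_spec cH n).choose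

theorem stL_eq (n : ℕ) : stP cH n = Part.some (stL cH n) := (stP_spec cH n).choose_spec.1

theorem stL_check (n : ℕ) : checkB cH n (stL cH n) = true := (stP_spec cH n).choose_spec.2

theorem comp_stL : Computable (stL cH) :=
  (partrec_stP cH).of_eq fun n => stL_eq cH n

theorem stL_prefix_succ (n : ℕ) : stL cH n <+: stL cH (n + 1) := by
  have h := stL_eq cH (n + 1)
  rw [stP_succ, stL_eq cH n, Part.bind_some, Part.eq_some_iff, Part.mem_map_iff] at h
  obtain ⟨m, _, h⟩ := h
  exact ⟨decF m, h⟩

theorem stL_prefix {n m : ℕ} (h : n ≤ m) : stL cH n <+: stL cH m := by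
  induction m, h using Nat.le_induction with
  | base => exact List.prefix_refl _
  | succ m _ ih => exact ih.trans (stL_prefix_succ cH m)

theorem stL_inv (n : ℕ) : (stL cH n).Nodup ∧ Inv n (advA n) (hB cH n) (inL (stL cH n)) :=
  (checkB_iff cH n _).1 (stL_check cH n)

/-- element of `G` of length `|p| + 1` whose number is given by the tail of `p` -/
def pick (G : List (List Bool)) (p : List Bool) : Option (List Bool) :=
  (G.filter fun x => decide (x.length = p.tail.length + 2))[toN p.tail]?

/-- stages of the universal machine -/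
noncomputable def Un (n : ℕ) (p : List Bool) : Option (List Bool) :=
  bif p.headD false then pick (stL cH n) p
  else bif decide (p.take 8 = List.replicate 8 false) then Vn n (p.drop 8) else none

theorem prim_toN : Primrec toN :=
  (Primrec.list_rec (f := fun l : List Bool => l) (g := fun _ => (0 : ℕ))
    (h := fun _ q => (bif q.1 then 1 else 0) + 2 * q.2.2) Primrec.id (Primrec.const 0)
    (Primrec.nat_add.comp (Primrec.cond (Primrec.fst.comp Primrec.snd) (Primrec.const 1)
      (Primrec.const 0)) (Primrec.nat_mul.comp (Primrec.const 2)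
        (Primrec.snd.comp (Primrec.snd.comp Primrec.snd)))).to₂).of_eq fun l => by
      induction l with
      | nil => rfl
      | cons b l ih =>
        cases b
        · show 0 + 2 * (List.recOn l _ _ : ℕ) = _
          rw [toN, ← ih]; simp
        · show 1 + 2 * (List.recOn l _ _ : ℕ) = _
          rw [toN, ← ih]; simp

section

attribute [local irreducible] Vn toN stL

theorem prim_pick : Primrec₂ pick := by
  have h1 : Primrec fun r : (List (List Bool) × List Bool) × List Bool =>
      decide (r.2.length = r.1.2.tail.length + 2) :=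
    (Primrec.eq.comp (Primrec.list_length.comp Primrec.snd) (Primrec.nat_add.comp
        (Primrec.list_length.comp (Primrec.list_tail.comp (Primrec.snd.comp Primrec.fst)))
        (Primrec.const 2))).decide
  have h2 : Primrec fun q : List (List Bool) × List Bool =>
      (q.1.filter fun x => decide (x.length = q.2.tail.length + 2)) :=
    prim_filter Primrec.fst h1.to₂
  exact (Primrec.list_getElem?.comp h2 (prim_toN.comp (Primrec.list_tail.comp Primrec.snd))).to₂

theorem prim_p2 : Primrec fun q : ℕ × List Bool =>
      bif decide (q.2.take 8 = List.replicate 8 false) then Vn q.1 (q.2.drop 8) else none := by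
  have h1 : Primrec fun q : ℕ × List Bool => decide (q.2.take 8 = List.replicate 8 false) :=
    (Primrec.eq.comp (Primrec.list_take.comp (Primrec.const 8) Primrec.snd)
      (Primrec.const (List.replicate 8 false))).decide
  have h2 : Primrec fun q : ℕ × List Bool => Vn q.1 (q.2.drop 8) :=
    prim_Vn.comp Primrec.fst (Primrec.list_drop.comp (Primrec.const 8) Primrec.snd)
  exact Primrec.cond h1 h2 (Primrec.const none)

theorem prim_p3 : Primrec fun q : ℕ × List Bool => q.2.headD false :=
    ((Primrec.list_getD false).comp Primrec.snd (Primrec.const 0)).of_eq fun q => by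
      cases q.2 <;> rfl

theorem comp_Un : Computable₂ (Un cH) := by
  have c1 : Computable fun q : ℕ × List Bool => pick (stL cH q.1) q.2 :=
    prim_pick.to_comp.comp ((comp_stL cH).comp Computable.fst) Computable.snd
  have c2 : Computable fun q : ℕ × List Bool => Un cH q.1 q.2 :=
    (Computable.cond prim_p3.to_comp c1 prim_p2.to_comp).of_eq fun q => by
      unfold Un
      rfl
  exact c2.to₂

end

theorem Un_mono {n m : ℕ} (h : n ≤ m) {p x : List Bool} (hx : x ∈ Un cH n p) :
    x ∈ Un cH m p := by
  unfold Un at *
  cases hp : p.headD false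
  · rw [hp] at hx
    simp only [cond_false] at hx ⊢
    cases h8 : decide (p.take 8 = List.replicate 8 false)
    · rw [h8] at hx; exact absurd hx (by simp)
    · rw [h8] at hx
      simp only [cond_true] at hx ⊢
      exact Vn_mono h hx
  · rw [hp] at hx
    simp only [cond_true] at hx ⊢
    unfold pick at *
    have h1 := (stL_prefix cH h).filter fun x => decide (x.length = p.tail.length + 2)
    obtain ⟨t, ht⟩ := h1
    rw [← ht]
    rw [Option.mem_def] at hx ⊢
    rw [List.getElem?_append_left]
    · exact hx
    · exact (List.getElem?_eq_some_iff.1 hx).1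

/-- the universal machine -/
noncomputable def UU (p : List Bool) : Part (List Bool) := Nat.rfindOpt fun n => Un cH n p

theorem mem_UU (p x : List Bool) : x ∈ UU cH p ↔ ∃ n, x ∈ Un cH n p :=
  Nat.rfindOpt_mono fun h => Un_mono cH h

theorem partrec_UU : Partrec (UU cH) :=
  Partrec.rfindOpt ((comp_Un cH).comp Computable.snd Computable.fst).to₂

theorem isUniversal_UU : IsUniversal (UU cH) := by
  refine ⟨partrec_UU cH, fun M hM => ?_⟩
  obtain ⟨d, hd⟩ := Vn_univ M hM
  refine ⟨List.replicate 8 false ++ d, fun p => Part.ext fun x => ?_⟩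
  rw [mem_UU, hd]
  have : ∀ n, Un cH n (List.replicate 8 false ++ d ++ p) = Vn n (d ++ p) := by
    intro n
    unfold Un
    rw [List.append_assoc]
    rfl
  simp only [this, Option.mem_def]

theorem exists_toN (m i : ℕ) (h : i < 2 ^ m) : ∃ q : List Bool, q.length = m ∧ toN q = i := by
  induction m generalizing i with
  | zero =>
    have h0 : i = 0 := by simpa using h
    exact ⟨[], rfl, by rw [h0]; rfl⟩
  | succ m ih =>
    obtain ⟨q, h1, h2⟩ := ih (i / 2) (by rw [pow_succ] at h; omega)
    refine ⟨decide (i % 2 = 1) :: q, by simp [h1], ?_⟩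
    rw [toN, h2]
    rcases Nat.mod_two_eq_zero_or_one i with h3 | h3
    · simp [h3]; omega
    · simp [h3]; omega

theorem removed_iff (j : ℕ) (x : List Bool) (hx : x.length = lenL j) :
    x ∉ RandC (UU cH) ↔ ∃ n, x ∈ stL cH n := by
  rw [not_mem_RandC (isUniversal_UU cH)]
  have h16 : 16 ≤ lenL j := by
    have := sz_ge j
    unfold lenL; omega
  constructor
  · rintro ⟨p, h1, h2⟩
    obtain ⟨n, h3⟩ := (mem_UU cH p x).1 h2
    unfold Un at h3
    cases hp : p.headD false
    · rw [hp] at h3
      simp only [cond_false] at h3
      cases h8 : decide (p.take 8 = List.replicate 8 false)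
      · rw [h8] at h3; exact absurd h3 (by simp)
      · rw [h8] at h3
        simp only [cond_true] at h3
        have h9 : 8 ≤ p.length := by
          have := congrArg List.length (of_decide_eq_true h8)
          rw [List.length_take, List.length_replicate] at this
          omega
        refine ⟨max n j, ?_⟩
        have h10 : advA (max n j) x = true := by
          rw [advA_iff]
          refine ⟨⟨j, le_max_right _ _, hx⟩, p.drop 8, ?_, Vn_mono (le_max_left _ _) h3⟩
          rw [List.length_drop]; omega
        have := (stL_inv cH (max n j)).2.adv x h10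
        unfold inL at this
        simpa using this
    · rw [hp] at h3
      simp only [cond_true, Option.mem_def] at h3
      unfold pick at h3
      have := List.mem_of_getElem? h3
      exact ⟨n, (List.mem_filter.1 this).1⟩
  · rintro ⟨n, hn⟩
    set l := (stL cH n).filter fun y => decide (y.length = lenL j) with hl
    have hxl : x ∈ l := List.mem_filter.2 ⟨hn, by simpa using hx⟩
    obtain ⟨i, hi, hxi⟩ := List.getElem_of_mem hxl
    have hlen : 8 * l.length < 2 ^ lenL j := by
      refine lt_of_le_of_lt (Nat.mul_le_mul_left 8 ?_)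
        ((stL_inv cH n).2.budget (advA_count n) j)
      rw [← List.toFinset_card_of_nodup ((stL_inv cH n).1.filter _)]
      refine Finset.card_le_card fun y hy => ?_
      rw [List.mem_toFinset, List.mem_filter] at hy
      refine Finset.mem_filter.2 ⟨mem_strF.2 (by simpa using hy.2), ?_⟩
      unfold inL
      simpa using hy.1
    have hpow : 2 ^ lenL j = 4 * 2 ^ (lenL j - 2) := by
      rw [show (4 : ℕ) = 2 ^ 2 by norm_num, ← pow_add]; congr 1; omega
    obtain ⟨q, hq1, hq2⟩ := exists_toN (lenL j - 2) i (by omega)
    refine ⟨true :: q, ?_, ?_⟩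
    · rw [List.length_cons, hq1, hx]; omega
    · rw [mem_UU]
      refine ⟨n, ?_⟩
      unfold Un pick
      simp only [List.headD_cons, cond_true, List.tail_cons, hq1, hq2]
      have e1 : lenL j - 2 + 2 = lenL j := by omega
      rw [e1, ← hl, Option.mem_def, List.getElem?_eq_some_iff]
      exact ⟨hi, hxi⟩

theorem addr_congr {Z Z' : List Bool → Bool} (u : List Bool)
    (h : ∀ j < u.length, ∀ x : List Bool, x.length = lenL j → Z x = Z' x) :
    addr Z u = addr Z' u := by
  induction u with
  | nil => rfl
  | cons d u ih =>
    rw [addr_cons, addr_cons, ih fun j hj => h j (by rw [List.length_cons]; omega)]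
    refine build_congr _ _ _ _ _ fun q _ _ => ?_
    exact shows_congr (h u.length (by simp)) (length_addr Z' u) _

/-- Part A: the decoding procedure with the random strings of the constructed universal machine
as oracle decides the given r.e. set. -/
theorem accepts_iff (w : List Bool) :
    (open scoped Classical in accepts (fun x => decide (x ∉ RandC (UU cH))) w = true) ↔
      ∃ n, (Code.evaln n cH (Encodable.encode w)).isSome = true := by
  classical
  set Z : List Bool → Bool := fun x => decide (x ∉ RandC (UU cH)) with hZ
  -- stabilisation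
  have hstab : ∀ S : Finset (List Bool), (∀ x ∈ S, ∃ j, x.length = lenL j) →
      ∃ n0, ∀ n, n0 ≤ n → ∀ x ∈ S, Z x = inL (stL cH n) x := by
    intro S
    induction S using Finset.induction_on with
    | empty => intro _; exact ⟨0, fun _ _ x hx => absurd hx (by simp)⟩
    | insert a S _ ih =>
      intro hS
      obtain ⟨n0, h0⟩ := ih fun x hx => hS x (Finset.mem_insert_of_mem hx)
      obtain ⟨j, hj⟩ := hS a (Finset.mem_insert_self _ _)
      by_cases ha : ∃ n, a ∈ stL cH n
      · obtain ⟨n1, h1⟩ := ha
        refine ⟨max n0 n1, fun n hn x hx => ?_⟩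
        rcases Finset.mem_insert.1 hx with rfl | hx
        · have e1 : x ∉ RandC (UU cH) := (removed_iff cH j x hj).2 ⟨n1, h1⟩
          have e2 : x ∈ stL cH n := (stL_prefix cH (le_trans (le_max_right _ _) hn)).subset h1
          simp [hZ, e1, inL, e2]
        · exact h0 n (le_trans (le_max_left _ _) hn) x hx
      · refine ⟨n0, fun n hn x hx => ?_⟩
        rcases Finset.mem_insert.1 hx with rfl | hx
        · have e1 : ¬ (x ∉ RandC (UU cH)) := fun h => ha ((removed_iff cH j x hj).1 h)
          have e2 : x ∉ stL cH n := fun h => ha ⟨n, h⟩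
          simp only [hZ, inL, e1, e2]
        · exact h0 n hn x hx
  obtain ⟨n0, h0⟩ := hstab ((Finset.range (w.length + 1)).biUnion fun j => strF (lenL j))
    (by
      intro x hx
      obtain ⟨j, _, h⟩ := Finset.mem_biUnion.1 hx
      exact ⟨j, mem_strF.1 h⟩)
  have hcong : ∀ n, n0 ≤ n → w.length ≤ n → (accepts Z w = true ↔ hB cH n w.reverse = true) := by
    intro n hn hw
    have h1 : ∀ j < w.length + 1, ∀ x : List Bool, x.length = lenL j →
        Z x = inL (stL cH n) x := fun j hj x hx =>
      h0 n hn x (Finset.mem_biUnion.2 ⟨j, Finset.mem_range.2 hj, mem_strF.2 hx⟩)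
    have h2 := (stL_inv cH n).2.hlt w.reverse (by rw [List.length_reverse]; exact hw)
    rw [List.length_reverse] at h2
    rw [← h2]
    unfold accepts
    rw [addr_congr w.reverse fun j hj => h1 j (by rw [List.length_reverse] at hj; omega)]
    have h3 : (addr (inL (stL cH n)) w.reverse).length = 2 * w.length := by
      rw [length_addr, List.length_reverse]
    rw [shows_congr (h1 w.length (by omega)) h3]
  constructor
  · intro h
    refine ⟨max n0 w.length, ?_⟩
    have := (hcong _ (le_max_left _ _) (le_max_right _ _)).1 h
    unfold hB at this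
    rw [Bool.and_eq_true, List.reverse_reverse] at this
    exact this.2
  · rintro ⟨n, hn⟩
    refine (hcong (max n (max n0 w.length)) (le_trans (le_max_left _ _) (le_max_right _ _))
      (le_trans (le_max_right _ _) (le_max_right _ _))).2 ?_
    unfold hB
    rw [Bool.and_eq_true, List.reverse_reverse, decide_eq_true_eq, List.length_reverse]
    refine ⟨le_trans (le_max_right _ _) (le_max_right _ _), ?_⟩
    rw [Option.isSome_iff_exists] at hn ⊢
    obtain ⟨k, hk⟩ := hn
    exact ⟨k, Code.evaln_mono (le_max_left _ _) hk⟩

end

end Pool.Agent.LibRC
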