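import Mathlib

/-! Deterministic multi-tape oracle Turing machines and the relativised class `P`. -/

namespace Pool.Agent.LibRC

/-- Tape symbols: `none` is the blank. -/
abbrev Sym := Option Bool

/-- What a machine with `K` tapes does in a control state: an ordinary transition (depending on
the scanned symbols it chooses the next state and, for each tape, the symbol written and the
head move, `none` meaning that the head stays), an oracle query, or halting with an answer. -/
inductive Act (K : ℕ) (Q : Type) : Type
  | move (f : (Fin K → Sym) → Q × (Fin K → Sym × Option Turing.Dir))
  | ask (yes no : Q)
  | halt (answer : Bool)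

/-- A deterministic oracle Turing machine with finitely many states and `K` two-way infinite
tapes, one of which is the input tape and one the query tape. -/
structure OracleTM where
  K : ℕ
  Q : Type
  finite : Finite Q
  start : Q
  inTape : Fin K
  qTape : Fin K
  act : Q → Act K Q

/-- Configurations: control state and tape contents (with head positions). -/
structure Cfg (M : OracleTM) where
  q : M.Q
  tp : Fin M.K → Turing.Tape Sym

/-- `w` is the word written on the tape, read from the head to the right up to the first blank. -/
def OnTape (T : Turing.Tape Sym) (w : List Bool) : Prop :=
  ∀ i : ℕ, i ≤ w.length → T.nth i = w[i]?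

/-- One step of the machine with oracle `A`; `none` if the machine has halted. In a query state
the machine moves to the state `yes` if the word on the query tape is in `A`, and to `no`
otherwise. -/
noncomputable def OracleTM.step (M : OracleTM) (A : Set (List Bool)) (c : Cfg M) :
    Option (Cfg M) :=
  open scoped Classical in
  match M.act c.q with
  | .move f =>
      let r := f fun i => (c.tp i).head
      some ⟨r.1, fun i =>
        match (r.2 i).2 with
        | none => (c.tp i).write (r.2 i).1
        | some d => ((c.tp i).write (r.2 i).1).move d⟩
  | .ask yes no => some ⟨if ∃ w ∈ A, OnTape (c.tp M.qTape) w then yes else no, c.tp⟩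
  | .halt _ => none

/-- Initial configuration: the input word on the input tape with the head on its first symbol,
all other tapes blank. -/
def OracleTM.init (M : OracleTM) (w : List Bool) : Cfg M :=
  ⟨M.start, fun i => if i = M.inTape then Turing.Tape.mk₁ (w.map some) else Turing.Tape.mk₁ []⟩

/-- The configuration after `n` steps. -/
noncomputable def OracleTM.run (M : OracleTM) (A : Set (List Bool)) (w : List Bool) (n : ℕ) :
    Option (Cfg M) :=
  (fun o : Option (Cfg M) => o.bind (M.step A))^[n] (some (M.init w))

/-- With oracle `A` and input `w` the machine halts within `t` steps with answer `b`. -/
def OracleTM.HaltsWithin (M : OracleTM) (A : Set (List Bool)) (w : List Bool) (t : ℕ)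
    (b : Bool) : Prop :=
  ∃ n ≤ t, ∃ c, M.run A w n = some c ∧ M.act c.q = .halt b

/-- `L ∈ P^A`: some deterministic oracle Turing machine with oracle `A` decides `L` within a
polynomial number of steps. -/
def InP (A L : Set (List Bool)) : Prop :=
  ∃ (M : OracleTM) (p : Polynomial ℕ), ∀ w : List Bool, ∃ b : Bool,
    (b = true ↔ w ∈ L) ∧ M.HaltsWithin A w (p.eval w.length) b

end Pool.Agent.LibRC
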