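import Mathlib
import Pool.Agent.LibRC.Constr
import Pool.Agent.LibRC.Machine

/-! Assembly. -/

namespace Pool.Agent.LibRC

open Nat.Partrec

/-- domain of the underlying universal machine: a complete r.e. set -/
theorem exists_code_dom : ∃ c0 : Code, ∀ w : List Bool,
    (∃ n, (Code.evaln n c0 (Encodable.encode w)).isSome = true) ↔ ∃ n x, Vn n w = some x := by
  have h1 : Partrec fun w : List Bool => Nat.rfindOpt fun n => Vn n w :=
    Partrec.rfindOpt (prim_Vn.to_comp.comp Computable.snd Computable.fst).to₂
  obtain ⟨c0, hc⟩ := Code.exists_code.1 h1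
  refine ⟨c0, fun w => ?_⟩
  have h2 : Code.eval c0 (Encodable.encode w) =
      (Nat.rfindOpt fun n => Vn n w).map Encodable.encode := by
    rw [hc]
    simp
  have h3 : (∃ n, (Code.evaln n c0 (Encodable.encode w)).isSome = true) ↔
      (Code.eval c0 (Encodable.encode w)).Dom := by
    rw [Part.dom_iff_mem]
    constructor
    · rintro ⟨n, hn⟩
      obtain ⟨y, hy⟩ := Option.isSome_iff_exists.1 hn
      exact ⟨y, Code.evaln_sound hy⟩
    · rintro ⟨y, hy⟩
      obtain ⟨n, hn⟩ := Code.evaln_complete.1 hy
      exact ⟨n, Option.isSome_iff_exists.2 ⟨y, hn⟩⟩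
  rw [h3, h2]
  show (Nat.rfindOpt fun n => Vn n w).Dom ↔ _
  rw [Nat.rfindOpt_dom]
  rfl

theorem final (hB : ∀ (O : Set (List Bool)) (pre : List Bool),
      InP O {w | (open scoped Classical in accepts (fun x => decide (x ∉ O)) (pre ++ w) = true)}) :
    ∃ U : List Bool →. List Bool, IsUniversal U ∧
      ∀ H : Set (List Bool), REPred (fun w => w ∈ H) → InP (RandC U) H := by
  obtain ⟨c0, hc0⟩ := exists_code_dom
  refine ⟨UU c0, isUniversal_UU c0, fun H hH => ?_⟩
  have hM : Partrec fun w : List Bool =>
      (Part.assert (w ∈ H) fun _ => Part.some ()).map fun _ => ([] : List Bool) :=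
    Partrec.map hH (Computable.const []).to₂
  obtain ⟨d, hd⟩ := Vn_univ _ hM
  have hset : {w | (open scoped Classical in
      accepts (fun x => decide (x ∉ RandC (UU c0))) (d ++ w) = true)} = H := by
    ext w
    show _ = true ↔ _
    rw [accepts_iff c0 (d ++ w), hc0]
    constructor
    · rintro ⟨n, x, hx⟩
      have := (hd w x).2 ⟨n, hx⟩
      rw [Part.mem_map_iff] at this
      obtain ⟨y, hy, _⟩ := this
      rw [Part.mem_assert_iff] at hy
      exact hy.choose
    · intro hw
      have : ([] : List Bool) ∈ (Part.assert (w ∈ H) fun _ => Part.some ()).map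
          fun _ => ([] : List Bool) := by
        rw [Part.mem_map_iff]
        exact ⟨(), Part.mem_assert hw (Part.mem_some ()), rfl⟩
      obtain ⟨n, hn⟩ := (hd w []).1 this
      exact ⟨n, [], hn⟩
  have := hB (RandC (UU c0)) d
  rw [hset] at this
  exact this

end Pool.Agent.LibRC
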