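import Mathlib
import Pool.Agent.LibRC.Machine

/-! A structured language over stacks and its compilation to oracle Turing machines. -/

set_option autoImplicit false

namespace Pool.Agent.LibRC

open Turing

/-- operation on one stack -/
inductive Op
  | keep
  | pop
  | push (b : Bool)
  deriving DecidableEq, Fintype

/-- effect of an operation -/
def Op.app : Op → List Bool → List Bool
  | .keep, l => l
  | .pop, l => l.tail
  | .push b, l => b :: l

/-- programs -/
inductive Prog (R : Type) : Type
  | prim (f : (R → Sym) → R → Op)
  | seq (a b : Prog R)
  | loop (cond : (R → Sym) → Bool) (a : Prog R)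
  | ite (cond : (R → Sym) → Bool) (a b : Prog R)
  | query (a b : Prog R)

/-- tops of the stacks -/
def tops {R : Type} (st : R → List Bool) : R → Sym := fun r => (st r).head?

/-- big step semantics with running time -/
inductive Exec {R : Type} (qr : R) (O : Set (List Bool)) :
    Prog R → (R → List Bool) → ℕ → (R → List Bool) → Prop
  | prim (f : (R → Sym) → R → Op) (st : R → List Bool) :
      Exec qr O (.prim f) st 2 (fun r => (f (tops st) r).app (st r))
  | seq {a b : Prog R} {st st' st'' : R → List Bool} {t t' : ℕ} :
      Exec qr O a st t st' → Exec qr O b st' t' st'' → Exec qr O (.seq a b) st (t + t') st''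
  | loopDone {cond : (R → Sym) → Bool} {a : Prog R} {st : R → List Bool} :
      cond (tops st) = false → Exec qr O (.loop cond a) st 1 st
  | loopStep {cond : (R → Sym) → Bool} {a : Prog R} {st st' st'' : R → List Bool} {t t' : ℕ} :
      cond (tops st) = true → Exec qr O a st t st' → Exec qr O (.loop cond a) st' t' st'' →
        Exec qr O (.loop cond a) st (1 + t + t') st''
  | iteTrue {cond : (R → Sym) → Bool} {a b : Prog R} {st st' : R → List Bool} {t : ℕ} :
      cond (tops st) = true → Exec qr O a st t st' → Exec qr O (.ite cond a b) st (1 + t) st'
  | iteFalse {cond : (R → Sym) → Bool} {a b : Prog R} {st st' : R → List Bool} {t : ℕ} :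
      cond (tops st) = false → Exec qr O b st t st' → Exec qr O (.ite cond a b) st (1 + t) st'
  | queryYes {a b : Prog R} {st st' : R → List Bool} {t : ℕ} :
      st qr ∈ O → Exec qr O a st t st' → Exec qr O (.query a b) st (1 + t) st'
  | queryNo {a b : Prog R} {st st' : R → List Bool} {t : ℕ} :
      st qr ∉ O → Exec qr O b st t st' → Exec qr O (.query a b) st (1 + t) st'

/-! ### Tapes -/

/-- the tape of a stack -/
def tapeOf (l : List Bool) : Tape Sym := Tape.mk₁ (l.map some)

lemma tapeOf_head (l : List Bool) : (tapeOf l).head = l.head? := by
  cases l <;> rfl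

lemma blank_cons : (ListBlank.mk ([] : List Sym)).cons (none : Sym) = ListBlank.mk [] := by
  rw [ListBlank.cons_mk]
  apply Quotient.sound'
  right
  exact ⟨1, rfl⟩

lemma tapeOf_keep (l : List Bool) : (tapeOf l).write l.head? = tapeOf l := by
  have := Tape.write_self (tapeOf l)
  rwa [show (tapeOf l).1 = l.head? from tapeOf_head l] at this

lemma tapeOf_pop (l : List Bool) :
    ((tapeOf l).write none).move Dir.right = tapeOf l.tail := by
  have h : ∀ R : ListBlank Sym, ((Tape.mk' (ListBlank.mk []) R).write none).move Dir.right =
      Tape.mk' (ListBlank.mk []) R.tail := by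
    intro R
    obtain ⟨a, R', rfl⟩ := R.exists_cons
    rw [Tape.write_mk', Tape.move_right_mk']
    simp only [ListBlank.head_cons, ListBlank.tail_cons]
    rw [blank_cons]
  unfold tapeOf Tape.mk₁ Tape.mk₂
  rw [h, ListBlank.tail_mk]
  cases l <;> rfl

lemma tapeOf_push (l : List Bool) (b : Bool) :
    (((tapeOf l).write l.head?).move Dir.left).write (some b) = tapeOf (b :: l) := by
  rw [tapeOf_keep]
  unfold tapeOf Tape.mk₁ Tape.mk₂
  rw [Tape.move_left_mk', Tape.write_mk', ListBlank.tail_mk]
  simp [ListBlank.cons_mk]

lemma getI_map_some (l : List Bool) (i : ℕ) : (l.map some).getI i = l[i]? := by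
  induction l generalizing i with
  | nil => cases i <;> rfl
  | cons a l ih =>
      cases i with
      | zero => rfl
      | succ i => simpa using ih i

lemma onTape_iff (l w : List Bool) : OnTape (tapeOf l) w ↔ w = l := by
  have hn : ∀ i : ℕ, (tapeOf l).nth i = l[i]? := by
    intro i
    unfold tapeOf Tape.mk₁ Tape.mk₂
    rw [Tape.mk'_nth_nat, ListBlank.nth_mk, getI_map_some]
  constructor
  · intro h
    have hlen : l.length ≤ w.length := by
      have := h w.length le_rfl
      rw [hn] at this
      simpa using this
    apply List.ext_getElem?
    intro i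
    rcases le_or_gt i w.length with hi | hi
    · rw [← h i hi, hn]
    · rw [List.getElem?_eq_none (by omega), List.getElem?_eq_none (by omega)]
  · rintro rfl i _
    exact hn i

/-! ### Compilation -/

/-- control states of a program -/
def Prog.St {R : Type} : Prog R → Type
  | .prim _ => Option (R → Op)
  | .seq a b => a.St ⊕ b.St
  | .loop _ a => Option a.St
  | .ite _ a b => Option (a.St ⊕ b.St)
  | .query a b => Option (a.St ⊕ b.St)

/-- entry state -/
def Prog.start {R : Type} : (c : Prog R) → c.St
  | .prim _ => (none : Option (R → Op))
  | .seq a _ => (Sum.inl a.start : _ ⊕ _)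
  | .loop _ a => (none : Option a.St)
  | .ite _ a b => (none : Option (a.St ⊕ b.St))
  | .query a b => (none : Option (a.St ⊕ b.St))

lemma Prog.finite_St {R : Type} [Finite R] : (c : Prog R) → Finite c.St
  | .prim _ => by
      unfold Prog.St
      infer_instance
  | .seq a b => by
      have := a.finite_St
      have := b.finite_St
      unfold Prog.St
      infer_instance
  | .loop _ a => by
      have := a.finite_St
      unfold Prog.St
      infer_instance
  | .ite _ a b => by
      have := a.finite_St
      have := b.finite_St
      unfold Prog.St
      infer_instance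
  | .query a b => by
      have := a.finite_St
      have := b.finite_St
      unfold Prog.St
      infer_instance

/-- first phase of an operation: symbol written and move -/
def Op.first (s : Sym) : Op → Sym × Option Dir
  | .keep => (s, none)
  | .pop => (none, some Dir.right)
  | .push _ => (s, some Dir.left)

/-- second phase of an operation: symbol written and move -/
def Op.second (s : Sym) : Op → Sym × Option Dir
  | .keep => (s, none)
  | .pop => (s, none)
  | .push b => (some b, none)

/-- transitions of the compiled program, the states being embedded by `e` and the exit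
being `x` -/
def Prog.act {R : Type} {K : ℕ} {Q : Type} (ι : Fin K ≃ R) :
    (c : Prog R) → (c.St → Q) → Q → c.St → Act K Q
  | .prim f, e, _, (none : Option (R → Op)) => .move fun h =>
      (e (some (f fun r => h (ι.symm r))), fun k => Op.first (h k) (f (fun r => h (ι.symm r)) (ι k)))
  | .prim _, _, x, some ops => .move fun h => (x, fun k => Op.second (h k) (ops (ι k)))
  | .seq a b, e, _, Sum.inl s => a.act ι (fun s => e (Sum.inl s)) (e (Sum.inr b.start)) s
  | .seq _ b, e, x, Sum.inr s => b.act ι (fun s => e (Sum.inr s)) x s
  | .loop cond a, e, x, (none : Option a.St) => .move fun h =>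
      (if cond (fun r => h (ι.symm r)) then e (some a.start) else x, fun k => (h k, none))
  | .loop _ a, e, _, some s => a.act ι (fun s => e (some s)) (e none) s
  | .ite cond a b, e, _, (none : Option (a.St ⊕ b.St)) => .move fun h =>
      (if cond (fun r => h (ι.symm r)) then e (some (Sum.inl a.start))
        else e (some (Sum.inr b.start)), fun k => (h k, none))
  | .ite _ a _, e, x, some (Sum.inl s) => a.act ι (fun s => e (some (Sum.inl s))) x s
  | .ite _ _ b, e, x, some (Sum.inr s) => b.act ι (fun s => e (some (Sum.inr s))) x s
  | .query a b, e, _, (none : Option (a.St ⊕ b.St)) =>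
      .ask (e (some (Sum.inl a.start))) (e (some (Sum.inr b.start)))
  | .query a _, e, x, some (Sum.inl s) => a.act ι (fun s => e (some (Sum.inl s))) x s
  | .query _ b, e, x, some (Sum.inr s) => b.act ι (fun s => e (some (Sum.inr s))) x s

/-- iterate the step function -/
noncomputable def OracleTM.steps (M : OracleTM) (A : Set (List Bool)) (n : ℕ)
    (c : Option (Cfg M)) : Option (Cfg M) :=
  (fun o : Option (Cfg M) => o.bind (M.step A))^[n] c

lemma OracleTM.steps_add (M : OracleTM) (A : Set (List Bool)) (m n : ℕ)
    (c : Option (Cfg M)) : M.steps A (m + n) c = M.steps A n (M.steps A m c) := by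
  unfold OracleTM.steps
  rw [Nat.add_comm, Function.iterate_add_apply]

lemma OracleTM.steps_one (M : OracleTM) (A : Set (List Bool)) (c : Cfg M) :
    M.steps A 1 (some c) = M.step A c := rfl

/-- the tapes of a state of the stacks -/
def tapes {R : Type} {K : ℕ} (ι : Fin K ≃ R) (st : R → List Bool) : Fin K → Tape Sym :=
  fun k => tapeOf (st (ι k))

lemma heads_tapes {R : Type} {K : ℕ} (ι : Fin K ≃ R) (st : R → List Bool) :
    (fun r => (tapes ι st (ι.symm r)).head) = tops st := by
  funext r
  unfold tapes tops
  rw [tapeOf_head, Equiv.apply_symm_apply]

/-- Simulation of the structured program by the machine. -/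
theorem simulate {R : Type} (M : OracleTM) (ι : Fin M.K ≃ R) (O : Set (List Bool)) (c : Prog R)
    (st : R → List Bool) (t : ℕ) (st' : R → List Bool) (h : Exec (ι M.qTape) O c st t st') :
    ∀ (e : c.St → M.Q) (x : M.Q), (∀ s, M.act (e s) = c.act ι e x s) →
      M.steps O t (some ⟨e c.start, tapes ι st⟩) = some ⟨x, tapes ι st'⟩ := by
  induction h with
  | prim f st =>
      intro e x hact
      rw [show (2 : ℕ) = 1 + 1 from rfl, OracleTM.steps_add, OracleTM.steps_one]
      have h1 : M.step O ⟨e (Prog.prim f).start, tapes ι st⟩ =
          some ⟨e (some (f (tops st)) : Option (R → Op)), fun k =>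
            match (Op.first ((tapes ι st k).head) (f (tops st) (ι k))).2 with
            | none => (tapes ι st k).write (Op.first ((tapes ι st k).head) (f (tops st) (ι k))).1
            | some d => ((tapes ι st k).write
                (Op.first ((tapes ι st k).head) (f (tops st) (ι k))).1).move d⟩ := by
        unfold OracleTM.step
        simp only
        have := hact (Prog.prim f).start
        simp only [Prog.start, Prog.act] at this
        rw [show (Prog.prim f).start = (none : Option (R → Op)) from rfl, this]
        simp only [heads_tapes]
        rfl
      rw [h1, OracleTM.steps_one]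
      unfold OracleTM.step
      have h2 := hact (some (f (tops st)) : Option (R → Op))
      simp only [Prog.act] at h2
      simp only [h2]
      congr 2
      funext k
      unfold tapes
      cases hop : f (tops st) (ι k) with
      | keep =>
          simp only [hop, Op.first, Op.second, Op.app, tapeOf_head, tapeOf_keep]
      | pop =>
          simp only [hop, Op.first, Op.second, Op.app, tapeOf_head, tapeOf_pop, tapeOf_keep]
      | push b =>
          simp only [hop, Op.first, Op.second, Op.app, tapeOf_head, tapeOf_push]
  | @seq a b st st' st'' t t' _ _ iha ihb =>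
      intro e x hact
      rw [OracleTM.steps_add]
      have h1 := iha (fun s => e (Sum.inl s : a.St ⊕ b.St)) (e (Sum.inr b.start : a.St ⊕ b.St))
        (fun s => hact (Sum.inl s : a.St ⊕ b.St))
      have h2 := ihb (fun s => e (Sum.inr s : a.St ⊕ b.St)) x
        (fun s => hact (Sum.inr s : a.St ⊕ b.St))
      exact (congrArg (M.steps O t') h1).trans h2
  | @loopDone cond a st hc =>
      intro e x hact
      rw [OracleTM.steps_one]
      unfold OracleTM.step
      have := hact (none : Option a.St)
      simp only [Prog.act] at this
      simp only [show (Prog.loop cond a).start = (none : Option a.St) from rfl, this]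
      rw [heads_tapes, hc]
      congr 2
  | @loopStep cond a st st' st'' t t' hc _ _ iha ihl =>
      intro e x hact
      rw [OracleTM.steps_add, OracleTM.steps_add, OracleTM.steps_one]
      have h1 : M.step O ⟨e (Prog.loop cond a).start, tapes ι st⟩ =
          some ⟨e (some a.start : Option a.St), tapes ι st⟩ := by
        unfold OracleTM.step
        have := hact (none : Option a.St)
        simp only [Prog.act] at this
        simp only [show (Prog.loop cond a).start = (none : Option a.St) from rfl, this]
        rw [heads_tapes, hc]
        congr 2
      rw [h1]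
      have h2 := iha (fun s => e (some s : Option a.St)) (e (none : Option a.St))
        (fun s => hact (some s : Option a.St))
      exact (congrArg (M.steps O t') h2).trans (ihl e x hact)
  | @iteTrue cond a b st st' t hc _ iha =>
      intro e x hact
      rw [OracleTM.steps_add, OracleTM.steps_one]
      have h1 : M.step O ⟨e (Prog.ite cond a b).start, tapes ι st⟩ =
          some ⟨e (some (Sum.inl a.start) : Option (a.St ⊕ b.St)), tapes ι st⟩ := by
        unfold OracleTM.step
        have := hact (none : Option (a.St ⊕ b.St))
        simp only [Prog.act] at this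
        simp only [show (Prog.ite cond a b).start = (none : Option (a.St ⊕ b.St)) from rfl, this]
        rw [heads_tapes, hc]
        congr 2
      rw [h1]
      exact iha (fun s => e (some (Sum.inl s) : Option (a.St ⊕ b.St))) x
        (fun s => hact (some (Sum.inl s) : Option (a.St ⊕ b.St)))
  | @iteFalse cond a b st st' t hc _ ihb =>
      intro e x hact
      rw [OracleTM.steps_add, OracleTM.steps_one]
      have h1 : M.step O ⟨e (Prog.ite cond a b).start, tapes ι st⟩ =
          some ⟨e (some (Sum.inr b.start) : Option (a.St ⊕ b.St)), tapes ι st⟩ := by
        unfold OracleTM.step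
        have := hact (none : Option (a.St ⊕ b.St))
        simp only [Prog.act] at this
        simp only [show (Prog.ite cond a b).start = (none : Option (a.St ⊕ b.St)) from rfl, this]
        rw [heads_tapes, hc]
        congr 2
      rw [h1]
      exact ihb (fun s => e (some (Sum.inr s) : Option (a.St ⊕ b.St))) x
        (fun s => hact (some (Sum.inr s) : Option (a.St ⊕ b.St)))
  | @queryYes a b st st' t hq _ iha =>
      intro e x hact
      rw [OracleTM.steps_add, OracleTM.steps_one]
      have h1 : M.step O ⟨e (Prog.query a b).start, tapes ι st⟩ =
          some ⟨e (some (Sum.inl a.start) : Option (a.St ⊕ b.St)), tapes ι st⟩ := by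
        unfold OracleTM.step
        have := hact (none : Option (a.St ⊕ b.St))
        simp only [Prog.act] at this
        simp only [show (Prog.query a b).start = (none : Option (a.St ⊕ b.St)) from rfl, this]
        congr 2
        rw [if_pos]
        exact ⟨st (ι M.qTape), hq, (onTape_iff _ _).2 rfl⟩
      rw [h1]
      exact iha (fun s => e (some (Sum.inl s) : Option (a.St ⊕ b.St))) x
        (fun s => hact (some (Sum.inl s) : Option (a.St ⊕ b.St)))
  | @queryNo a b st st' t hq _ ihb =>
      intro e x hact
      rw [OracleTM.steps_add, OracleTM.steps_one]
      have h1 : M.step O ⟨e (Prog.query a b).start, tapes ι st⟩ =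
          some ⟨e (some (Sum.inr b.start) : Option (a.St ⊕ b.St)), tapes ι st⟩ := by
        unfold OracleTM.step
        have := hact (none : Option (a.St ⊕ b.St))
        simp only [Prog.act] at this
        simp only [show (Prog.query a b).start = (none : Option (a.St ⊕ b.St)) from rfl, this]
        congr 2
        rw [if_neg]
        rintro ⟨w, hw, hon⟩
        rw [(onTape_iff _ _).1 hon] at hw
        exact hq hw
      rw [h1]
      exact ihb (fun s => e (some (Sum.inr s) : Option (a.St ⊕ b.St))) x
        (fun s => hact (some (Sum.inr s) : Option (a.St ⊕ b.St)))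

/-! ### The decision theorem -/

/-- `c` runs from `st` to `st'` in at most `n` steps. -/
def Ex {R : Type} (qr : R) (O : Set (List Bool)) (c : Prog R) (st : R → List Bool) (n : ℕ)
    (st' : R → List Bool) : Prop := ∃ t ≤ n, Exec qr O c st t st'

/-- The machine of a program: run it and answer whether the stack `out` is nonempty. -/
abbrev machine {R : Type} [Finite R] {K : ℕ} (ι : Fin K ≃ R) (inp qr out : R) (c : Prog R) :
    OracleTM where
  K := K
  Q := c.St ⊕ Fin 3
  finite := by
    have := c.finite_St
    infer_instance
  start := Sum.inl c.start
  inTape := ι.symm inp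
  qTape := ι.symm qr
  act := fun s => match s with
    | Sum.inl s => c.act ι Sum.inl (Sum.inr 0) s
    | Sum.inr 0 => .move fun h =>
        (if (h (ι.symm out)).isSome then Sum.inr 1 else Sum.inr 2, fun k => (h k, none))
    | Sum.inr 1 => .halt true
    | Sum.inr 2 => .halt false

/-- A program that decides `L` within polynomial time gives `InP`. -/
theorem inP_of_prog {R : Type} [Fintype R] [DecidableEq R] (inp qr out : R) (c : Prog R)
    (O L : Set (List Bool)) (p : Polynomial ℕ)
    (h : ∀ w : List Bool, ∃ st', Ex qr O c (fun r => if r = inp then w else []) (p.eval w.length) st' ∧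
      (st' out ≠ [] ↔ w ∈ L)) : InP O L := by
  classical
  let ι : Fin (Fintype.card R) ≃ R := (Fintype.equivFin R).symm
  refine ⟨machine ι inp qr out c, p + 1, fun w => ?_⟩
  obtain ⟨st', ⟨t, ht, hex⟩, hiff⟩ := h w
  refine ⟨decide (w ∈ L), by simp, t + 1, by simpa using ht, ?_⟩
  have hinit : (machine ι inp qr out c).init w =
      ⟨Sum.inl c.start, tapes ι (fun r => if r = inp then w else [])⟩ := by
    have e : (fun i : Fin (Fintype.card R) => if i = ι.symm inp then
        Turing.Tape.mk₁ (w.map some) else Turing.Tape.mk₁ ([] : List Sym)) =
        tapes ι (fun r => if r = inp then w else []) := by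
      funext k
      unfold tapes
      by_cases hk : ι k = inp
      · have : k = ι.symm inp := by rw [← hk, Equiv.symm_apply_apply]
        subst this
        simp [tapeOf]
      · have : k ≠ ι.symm inp := by
          rintro rfl
          exact hk (Equiv.apply_symm_apply _ _)
        simp [tapeOf, this, hk]
    unfold OracleTM.init
    exact congrArg (Cfg.mk _) e
  have hsim := simulate (machine ι inp qr out c) ι O c _ t st'
    (by
      have : ι (machine ι inp qr out c).qTape = qr := Equiv.apply_symm_apply _ _
      rw [this]
      exact hex) Sum.inl (Sum.inr 0) (fun s => rfl)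
  have hrun : (machine ι inp qr out c).run O w t = some ⟨Sum.inr 0, tapes ι st'⟩ := by
    unfold OracleTM.run
    rw [hinit]
    exact hsim
  have hrun1 : (machine ι inp qr out c).run O w (t + 1) =
      some ⟨(if (st' out).head?.isSome then Sum.inr 1 else Sum.inr 2 : c.St ⊕ Fin 3),
        tapes ι st'⟩ := by
    have e : (machine ι inp qr out c).run O w (t + 1) =
        ((machine ι inp qr out c).run O w t).bind ((machine ι inp qr out c).step O) := by
      unfold OracleTM.run
      rw [Function.iterate_succ_apply']
    rw [e, hrun]
    simp only [Option.bind_some, OracleTM.step]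
    have hh : (tapes ι st' (ι.symm out)).head = (st' out).head? := by
      unfold tapes
      rw [tapeOf_head, Equiv.apply_symm_apply]
    simp only [hh]
    rfl
  refine ⟨_, hrun1, ?_⟩
  by_cases hout : st' out = []
  · have hL : w ∉ L := fun hL => (hiff.2 hL) hout
    rw [hout]
    simp only [List.head?_nil, Option.isSome_none, Bool.false_eq_true, if_false, hL,
      decide_false]
  · have hL : w ∈ L := hiff.1 hout
    obtain ⟨b, l, hbl⟩ := List.exists_cons_of_ne_nil hout
    rw [hbl]
    simp only [List.head?_cons, Option.isSome_some, if_true, hL, decide_true]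

end Pool.Agent.LibRC
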