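import Mathlib
import Pool.Agent.LibRC.PolyLang
import Pool.Agent.LibRC.Walk

/-! Small programs over stacks. -/

set_option autoImplicit false

namespace Pool.Agent.LibRC

open Function

section

variable {R : Type} {qr : R} {O : Set (List Bool)}

lemma Ex.mono {c : Prog R} {st st' : R → List Bool} {m n : ℕ} (h : Ex qr O c st m st')
    (hmn : m ≤ n) : Ex qr O c st n st' := by
  obtain ⟨t, ht, he⟩ := h
  exact ⟨t, ht.trans hmn, he⟩

lemma Ex.of_eq {c : Prog R} {st st' st'' : R → List Bool} {m : ℕ} (h : Ex qr O c st m st')
    (he : st' = st'') : Ex qr O c st m st'' := he ▸ h

lemma Ex.seq {a b : Prog R} {st st' st'' : R → List Bool} {m n : ℕ} (h : Ex qr O a st m st')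
    (h' : Ex qr O b st' n st'') : Ex qr O (.seq a b) st (m + n) st'' := by
  obtain ⟨t, ht, he⟩ := h
  obtain ⟨t', ht', he'⟩ := h'
  exact ⟨t + t', by omega, .seq he he'⟩

lemma Ex.prim (f : (R → Sym) → R → Op) (st : R → List Bool) :
    Ex qr O (.prim f) st 2 (fun r => (f (tops st) r).app (st r)) := ⟨2, le_rfl, .prim f st⟩

lemma Ex.loopDone {cond : (R → Sym) → Bool} {a : Prog R} {st : R → List Bool}
    (h : cond (tops st) = false) : Ex qr O (.loop cond a) st 1 st := ⟨1, le_rfl, .loopDone h⟩

lemma Ex.loopStep {cond : (R → Sym) → Bool} {a : Prog R} {st st' st'' : R → List Bool}
    {m n : ℕ} (h : cond (tops st) = true) (h1 : Ex qr O a st m st')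
    (h2 : Ex qr O (.loop cond a) st' n st'') : Ex qr O (.loop cond a) st (1 + m + n) st'' := by
  obtain ⟨t, ht, he⟩ := h1
  obtain ⟨t', ht', he'⟩ := h2
  exact ⟨1 + t + t', by omega, .loopStep h he he'⟩

lemma Ex.iteTrue {cond : (R → Sym) → Bool} {a b : Prog R} {st st' : R → List Bool}
    {m : ℕ} (h : cond (tops st) = true) (h1 : Ex qr O a st m st') :
    Ex qr O (.ite cond a b) st (1 + m) st' := by
  obtain ⟨t, ht, he⟩ := h1
  exact ⟨1 + t, by omega, .iteTrue h he⟩

lemma Ex.iteFalse {cond : (R → Sym) → Bool} {a b : Prog R} {st st' : R → List Bool}
    {m : ℕ} (h : cond (tops st) = false) (h1 : Ex qr O b st m st') :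
    Ex qr O (.ite cond a b) st (1 + m) st' := by
  obtain ⟨t, ht, he⟩ := h1
  exact ⟨1 + t, by omega, .iteFalse h he⟩

lemma Ex.queryYes {a b : Prog R} {st st' : R → List Bool}
    {m : ℕ} (h : st qr ∈ O) (h1 : Ex qr O a st m st') :
    Ex qr O (.query a b) st (1 + m) st' := by
  obtain ⟨t, ht, he⟩ := h1
  exact ⟨1 + t, by omega, .queryYes h he⟩

lemma Ex.queryNo {a b : Prog R} {st st' : R → List Bool}
    {m : ℕ} (h : st qr ∉ O) (h1 : Ex qr O b st m st') :
    Ex qr O (.query a b) st (1 + m) st' := by
  obtain ⟨t, ht, he⟩ := h1
  exact ⟨1 + t, by omega, .queryNo h he⟩

/-- Loop with an explicit sequence of states. -/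
lemma Ex.loopIter {cond : (R → Sym) → Bool} {a : Prog R} (n B : ℕ) (σ : ℕ → R → List Bool)
    (hc : ∀ i < n, cond (tops (σ i)) = true) (hl : cond (tops (σ n)) = false)
    (hb : ∀ i < n, Ex qr O a (σ i) B (σ (i + 1))) :
    Ex qr O (.loop cond a) (σ 0) (n * (B + 1) + 1) (σ n) := by
  have key : ∀ k, k ≤ n → Ex qr O (.loop cond a) (σ (n - k)) (k * (B + 1) + 1) (σ n) := by
    intro k
    induction k with
    | zero =>
        intro _
        simp only [Nat.sub_zero]
        exact (Ex.loopDone hl).mono (by omega)
    | succ k ih =>
        intro hk
        have h1 := ih (by omega)
        have h2 := hb (n - (k + 1)) (by omega)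
        have h3 : n - (k + 1) + 1 = n - k := by omega
        rw [h3] at h2
        exact (Ex.loopStep (hc _ (by omega)) h2 h1).mono (by nlinarith)
  have := key n le_rfl
  rwa [Nat.sub_self] at this

variable [DecidableEq R]

/-- do nothing -/
def skipP : Prog R := .prim fun _ _ => .keep

omit [DecidableEq R] in
lemma skipP_spec (st : R → List Bool) : Ex qr O skipP st 2 st := by
  refine (Ex.prim _ st).of_eq ?_
  funext r
  rfl

/-- pop one stack -/
def popP (x : R) : Prog R := .prim fun _ r => if r = x then .pop else .keep

lemma popP_spec (x : R) (st : R → List Bool) :
    Ex qr O (popP x) st 2 (update st x (st x).tail) := by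
  refine (Ex.prim _ st).of_eq ?_
  funext r
  by_cases h : r = x
  · subst h
    simp [Op.app]
  · simp [h, Op.app]

/-- push one bit -/
def pushP (x : R) (b : Bool) : Prog R := .prim fun _ r => if r = x then .push b else .keep

lemma pushP_spec (x : R) (b : Bool) (st : R → List Bool) :
    Ex qr O (pushP x b) st 2 (update st x (b :: st x)) := by
  refine (Ex.prim _ st).of_eq ?_
  funext r
  by_cases h : r = x
  · subst h
    simp [Op.app]
  · simp [h, Op.app]

/-- empty one stack -/
def clearP (x : R) : Prog R := .loop (fun h => (h x).isSome) (popP x)

lemma clearP_spec (x : R) (st : R → List Bool) :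
    Ex qr O (clearP x) st (3 * (st x).length + 1) (update st x []) := by
  obtain ⟨l, hl⟩ : ∃ l, st x = l := ⟨_, rfl⟩
  rw [hl]
  induction l generalizing st with
  | nil =>
      refine ((Ex.loopDone ?_).of_eq ?_).mono (by simp)
      · simp [tops, hl]
      · rw [← hl, update_eq_self]
  | cons b l ih =>
      have h1 := popP_spec (qr := qr) (O := O) x st
      have h2 := ih (update st x (st x).tail) (by simp [hl])
      refine ((Ex.loopStep ?_ h1 h2).of_eq ?_).mono ?_
      · simp [tops, hl]
      · rw [update_idem]
      · simp only [List.length_cons]
        omega

/-- move `x` onto `y` (reversing it) -/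
def mvP (x y : R) : Prog R := .loop (fun h => (h x).isSome)
  (.prim fun h r => if r = x then .pop else if r = y then .push ((h x).getD false) else .keep)

lemma mvP_spec (x y : R) (hxy : x ≠ y) (st : R → List Bool) :
    Ex qr O (mvP x y) st (3 * (st x).length + 1)
      (update (update st x []) y ((st x).reverse ++ st y)) := by
  obtain ⟨l, hl⟩ : ∃ l, st x = l := ⟨_, rfl⟩
  rw [hl]
  induction l generalizing st with
  | nil =>
      refine ((Ex.loopDone ?_).of_eq ?_).mono (by simp)
      · simp [tops, hl]
      · funext r
        by_cases c1 : r = y
        · subst c1; simp
        · by_cases c2 : r = x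
          · subst c2; simp [c1, hl]
          · simp [c1, c2]
  | cons b l ih =>
      have h1 := Ex.prim (qr := qr) (O := O) (fun h r => if r = x then Op.pop else
        if r = y then .push ((h x).getD false) else .keep) st
      have e : (fun r => ((fun (h : R → Sym) r => if r = x then Op.pop else
        if r = y then .push ((h x).getD false) else .keep) (tops st) r).app (st r)) =
        update (update st x l) y (b :: st y) := by
        funext r
        by_cases c1 : r = y
        · subst c1; simp [hxy.symm, Op.app, tops, hl]
        · by_cases c2 : r = x
          · subst c2; simp [c1, Op.app, hl]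
          · simp [c1, c2, Op.app]
      rw [e] at h1
      have h2 := ih (update (update st x l) y (b :: st y)) (by simp [hxy])
      refine ((Ex.loopStep ?_ h1 h2).of_eq ?_).mono ?_
      · simp [tops, hl]
      · funext r
        by_cases c1 : r = y
        · subst c1; simp
        · by_cases c2 : r = x
          · subst c2; simp [c1]
          · simp [c1, c2]
      · simp only [List.length_cons]
        omega

/-- move `t` onto both `x` and `y` -/
def mv2P (t x y : R) : Prog R := .loop (fun h => (h t).isSome)
  (.prim fun h r => if r = t then .pop else if r = x ∨ r = y then .push ((h t).getD false)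
    else .keep)

lemma mv2P_spec (t x y : R) (htx : t ≠ x) (hty : t ≠ y) (hxy : x ≠ y) (st : R → List Bool) :
    Ex qr O (mv2P t x y) st (3 * (st t).length + 1)
      (update (update (update st t []) x ((st t).reverse ++ st x)) y
        ((st t).reverse ++ st y)) := by
  obtain ⟨l, hl⟩ : ∃ l, st t = l := ⟨_, rfl⟩
  rw [hl]
  induction l generalizing st with
  | nil =>
      refine ((Ex.loopDone ?_).of_eq ?_).mono (by simp)
      · simp [tops, hl]
      · funext r
        by_cases c1 : r = y
        · subst c1; simp
        · by_cases c2 : r = x
          · subst c2; simp [c1]
          · by_cases c3 : r = t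
            · subst c3; simp [c1, c2, hl]
            · simp [c1, c2, c3]
  | cons b l ih =>
      have h1 := Ex.prim (qr := qr) (O := O) (fun h r => if r = t then Op.pop else
        if r = x ∨ r = y then .push ((h t).getD false) else .keep) st
      have e : (fun r => ((fun (h : R → Sym) r => if r = t then Op.pop else
        if r = x ∨ r = y then .push ((h t).getD false) else .keep) (tops st) r).app (st r)) =
        update (update (update st t l) x (b :: st x)) y (b :: st y) := by
        funext r
        by_cases c1 : r = y
        · subst c1; simp [hty.symm, Op.app, tops, hl]
        · by_cases c2 : r = x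
          · subst c2; simp [c1, htx.symm, Op.app, tops, hl]
          · by_cases c3 : r = t
            · subst c3; simp [c1, c2, Op.app, hl]
            · simp [c1, c2, c3, Op.app]
      rw [e] at h1
      have h2 := ih (update (update (update st t l) x (b :: st x)) y (b :: st y))
        (by simp [htx, hty])
      refine ((Ex.loopStep ?_ h1 h2).of_eq ?_).mono ?_
      · simp [tops, hl]
      · funext r
        by_cases c1 : r = y
        · subst c1; simp
        · by_cases c2 : r = x
          · subst c2; simp [c1, hxy]
          · by_cases c3 : r = t
            · subst c3; simp [c1, c2]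
            · simp [c1, c2, c3]
      · simp only [List.length_cons]
        omega

/-- copy `x` onto `y`, with the help of the empty stack `t` -/
def cpP (x y t : R) : Prog R := .seq (mvP x t) (mv2P t x y)

lemma cpP_spec (x y t : R) (hxy : x ≠ y) (hxt : x ≠ t) (hyt : y ≠ t) (st : R → List Bool)
    (ht : st t = []) :
    Ex qr O (cpP x y t) st (6 * (st x).length + 2) (update st y (st x ++ st y)) := by
  have h1 := mvP_spec (qr := qr) (O := O) x t hxt st
  have h2 := mv2P_spec (qr := qr) (O := O) t x y hxt.symm hyt.symm hxy
    (update (update st x []) t ((st x).reverse ++ st t))
  refine ((h1.seq h2).of_eq ?_).mono ?_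
  · funext r
    by_cases c1 : r = y
    · subst c1; simp [ht, hxy.symm, hyt]
    · by_cases c2 : r = x
      · subst c2; simp [c1, ht, hxt]
      · by_cases c3 : r = t
        · subst c3; simp [c1, c2, ht]
        · simp [c1, c2, c3]
  · simp [ht]
    omega

/-- xor `y` into `x` (equal lengths), with the help of the empty stacks `t`, `t'` -/
def xorP (x y t t' : R) : Prog R :=
  .seq (.loop (fun h => (h y).isSome)
    (.prim fun h r => if r = x ∨ r = y then .pop else
      if r = t then .push (xor ((h x).getD false) ((h y).getD false)) else
      if r = t' then .push ((h y).getD false) else .keep))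
  (.seq (mvP t x) (mvP t' y))

lemma xorP_spec (x y t t' : R) (hxy : x ≠ y) (hxt : x ≠ t) (hxt' : x ≠ t') (hyt : y ≠ t)
    (hyt' : y ≠ t') (htt' : t ≠ t') (st : R → List Bool) (ht : st t = []) (ht' : st t' = [])
    (hlen : (st x).length = (st y).length) :
    Ex qr O (xorP x y t t') st (9 * (st y).length + 3) (update st x (xorL (st x) (st y))) := by
  have hloop : ∀ (B A : List Bool) (st : R → List Bool), st y = B → st x = A →
      A.length = B.length →
      Ex qr O (.loop (fun h => (h y).isSome)
        (.prim fun h r => if r = x ∨ r = y then .pop else
          if r = t then .push (xor ((h x).getD false) ((h y).getD false)) else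
          if r = t' then .push ((h y).getD false) else .keep)) st (3 * B.length + 1)
        (update (update (update (update st x []) y []) t ((xorL A B).reverse ++ st t)) t'
          (B.reverse ++ st t')) := by
    intro B
    induction B with
    | nil =>
        intro A st hy hx hl
        have hA : A = [] := by simpa using hl
        subst hA
        refine ((Ex.loopDone ?_).of_eq ?_).mono (by simp)
        · simp [tops, hy]
        · funext r
          by_cases c1 : r = t'
          · subst c1; simp
          · by_cases c2 : r = t
            · subst c2; simp [c1, xorL]
            · by_cases c3 : r = y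
              · subst c3; simp [c1, c2, hy]
              · by_cases c4 : r = x
                · subst c4; simp [c1, c2, c3, hx]
                · simp [c1, c2, c3, c4]
    | cons b B ih =>
        intro A st hy hx hl
        obtain ⟨a, A, rfl⟩ : ∃ a A', A = a :: A' := by
          cases A with
          | nil => simp at hl
          | cons a A => exact ⟨a, A, rfl⟩
        have h1 := Ex.prim (qr := qr) (O := O) (fun h r => if r = x ∨ r = y then .pop else
          if r = t then .push (xor ((h x).getD false) ((h y).getD false)) else
          if r = t' then .push ((h y).getD false) else .keep) st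
        have e : (fun r => ((fun (h : R → Sym) r => if r = x ∨ r = y then Op.pop else
          if r = t then .push (xor ((h x).getD false) ((h y).getD false)) else
          if r = t' then .push ((h y).getD false) else .keep) (tops st) r).app (st r)) =
          update (update (update (update st x A) y B) t (xor a b :: st t)) t' (b :: st t') := by
          funext r
          by_cases c1 : r = t'
          · subst c1; simp [hxt'.symm, hyt'.symm, htt'.symm, Op.app, tops, hy]
          · by_cases c2 : r = t
            · subst c2; simp [c1, hxt.symm, hyt.symm, Op.app, tops, hx, hy]
            · by_cases c3 : r = y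
              · subst c3; simp [c1, c2, Op.app, hy]
              · by_cases c4 : r = x
                · subst c4; simp [c1, c2, c3, Op.app, hx]
                · simp [c1, c2, c3, c4, Op.app]
        rw [e] at h1
        have h2 := ih A (update (update (update (update st x A) y B) t (xor a b :: st t)) t'
          (b :: st t')) (by simp [hyt, hyt']) (by simp [hxy, hxt, hxt'])
          (by simpa using hl)
        refine ((Ex.loopStep ?_ h1 h2).of_eq ?_).mono ?_
        · simp [tops, hy]
        · funext r
          by_cases c1 : r = t'
          · subst c1; simp
          · by_cases c2 : r = t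
            · subst c2; simp [c1, xorL, htt']
            · by_cases c3 : r = y
              · subst c3; simp [c1, c2]
              · by_cases c4 : r = x
                · subst c4; simp [c1, c2, c3]
                · simp [c1, c2, c3, c4]
        · simp only [List.length_cons]
          omega
  have h1 := hloop (st y) (st x) st rfl rfl hlen
  set st1 := update (update (update (update st x []) y []) t ((xorL (st x) (st y)).reverse ++ st t))
    t' ((st y).reverse ++ st t') with hst1
  have h2 := mvP_spec (qr := qr) (O := O) t x hxt.symm st1
  set st2 := update (update st1 t []) x ((st1 t).reverse ++ st1 x) with hst2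
  have h3 := mvP_spec (qr := qr) (O := O) t' y hyt'.symm st2
  have e1 : st1 t = (xorL (st x) (st y)).reverse := by simp [hst1, htt', ht]
  have e2 : st1 x = [] := by simp [hst1, hxy, hxt, hxt']
  have e3 : st2 t' = (st y).reverse := by simp [hst2, hst1, hxt'.symm, htt'.symm, ht']
  have e4 : st2 y = [] := by simp [hst2, hst1, hxy.symm, hyt, hyt']
  refine ((h1.seq (h2.seq h3)).of_eq ?_).mono ?_
  · funext r
    by_cases c4 : r = x
    · subst c4
      simp [hst2, hxy, hxt', e1, e2]
    · by_cases c5 : r = y
      · subst c5
        simp only [update_self, e3, e4, List.reverse_reverse, List.append_nil]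
        rw [update_of_ne c4]
      · by_cases c6 : r = t
        · subst c6; simp [hst2, hst1, c4, c5, htt', ht]
        · by_cases c7 : r = t'
          · subst c7; simp [c4, c5, ht']
          · simp [hst2, hst1, c4, c5, c6, c7]
  · rw [e1, e3]
    simp only [List.length_reverse, xorL, List.length_zipWith]
    omega

/-- all bits are true -/
def ovf (l : List Bool) : Bool := l.all id

/-- increment `x` with the help of the empty stack `t`; on overflow (the stack consists of ones
only) the program `c` is executed when `x` has been emptied -/
def incP (x t : R) (c : Prog R) : Prog R :=
  .seq (.loop (fun h => h x == some true)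
    (.prim fun _ r => if r = x then .pop else if r = t then .push false else .keep))
  (.seq (.ite (fun h => (h x).isSome) (.seq (popP x) (pushP x true)) c) (mvP t x))

lemma incLoop_spec (x t : R) (hxt : x ≠ t) :
    ∀ (A : List Bool) (st : R → List Bool), st x = A →
      Ex qr O (.loop (fun h => h x == some true)
        (.prim fun _ r => if r = x then .pop else if r = t then .push false else .keep)) st
        (3 * (A.takeWhile id).length + 1)
        (update (update st x (A.dropWhile id)) t
          (List.replicate (A.takeWhile id).length false ++ st t)) := by
  intro A
  induction A with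
  | nil =>
      intro st hx
      refine ((Ex.loopDone ?_).of_eq ?_).mono (by simp)
      · simp [tops, hx]
      · funext r
        by_cases c1 : r = t
        · subst c1; simp
        · by_cases c2 : r = x
          · subst c2; simp [c1, hx]
          · simp [c1, c2]
  | cons b A ih =>
      intro st hx
      cases b with
      | false =>
          refine ((Ex.loopDone ?_).of_eq ?_).mono (by simp)
          · simp [tops, hx]
          · funext r
            by_cases c1 : r = t
            · subst c1; simp
            · by_cases c2 : r = x
              · subst c2; simp [c1, hx]
              · simp [c1, c2]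
      | true =>
          have h1 := Ex.prim (qr := qr) (O := O) (fun _ r => if r = x then Op.pop else
            if r = t then .push false else .keep) st
          have e : (fun r => ((fun (_ : R → Sym) r => if r = x then Op.pop else
            if r = t then .push false else .keep) (tops st) r).app (st r)) =
            update (update st x A) t (false :: st t) := by
            funext r
            by_cases c1 : r = t
            · subst c1; simp [hxt.symm, Op.app]
            · by_cases c2 : r = x
              · subst c2; simp [c1, Op.app, hx]
              · simp [c1, c2, Op.app]
          rw [e] at h1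
          have h2 := ih (update (update st x A) t (false :: st t)) (by simp [hxt])
          refine ((Ex.loopStep ?_ h1 h2).of_eq ?_).mono ?_
          · simp [tops, hx]
          · funext r
            by_cases c1 : r = t
            · subst c1
              simp only [update_self, List.takeWhile_cons, id_eq, if_true, List.length_cons]
              rw [List.replicate_succ', List.append_assoc]
              rfl
            · by_cases c2 : r = x
              · subst c2; simp [c1]
              · simp [c1, c2]
          · simp only [List.takeWhile_cons, id_eq, if_true, List.length_cons]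
            omega

lemma inc_eq (A : List Bool) : inc A = List.replicate (A.takeWhile id).length false ++
    (match A.dropWhile id with
      | [] => []
      | _ :: r => true :: r) := by
  induction A with
  | nil => rfl
  | cons b A ih =>
      cases b with
      | false => simp [inc]
      | true => simp [inc, ih, List.replicate_succ]

lemma ovf_iff (A : List Bool) : ovf A = true ↔ A.dropWhile id = [] := by
  induction A with
  | nil => simp [ovf]
  | cons b A ih =>
      cases b with
      | false => simp [ovf]
      | true =>
          simp only [ovf, List.all_cons, id_eq, Bool.true_and, List.dropWhile_cons, if_true]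
          exact ih

lemma incx_eq (A : List Bool) : incx A = if ovf A then List.replicate (A.length + 1) false
    else inc A := by
  induction A with
  | nil => simp [incx, ovf]
  | cons b A ih =>
      cases b with
      | false => simp [incx, ovf, inc]
      | true =>
          have e : ovf (true :: A) = ovf A := by simp [ovf]
          rw [e]
          simp only [incx, ih, List.length_cons, inc]
          by_cases h : ovf A = true
          · simp [h, List.replicate_succ]
          · simp [h]

lemma takeWhile_of_ovf (A : List Bool) (h : ovf A = true) : (A.takeWhile id).length = A.length := by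
  have h1 := (ovf_iff A).1 h
  have h2 := List.takeWhile_append_dropWhile (p := id) (l := A)
  rw [h1, List.append_nil] at h2
  rw [h2]

/-- no overflow -/
lemma incP_spec_false (x t : R) (hxt : x ≠ t) (c : Prog R) (st : R → List Bool)
    (ht : st t = []) (ho : ovf (st x) = false) :
    Ex qr O (incP x t c) st (6 * (st x).length + 7) (update st x (inc (st x))) := by
  have hd : (st x).dropWhile id ≠ [] := by
    intro h
    rw [(ovf_iff _).2 h] at ho
    exact absurd ho (by simp)
  obtain ⟨b, r, hbr⟩ := List.exists_cons_of_ne_nil hd
  have h1 := incLoop_spec (qr := qr) (O := O) x t hxt (st x) st rfl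
  set k := ((st x).takeWhile id).length with hk
  have hkl : k ≤ (st x).length := (List.takeWhile_sublist _).length_le
  set st1 := update (update st x ((st x).dropWhile id)) t (List.replicate k false ++ st t)
    with hst1
  have h2 := popP_spec (qr := qr) (O := O) x st1
  have h3 := pushP_spec (qr := qr) (O := O) x true (update st1 x (st1 x).tail)
  set st2 := update (update st1 x (st1 x).tail) x
    (true :: (update st1 x (st1 x).tail) x) with hst2
  have h4 := mvP_spec (qr := qr) (O := O) t x hxt.symm st2
  have e1 : st1 x = b :: r := by simp [hst1, hxt, hbr]
  have e2 : st2 t = List.replicate k false := by simp [hst2, hst1, hxt.symm, ht]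
  have e3 : st2 x = true :: r := by simp [hst2, e1]
  have hcond : (fun h : R → Sym => (h x).isSome) (tops st1) = true := by
    simp [tops, e1]
  refine ((h1.seq ((Ex.iteTrue hcond (h2.seq h3)).seq h4)).of_eq ?_).mono ?_
  · rw [inc_eq, hbr]
    funext z
    by_cases c5 : z = x
    · subst c5
      simp [e2, e3, hk]
    · by_cases c6 : z = t
      · subst c6; simp [c5, ht]
      · simp [hst2, hst1, c5, c6]
  · rw [e2]
    simp only [List.length_replicate]
    omega

/-- overflow -/
lemma incP_spec_true (x t : R) (hxt : x ≠ t) (c : Prog R) (st st' : R → List Bool) (n : ℕ)
    (ho : ovf (st x) = true)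
    (hc : Ex qr O c (update (update st x []) t (List.replicate (st x).length false ++ st t)) n st') :
    Ex qr O (incP x t c) st (3 * (st x).length + 3 * (st' t).length + n + 3)
      (update (update st' t []) x ((st' t).reverse ++ st' x)) := by
  have h1 := incLoop_spec (qr := qr) (O := O) x t hxt (st x) st rfl
  rw [takeWhile_of_ovf _ ho, (ovf_iff _).1 ho] at h1
  have h4 := mvP_spec (qr := qr) (O := O) t x hxt.symm st'
  have hcond : (fun h : R → Sym => (h x).isSome)
      (tops (update (update st x []) t (List.replicate (st x).length false ++ st t))) = false := by
    simp [tops, hxt]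
  refine (h1.seq ((Ex.iteFalse hcond hc).seq h4)).mono ?_
  omega

/-- empty `x`, pushing a one on `y` for every one of `x` -/
def onesP (x y : R) : Prog R := .loop (fun h => (h x).isSome)
  (.prim fun h r => if r = x then .pop else
    if r = y ∧ h x = some true then .push true else .keep)

lemma onesP_spec (x y : R) (hxy : x ≠ y) (st : R → List Bool) :
    Ex qr O (onesP x y) st (3 * (st x).length + 1)
      (update (update st x []) y (List.replicate ((st x).count true) true ++ st y)) := by
  obtain ⟨l, hl⟩ : ∃ l, st x = l := ⟨_, rfl⟩
  rw [hl]
  induction l generalizing st with
  | nil =>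
      refine ((Ex.loopDone ?_).of_eq ?_).mono (by simp)
      · simp [tops, hl]
      · funext r
        by_cases c1 : r = y
        · subst c1; simp
        · by_cases c2 : r = x
          · subst c2; simp [c1, hl]
          · simp [c1, c2]
  | cons b l ih =>
      have h1 := Ex.prim (qr := qr) (O := O) (fun h r => if r = x then Op.pop else
        if r = y ∧ h x = some true then .push true else .keep) st
      have e : (fun r => ((fun (h : R → Sym) r => if r = x then Op.pop else
        if r = y ∧ h x = some true then .push true else .keep) (tops st) r).app (st r)) =
        update (update st x l) y (if b = true then true :: st y else st y) := by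
        funext r
        by_cases c1 : r = y
        · subst c1
          cases b <;> simp [hxy.symm, Op.app, tops, hl]
        · by_cases c2 : r = x
          · subst c2; simp [c1, Op.app, hl]
          · simp [c1, c2, Op.app]
      rw [e] at h1
      have h2 := ih (update (update st x l) y (if b = true then true :: st y else st y))
        (by simp [hxy])
      refine ((Ex.loopStep ?_ h1 h2).of_eq ?_).mono ?_
      · simp [tops, hl]
      · funext r
        by_cases c1 : r = y
        · subst c1
          cases b with
          | false => simp
          | true =>
              simp only [update_self, if_true, List.count_cons_self]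
              rw [List.replicate_succ', List.append_assoc]
              rfl
        · by_cases c2 : r = x
          · subst c2; simp [c1]
          · simp [c1, c2]
      · simp only [List.length_cons]
        omega

end

end Pool.Agent.LibRC
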