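import Mathlib
import Pool.Agent.LibRC.Walk
import Pool.Agent.LibRC.PolyMacro

/-! Facts about counters and xor. -/

set_option autoImplicit false

namespace Pool.Agent.LibRC

/-- the `i`-th string in counter order -/
def Y (n i : ℕ) : List Bool := inc^[i] (List.replicate n false)

lemma Y_zero (n : ℕ) : Y n 0 = List.replicate n false := rfl

lemma Y_succ (n i : ℕ) : Y n (i + 1) = inc (Y n i) := by
  unfold Y
  rw [Function.iterate_succ_apply']

lemma Y_even_odd (n i : ℕ) : Y (n + 1) (2 * i) = false :: Y n i ∧
    Y (n + 1) (2 * i + 1) = true :: Y n i := by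
  induction i with
  | zero =>
      constructor
      · simp [Y_zero, List.replicate_succ]
      · rw [Y_succ, Nat.mul_zero, Y_zero, List.replicate_succ]
        rfl
  | succ i ih =>
      have h1 : Y (n + 1) (2 * (i + 1)) = false :: Y n (i + 1) := by
        rw [show 2 * (i + 1) = (2 * i + 1) + 1 from by ring, Y_succ, ih.2, Y_succ]
        rfl
      refine ⟨h1, ?_⟩
      rw [Y_succ, h1]
      rfl

lemma pl_length_inc (l : List Bool) : (inc l).length = l.length := by
  induction l with
  | nil => rfl
  | cons b l ih => cases b <;> simp [inc, ih]

lemma length_Y (n i : ℕ) : (Y n i).length = n := by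
  induction i with
  | zero => simp [Y_zero]
  | succ i ih => rw [Y_succ, pl_length_inc, ih]

lemma range_two_mul (m : ℕ) :
    List.range (2 * m) = (List.range m).flatMap (fun i => [2 * i, 2 * i + 1]) := by
  induction m with
  | zero => rfl
  | succ m ih =>
      rw [show 2 * (m + 1) = 2 * m + 1 + 1 from by ring, List.range_succ, List.range_succ,
        List.range_succ, List.flatMap_append, ih]
      simp

lemma strs_eq (n : ℕ) : strs n = (List.range (2 ^ n)).map (Y n) := by
  induction n with
  | zero => simp [strs, Y]
  | succ n ih =>
      rw [strs, ih, pow_succ', range_two_mul, List.map_flatMap, List.flatMap_map]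
      congr 1
      funext i
      simp [(Y_even_odd n i).1, (Y_even_odd n i).2]

lemma pl_length_strs (n : ℕ) : (strs n).length = 2 ^ n := by
  rw [strs_eq]
  simp

lemma ovf_Y (n i : ℕ) (hi : i < 2 ^ n) : ovf (Y n i) = true ↔ i + 1 = 2 ^ n := by
  induction n generalizing i with
  | zero =>
      have : i = 0 := by simpa using hi
      subst this
      simp [Y, ovf]
  | succ n ih =>
      rw [pow_succ'] at hi ⊢
      obtain ⟨j, hj | hj⟩ := Nat.even_or_odd' i
      · subst hj
        rw [(Y_even_odd n j).1]
        simp only [ovf, List.all_cons, id_eq, Bool.false_and, Bool.false_eq_true, false_iff]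
        omega
      · subst hj
        rw [(Y_even_odd n j).2]
        have h1 := ih j (by omega)
        simp only [ovf, List.all_cons, id_eq, Bool.true_and] at h1 ⊢
        rw [h1]
        omega

lemma Y_wrap (n : ℕ) : Y n (2 ^ n) = List.replicate n false := by
  induction n with
  | zero => simp [Y, inc]
  | succ n ih => rw [pow_succ', (Y_even_odd n _).1, ih, List.replicate_succ]

lemma idx_eq (s p : ℕ) : idx s p = Y (s - 2) p := rfl

lemma take_strs_succ (n i : ℕ) (hi : i < 2 ^ n) :
    (strs n).take (i + 1) = (strs n).take i ++ [Y n i] := by
  rw [List.take_add_one]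
  congr 1
  rw [strs_eq]
  simp [hi]

/-! ### the level counter -/

/-- value in bijective binary notation -/
def bval : List Bool → ℕ
  | [] => 0
  | b :: l => 2 * bval l + 1 + b.toNat

lemma bval_incx (l : List Bool) : bval (incx l) = bval l + 1 := by
  induction l with
  | nil => rfl
  | cons b l ih =>
      cases b with
      | false => simp [incx, bval]
      | true => simp [incx, bval, ih]; ring

lemma bval_bounds (l : List Bool) : 2 ^ l.length ≤ bval l + 1 ∧ bval l + 1 < 2 ^ (l.length + 1) := by
  induction l with
  | nil => simp [bval]
  | cons b l ih =>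
      obtain ⟨h1, h2⟩ := ih
      have hb : b.toNat ≤ 1 := Bool.toNat_le b
      simp only [bval, List.length_cons]
      rw [pow_succ 2 (l.length + 1)]
      rw [pow_succ] at h2 ⊢
      constructor <;> omega

/-- the level counter -/
def Jc (j : ℕ) : List Bool := incx^[j] []

lemma Jc_succ (j : ℕ) : Jc (j + 1) = incx (Jc j) := by
  unfold Jc
  rw [Function.iterate_succ_apply']

lemma bval_Jc (j : ℕ) : bval (Jc j) = j := by
  induction j with
  | zero => rfl
  | succ j ih => rw [Jc_succ, bval_incx, ih]

lemma length_Jc (j : ℕ) : (Jc j).length = Nat.log 2 (j + 1) := by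
  have h := bval_bounds (Jc j)
  rw [bval_Jc] at h
  symm
  apply (Nat.log_eq_iff (Or.inr ⟨by norm_num, by omega⟩)).2
  exact h

lemma sz_eq (j : ℕ) : sz j = (Jc j).length + 8 := by
  rw [length_Jc]
  rfl

lemma length_incx (l : List Bool) :
    (incx l).length = if ovf l then l.length + 1 else l.length := by
  rw [incx_eq]
  split_ifs <;> simp [pl_length_inc]

lemma sz_succ (j : ℕ) : sz (j + 1) = if ovf (Jc j) then sz j + 1 else sz j := by
  rw [sz_eq, sz_eq, Jc_succ, length_incx]
  split_ifs <;> ring

lemma sz_le (j : ℕ) : sz j ≤ j + 8 := by
  unfold sz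
  have := Nat.log_lt_self 2 (x := j + 1) (by omega)
  omega

lemma two_pow_sz_le (j : ℕ) : 2 ^ sz j ≤ 256 * (j + 1) := by
  unfold sz
  rw [pow_add]
  have := Nat.pow_log_le_self 2 (x := j + 1) (by omega)
  omega

/-! ### xor -/

lemma pl_length_xorL (a b : List Bool) (h : a.length = b.length) : (xorL a b).length = a.length := by
  simp [xorL, h]

lemma pl_xorL_assoc (a b c : List Bool) : xorL (xorL a b) c = xorL a (xorL b c) := by
  unfold xorL
  induction a generalizing b c with
  | nil => simp
  | cons x a ih =>
      cases b with
      | nil => simp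
      | cons y b =>
          cases c with
          | nil => simp
          | cons z c => simp [ih]

lemma pl_xorL_zero (a : List Bool) : xorL a (List.replicate a.length false) = a := by
  unfold xorL
  induction a with
  | nil => rfl
  | cons x a ih => simp [List.replicate_succ, ih]

lemma xorL_count (a b : List Bool) (h : a.length = b.length) :
    (xorL a b).count true = 0 ↔ b = a := by
  unfold xorL
  induction a generalizing b with
  | nil =>
      cases b with
      | nil => simp
      | cons y b => simp at h
  | cons x a ih =>
      cases b with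
      | nil => simp at h
      | cons y b =>
          have h' : a.length = b.length := by simpa using h
          have := ih b h'
          cases x <;> cases y <;> simp [this]

/-- one step of the xor accumulation -/
def accStep (Z : List Bool → Bool) (pre : List Bool) (acc y : List Bool) : List Bool :=
  if Z (pre ++ y) then xorL acc y else acc

lemma length_foldl_accStep (Z : List Bool → Bool) (pre : List Bool) (s : ℕ)
    (ys : List (List Bool)) (hys : ∀ y ∈ ys, y.length = s) (m : List Bool) (hm : m.length = s) :
    (ys.foldl (accStep Z pre) m).length = s := by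
  induction ys generalizing m with
  | nil => exact hm
  | cons y ys ih =>
      rw [List.foldl_cons]
      apply ih (fun z hz => hys z (List.mem_cons_of_mem _ hz))
      have hy := hys y (List.mem_cons_self ..)
      unfold accStep
      split_ifs
      · rw [pl_length_xorL _ _ (by rw [hm, hy]), hm]
      · exact hm

lemma foldl_accStep (Z : List Bool → Bool) (pre : List Bool) (s : ℕ)
    (ys : List (List Bool)) (hys : ∀ y ∈ ys, y.length = s) (m m' : List Bool)
    (hm : m.length = s) (hm' : m'.length = s) :
    ys.foldl (accStep Z pre) (xorL m m') = xorL m (ys.foldl (accStep Z pre) m') := by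
  induction ys generalizing m' with
  | nil => rfl
  | cons y ys ih =>
      have hy := hys y (List.mem_cons_self ..)
      rw [List.foldl_cons, List.foldl_cons]
      have hys' : ∀ z ∈ ys, z.length = s := fun z hz => hys z (List.mem_cons_of_mem _ hz)
      unfold accStep
      split_ifs
      · rw [pl_xorL_assoc]
        exact ih hys' _ (by rw [pl_length_xorL _ _ (by rw [hm', hy]), hm'])
      · exact ih hys' _ hm'

lemma pl_mem_strs (s : ℕ) (y : List Bool) (hy : y ∈ strs s) : y.length = s := by
  rw [strs_eq] at hy
  obtain ⟨i, _, rfl⟩ := List.mem_map.1 hy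
  exact length_Y s i

lemma pl_cellVal_eq (Z : List Bool → Bool) (pre : List Bool) (s : ℕ) :
    cellVal Z pre s = (strs s).foldl (accStep Z pre) (List.replicate s false) := rfl

/-- The test for one cell: starting with the tag, the accumulator ends with all bits zero. -/
lemma cell_test (Z : List Bool → Bool) (pre : List Bool) (s : ℕ) (m : List Bool)
    (hm : m.length = s) :
    ((strs s).foldl (accStep Z pre) m).count true = 0 ↔ cellVal Z pre s = m := by
  have h0 : (List.replicate s false).length = s := by simp
  have h1 : m = xorL m (List.replicate s false) := by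
    conv_lhs => rw [← pl_xorL_zero m]
    rw [hm]
  have h2 := foldl_accStep Z pre s (strs s) (fun y hy => pl_mem_strs s y hy) m
    (List.replicate s false) hm h0
  rw [← h1] at h2
  rw [h2, ← pl_cellVal_eq]
  apply xorL_count
  rw [hm, pl_cellVal_eq, length_foldl_accStep Z pre s _ (fun y hy => pl_mem_strs s y hy) _ h0]

end Pool.Agent.LibRC
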