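import Mathlib
import Pool.Agent.LibRC.PolyCount

/-! The program for the decoding procedure. -/

set_option autoImplicit false

namespace Pool.Agent.LibRC

open Function

/-- the stacks of the program -/
inductive RR
  | w
  | u
  | v
  | a
  | na
  | z
  | j
  | p
  | c
  | y
  | g
  | acc
  | q
  | t
  | t2
  | fc
  | fy
  | nz
  | r
  deriving DecidableEq

instance : Fintype RR where
  elems := {.w, .u, .v, .a, .na, .z, .j, .p, .c, .y, .g, .acc, .q, .t, .t2, .fc, .fy, .nz, .r}
  complete := by intro x; cases x <;> simp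

/-- a state of the stacks -/
structure Sig where
  w : List Bool
  u : List Bool
  v : List Bool
  a : List Bool
  na : List Bool
  z : List Bool
  j : List Bool
  p : List Bool
  c : List Bool
  y : List Bool
  g : List Bool
  acc : List Bool
  q : List Bool
  t : List Bool
  t2 : List Bool
  fc : List Bool
  fy : List Bool
  nz : List Bool
  r : List Bool

/-- the state as a function -/
def Sig.fn (s : Sig) : RR → List Bool
  | .w => s.w
  | .u => s.u
  | .v => s.v
  | .a => s.a
  | .na => s.na
  | .z => s.z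
  | .j => s.j
  | .p => s.p
  | .c => s.c
  | .y => s.y
  | .g => s.g
  | .acc => s.acc
  | .q => s.q
  | .t => s.t
  | .t2 => s.t2
  | .fc => s.fc
  | .fy => s.fy
  | .nz => s.nz
  | .r => s.r

lemma Sig.fn_w (s : Sig) : s.fn .w = s.w := rfl
lemma Sig.fn_u (s : Sig) : s.fn .u = s.u := rfl
lemma Sig.fn_v (s : Sig) : s.fn .v = s.v := rfl
lemma Sig.fn_a (s : Sig) : s.fn .a = s.a := rfl
lemma Sig.fn_na (s : Sig) : s.fn .na = s.na := rfl
lemma Sig.fn_z (s : Sig) : s.fn .z = s.z := rfl
lemma Sig.fn_j (s : Sig) : s.fn .j = s.j := rfl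
lemma Sig.fn_p (s : Sig) : s.fn .p = s.p := rfl
lemma Sig.fn_c (s : Sig) : s.fn .c = s.c := rfl
lemma Sig.fn_y (s : Sig) : s.fn .y = s.y := rfl
lemma Sig.fn_g (s : Sig) : s.fn .g = s.g := rfl
lemma Sig.fn_acc (s : Sig) : s.fn .acc = s.acc := rfl
lemma Sig.fn_q (s : Sig) : s.fn .q = s.q := rfl
lemma Sig.fn_t (s : Sig) : s.fn .t = s.t := rfl
lemma Sig.fn_t2 (s : Sig) : s.fn .t2 = s.t2 := rfl
lemma Sig.fn_fc (s : Sig) : s.fn .fc = s.fc := rfl
lemma Sig.fn_fy (s : Sig) : s.fn .fy = s.fy := rfl
lemma Sig.fn_nz (s : Sig) : s.fn .nz = s.nz := rfl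
lemma Sig.fn_r (s : Sig) : s.fn .r = s.r := rfl

lemma Sig.upd_w (s : Sig) (l : List Bool) :
    update s.fn .w l = Sig.fn { s with w := l } := by
  funext x; cases x <;> rfl
lemma Sig.upd_u (s : Sig) (l : List Bool) :
    update s.fn .u l = Sig.fn { s with u := l } := by
  funext x; cases x <;> rfl
lemma Sig.upd_v (s : Sig) (l : List Bool) :
    update s.fn .v l = Sig.fn { s with v := l } := by
  funext x; cases x <;> rfl
lemma Sig.upd_a (s : Sig) (l : List Bool) :
    update s.fn .a l = Sig.fn { s with a := l } := by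
  funext x; cases x <;> rfl
lemma Sig.upd_na (s : Sig) (l : List Bool) :
    update s.fn .na l = Sig.fn { s with na := l } := by
  funext x; cases x <;> rfl
lemma Sig.upd_z (s : Sig) (l : List Bool) :
    update s.fn .z l = Sig.fn { s with z := l } := by
  funext x; cases x <;> rfl
lemma Sig.upd_j (s : Sig) (l : List Bool) :
    update s.fn .j l = Sig.fn { s with j := l } := by
  funext x; cases x <;> rfl
lemma Sig.upd_p (s : Sig) (l : List Bool) :
    update s.fn .p l = Sig.fn { s with p := l } := by
  funext x; cases x <;> rfl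
lemma Sig.upd_c (s : Sig) (l : List Bool) :
    update s.fn .c l = Sig.fn { s with c := l } := by
  funext x; cases x <;> rfl
lemma Sig.upd_y (s : Sig) (l : List Bool) :
    update s.fn .y l = Sig.fn { s with y := l } := by
  funext x; cases x <;> rfl
lemma Sig.upd_g (s : Sig) (l : List Bool) :
    update s.fn .g l = Sig.fn { s with g := l } := by
  funext x; cases x <;> rfl
lemma Sig.upd_acc (s : Sig) (l : List Bool) :
    update s.fn .acc l = Sig.fn { s with acc := l } := by
  funext x; cases x <;> rfl
lemma Sig.upd_q (s : Sig) (l : List Bool) :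
    update s.fn .q l = Sig.fn { s with q := l } := by
  funext x; cases x <;> rfl
lemma Sig.upd_t (s : Sig) (l : List Bool) :
    update s.fn .t l = Sig.fn { s with t := l } := by
  funext x; cases x <;> rfl
lemma Sig.upd_t2 (s : Sig) (l : List Bool) :
    update s.fn .t2 l = Sig.fn { s with t2 := l } := by
  funext x; cases x <;> rfl
lemma Sig.upd_fc (s : Sig) (l : List Bool) :
    update s.fn .fc l = Sig.fn { s with fc := l } := by
  funext x; cases x <;> rfl
lemma Sig.upd_fy (s : Sig) (l : List Bool) :
    update s.fn .fy l = Sig.fn { s with fy := l } := by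
  funext x; cases x <;> rfl
lemma Sig.upd_nz (s : Sig) (l : List Bool) :
    update s.fn .nz l = Sig.fn { s with nz := l } := by
  funext x; cases x <;> rfl
lemma Sig.upd_r (s : Sig) (l : List Bool) :
    update s.fn .r l = Sig.fn { s with r := l } := by
  funext x; cases x <;> rfl

end Pool.Agent.LibRC
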