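import Mathlib
import Pool.Agent.LibRC.PolySig

/-! The program testing whether a region shows a tag. -/

set_option autoImplicit false

namespace Pool.Agent.LibRC

open Function

open Classical in
/-- removed strings -/
noncomputable def ZO (O : Set (List Bool)) (x : List Bool) : Bool := decide (x ∉ O)

variable {O : Set (List Bool)}

/-- probe one position -/
def probeP : Prog RR := .seq (cpP .y .q .t) (.seq (cpP .c .q .t) (.seq (cpP .a .q .t)
  (.seq (.query skipP (xorP .acc .y .t .t2)) (clearP .q))))

lemma probeP_spec (s : Sig) (hq : s.q = []) (ht : s.t = []) (ht2 : s.t2 = [])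
    (hlen : s.acc.length = s.y.length) :
    Ex .q O probeP s.fn (18 * s.y.length + 9 * s.c.length + 9 * s.a.length + 11)
      (Sig.fn { s with acc := accStep (ZO O) (s.a ++ s.c) s.acc s.y }) := by
  have h1 := cpP_spec (qr := RR.q) (O := O) .y .q .t (by decide) (by decide) (by decide) s.fn ht
  simp only [Sig.fn_y, Sig.fn_q, Sig.upd_q, hq, List.append_nil] at h1
  have h2 := cpP_spec (qr := RR.q) (O := O) .c .q .t (by decide) (by decide) (by decide)
    (Sig.fn { s with q := s.y }) ht
  simp only [Sig.fn_c, Sig.fn_q, Sig.upd_q] at h2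
  have h3 := cpP_spec (qr := RR.q) (O := O) .a .q .t (by decide) (by decide) (by decide)
    (Sig.fn { s with q := s.c ++ s.y }) ht
  simp only [Sig.fn_a, Sig.fn_q, Sig.upd_q] at h3
  have h4 : Ex .q O (.query skipP (xorP .acc .y .t .t2)) (Sig.fn { s with q := s.a ++ (s.c ++ s.y) })
      (9 * s.y.length + 4) (Sig.fn { s with
        q := s.a ++ (s.c ++ s.y)
        acc := accStep (ZO O) (s.a ++ s.c) s.acc s.y }) := by
    by_cases hO : s.a ++ (s.c ++ s.y) ∈ O
    · have h5 := Ex.queryYes (qr := RR.q) (O := O) (b := xorP .acc .y .t .t2)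
        (st := Sig.fn { s with q := s.a ++ (s.c ++ s.y) }) hO (skipP_spec _)
      refine (h5.of_eq ?_).mono (by omega)
      have : accStep (ZO O) (s.a ++ s.c) s.acc s.y = s.acc := by
        simp [accStep, ZO, hO]
      rw [this]
    · have h6 := xorP_spec (qr := RR.q) (O := O) .acc .y .t .t2 (by decide) (by decide) (by decide)
        (by decide) (by decide) (by decide) (Sig.fn { s with q := s.a ++ (s.c ++ s.y) }) ht ht2
        hlen
      simp only [Sig.fn_acc, Sig.fn_y, Sig.upd_acc] at h6
      have h5 := Ex.queryNo (qr := RR.q) (O := O) (a := skipP) hO h6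
      refine (h5.of_eq ?_).mono (by omega)
      have : accStep (ZO O) (s.a ++ s.c) s.acc s.y = xorL s.acc s.y := by
        simp [accStep, ZO, hO]
      rw [this]
  have h7 := clearP_spec (qr := RR.q) (O := O) .q (Sig.fn { s with
        q := s.a ++ (s.c ++ s.y)
        acc := accStep (ZO O) (s.a ++ s.c) s.acc s.y })
  simp only [Sig.fn_q, Sig.upd_q] at h7
  refine ((h1.seq (h2.seq (h3.seq (h4.seq h7)))).of_eq ?_).mono ?_
  · rw [← hq]
  · simp only [List.length_append]
    omega

/-- increment with overflow flag, on the stack `y` -/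
lemma incY_spec (s : Sig) (ht : s.t = []) (n i : ℕ) (hi : i < 2 ^ n) (hy : s.y = Y n i)
    (hfy : s.fy = []) :
    Ex .q O (incP .y .t (pushP .fy true)) s.fn (6 * n + 7)
      (Sig.fn { s with y := Y n (i + 1), fy := if i + 1 < 2 ^ n then [] else [true] }) := by
  by_cases hov : ovf s.y = true
  · have h1 := pushP_spec (qr := RR.q) (O := O) .fy true
      (update (update s.fn .y []) .t (List.replicate (s.fn .y).length false ++ s.fn .t))
    have h2 := incP_spec_true (qr := RR.q) (O := O) .y .t (by decide) _ s.fn _ _ hov h1
    simp only [Sig.fn_y, Sig.fn_t, Sig.fn_fy, Sig.upd_y, Sig.upd_t, Sig.upd_fy, ht, hfy,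
      List.append_nil, List.length_replicate, List.reverse_replicate] at h2
    have hi1 : i + 1 = 2 ^ n := (ovf_Y n i hi).1 (hy ▸ hov)
    have hlen : s.y.length = n := by rw [hy, length_Y]
    refine (h2.of_eq ?_).mono ?_
    · rw [hi1, Y_wrap, hlen]
      simp only [lt_irrefl, if_false]
      rw [← ht]
    · rw [hlen]
      omega
  · have hov' : ovf s.y = false := by simpa using hov
    have h2 := incP_spec_false (qr := RR.q) (O := O) .y .t (by decide) (pushP .fy true) s.fn ht hov'
    simp only [Sig.fn_y, Sig.upd_y] at h2
    have hlen : s.y.length = n := by rw [hy, length_Y]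
    have hi1 : i + 1 ≠ 2 ^ n := by
      intro h
      rw [hy, (ovf_Y n i hi).2 h] at hov
      exact hov rfl
    refine (h2.of_eq ?_).mono ?_
    · rw [if_pos (by omega), Y_succ, ← hy, ← hfy]
    · rw [hlen]

/-- increment with overflow flag, on the stack `c` -/
lemma incC_spec (s : Sig) (ht : s.t = []) (n i : ℕ) (hi : i < 2 ^ n) (hy : s.c = Y n i)
    (hfy : s.fc = []) :
    Ex .q O (incP .c .t (pushP .fc true)) s.fn (6 * n + 7)
      (Sig.fn { s with c := Y n (i + 1), fc := if i + 1 < 2 ^ n then [] else [true] }) := by
  by_cases hov : ovf s.c = true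
  · have h1 := pushP_spec (qr := RR.q) (O := O) .fc true
      (update (update s.fn .c []) .t (List.replicate (s.fn .c).length false ++ s.fn .t))
    have h2 := incP_spec_true (qr := RR.q) (O := O) .c .t (by decide) _ s.fn _ _ hov h1
    simp only [Sig.fn_c, Sig.fn_t, Sig.fn_fc, Sig.upd_c, Sig.upd_t, Sig.upd_fc, ht, hfy,
      List.append_nil, List.length_replicate, List.reverse_replicate] at h2
    have hi1 : i + 1 = 2 ^ n := (ovf_Y n i hi).1 (hy ▸ hov)
    have hlen : s.c.length = n := by rw [hy, length_Y]
    refine (h2.of_eq ?_).mono ?_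
    · rw [hi1, Y_wrap, hlen]
      simp only [lt_irrefl, if_false]
      rw [← ht]
    · rw [hlen]
      omega
  · have hov' : ovf s.c = false := by simpa using hov
    have h2 := incP_spec_false (qr := RR.q) (O := O) .c .t (by decide) (pushP .fc true) s.fn ht hov'
    simp only [Sig.fn_c, Sig.upd_c] at h2
    have hlen : s.c.length = n := by rw [hy, length_Y]
    have hi1 : i + 1 ≠ 2 ^ n := by
      intro h
      rw [hy, (ovf_Y n i hi).2 h] at hov
      exact hov rfl
    refine (h2.of_eq ?_).mono ?_
    · rw [if_pos (by omega), Y_succ, ← hy, ← hfy]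
    · rw [hlen]

/-- loop over all positions -/
def yLoop : Prog RR := .loop (fun h => (h .fy).isNone)
  (.seq probeP (incP .y .t (pushP .fy true)))

lemma yLoop_spec (s : Sig) (n : ℕ) (hq : s.q = []) (ht : s.t = []) (ht2 : s.t2 = [])
    (hfy : s.fy = []) (hy : s.y = List.replicate n false) (hacc : s.acc.length = n)
    (hc : s.c.length = n) :
    Ex .q O yLoop s.fn (2 ^ n * (33 * n + 9 * s.a.length + 19) + 1)
      (Sig.fn { s with
        fy := [true]
        acc := (strs n).foldl (accStep (ZO O) (s.a ++ s.c)) s.acc }) := by
  let σ : ℕ → RR → List Bool := fun i => Sig.fn { s with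
    y := Y n i
    fy := if i < 2 ^ n then [] else [true]
    acc := ((strs n).take i).foldl (accStep (ZO O) (s.a ++ s.c)) s.acc }
  have h0 : s.fn = σ 0 := by
    simp only [σ]
    rw [if_pos (by positivity), Y_zero, List.take_zero, List.foldl_nil, ← hy, ← hfy]
  have hlast : σ (2 ^ n) = Sig.fn { s with
        fy := [true]
        acc := (strs n).foldl (accStep (ZO O) (s.a ++ s.c)) s.acc } := by
    simp only [σ]
    rw [if_neg (lt_irrefl _), Y_wrap, ← hy, List.take_of_length_le (pl_length_strs n).le]
  have hiter := Ex.loopIter (qr := RR.q) (O := O) (cond := fun h => (h .fy).isNone)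
    (a := .seq probeP (incP .y .t (pushP .fy true))) (2 ^ n) (33 * n + 9 * s.a.length + 18) σ
    (by
      intro i hi
      simp [σ, tops, Sig.fn, hi])
    (by
      simp [σ, tops, Sig.fn])
    (by
      intro i hi
      have hlen : (((strs n).take i).foldl (accStep (ZO O) (s.a ++ s.c)) s.acc).length =
          (Y n i).length := by
        rw [length_Y]
        exact length_foldl_accStep _ _ _ _ (fun y hy => pl_mem_strs n y (List.mem_of_mem_take hy)) _
          hacc
      have h1 := probeP_spec (O := O) { s with
        y := Y n i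
        fy := if i < 2 ^ n then [] else [true]
        acc := ((strs n).take i).foldl (accStep (ZO O) (s.a ++ s.c)) s.acc } hq ht ht2 hlen
      have h2 := incY_spec (O := O) { s with
        y := Y n i
        fy := if i < 2 ^ n then [] else [true]
        acc := accStep (ZO O) (s.a ++ s.c) (((strs n).take i).foldl
          (accStep (ZO O) (s.a ++ s.c)) s.acc) (Y n i) } ht n i hi rfl
          (by simp [hi])
      refine ((h1.seq h2).of_eq ?_).mono ?_
      · simp only [σ]
        rw [take_strs_succ n i hi, List.foldl_append, List.foldl_cons, List.foldl_nil]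
      · simp only [length_Y, hc]
        omega)
  rw [h0, ← hlast]
  exact hiter.mono (by ring_nf; exact le_rfl)

/-- test of one cell -/
def cellP : Prog RR := .seq (cpP .z .y .t) (.seq (cpP .g .acc .t) (.seq yLoop (.seq (clearP .fy)
  (.seq (clearP .y) (.seq (onesP .acc .nz)
    (.ite (fun h => (h .nz).isSome) (clearP .nz) (pushP .r true)))))))

lemma cellP_spec (s : Sig) (n : ℕ) (hq : s.q = []) (ht : s.t = []) (ht2 : s.t2 = [])
    (hfy : s.fy = []) (hy : s.y = []) (hacc : s.acc = []) (hnz : s.nz = [])
    (hz : s.z = List.replicate n false) (hg : s.g.length = n) (hc : s.c.length = n) :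
    Ex .q O cellP s.fn (2 ^ n * (33 * n + 9 * s.a.length + 19) + (21 * n + 16))
      (Sig.fn { s with
        r := if cellVal (ZO O) (s.a ++ s.c) n == s.g then true :: s.r else s.r }) := by
  obtain ⟨w, u, v, a, na, z, j, p, c, y, g, acc, q, t, t2, fc, fy, nz, r⟩ := s
  simp only at hq ht ht2 hfy hy hacc hnz hz hg hc
  subst hq ht ht2 hfy hy hacc hnz hz
  simp only
  have h1 := cpP_spec (qr := RR.q) (O := O) .z .y .t (by decide) (by decide) (by decide)
    (Sig.fn ⟨w, u, v, a, na, List.replicate n false, j, p, c, [], g, [], [], [], [], fc, [], [], r⟩)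
    rfl
  simp only [Sig.fn_z, Sig.fn_y, Sig.upd_y, List.append_nil] at h1
  have h2 := cpP_spec (qr := RR.q) (O := O) .g .acc .t (by decide) (by decide) (by decide)
    (Sig.fn ⟨w, u, v, a, na, List.replicate n false, j, p, c, List.replicate n false, g, [], [], [],
      [], fc, [], [], r⟩) rfl
  simp only [Sig.fn_g, Sig.fn_acc, Sig.upd_acc, List.append_nil] at h2
  have h3 := yLoop_spec (O := O) ⟨w, u, v, a, na, List.replicate n false, j, p, c,
    List.replicate n false, g, g, [], [], [], fc, [], [], r⟩ n rfl rfl rfl rfl rfl hg hc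
  simp only at h3
  set acc' := (strs n).foldl (accStep (ZO O) (a ++ c)) g with hacc'
  have hlen' : acc'.length = n :=
    length_foldl_accStep _ _ _ _ (fun y hy => pl_mem_strs n y hy) _ hg
  have h4 := clearP_spec (qr := RR.q) (O := O) .fy (Sig.fn ⟨w, u, v, a, na,
    List.replicate n false, j, p, c, List.replicate n false, g, acc', [], [], [], fc, [true], [], r⟩)
  simp only [Sig.fn_fy, Sig.upd_fy] at h4
  have h5 := clearP_spec (qr := RR.q) (O := O) .y (Sig.fn ⟨w, u, v, a, na,
    List.replicate n false, j, p, c, List.replicate n false, g, acc', [], [], [], fc, [], [], r⟩)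
  simp only [Sig.fn_y, Sig.upd_y] at h5
  have h6 := onesP_spec (qr := RR.q) (O := O) .acc .nz (by decide) (Sig.fn ⟨w, u, v, a, na,
    List.replicate n false, j, p, c, [], g, acc', [], [], [], fc, [], [], r⟩)
  simp only [Sig.fn_acc, Sig.fn_nz, Sig.upd_acc, Sig.upd_nz, List.append_nil] at h6
  have h7 : Ex .q O (.ite (fun h => (h .nz).isSome) (clearP .nz) (pushP .r true))
      (Sig.fn ⟨w, u, v, a, na, List.replicate n false, j, p, c, [], g, [], [], [], [], fc, [],
        List.replicate (acc'.count true) true, r⟩) (3 * n + 3)
      (Sig.fn ⟨w, u, v, a, na, List.replicate n false, j, p, c, [], g, [], [], [], [], fc, [],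
        [], if cellVal (ZO O) (a ++ c) n == g then true :: r else r⟩) := by
    have hcount : acc'.count true ≤ n := by
      rw [← hlen']
      exact List.count_le_length
    by_cases h0 : acc'.count true = 0
    · have hval : cellVal (ZO O) (a ++ c) n = g := (cell_test _ _ _ _ hg).1 h0
      have h8 := pushP_spec (qr := RR.q) (O := O) .r true (Sig.fn ⟨w, u, v, a, na,
        List.replicate n false, j, p, c, [], g, [], [], [], [], fc, [],
        List.replicate (acc'.count true) true, r⟩)
      simp only [Sig.fn_r, Sig.upd_r] at h8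
      have h9 := Ex.iteFalse (cond := fun h => (h RR.nz).isSome) (a := clearP RR.nz) (by
        simp [tops, Sig.fn, h0]) h8
      refine (h9.of_eq ?_).mono (by omega)
      rw [h0, List.replicate_zero, hval]
      simp only [beq_self_eq_true, if_true]
    · have hval : cellVal (ZO O) (a ++ c) n ≠ g := fun h => h0 ((cell_test _ _ _ _ hg).2 h)
      have h8 := clearP_spec (qr := RR.q) (O := O) .nz (Sig.fn ⟨w, u, v, a, na,
        List.replicate n false, j, p, c, [], g, [], [], [], [], fc, [],
        List.replicate (acc'.count true) true, r⟩)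
      simp only [Sig.fn_nz, Sig.upd_nz, List.length_replicate] at h8
      have h9 := Ex.iteTrue (cond := fun h => (h RR.nz).isSome) (b := pushP RR.r true) (by
        simp only [tops, Sig.fn, List.head?_replicate, h0, if_false]
        rfl) h8
      refine (h9.of_eq ?_).mono (by omega)
      rw [if_neg (by simpa using hval)]
  refine ((h1.seq (h2.seq (h3.seq (h4.seq (h5.seq (h6.seq h7)))))).of_eq rfl).mono ?_
  rw [hg, hlen']
  simp only [List.length_replicate, List.length_cons, List.length_nil]
  omega

/-- the value of the result stack after the test of some cells -/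
noncomputable def rStep (O : Set (List Bool)) (a g : List Bool) (n : ℕ) (r c : List Bool) :
    List Bool :=
  if cellVal (ZO O) (a ++ c) n == g then true :: r else r

/-- test whether the region shows the tag -/
def showsP : Prog RR := .seq (cpP .z .c .t) (.seq
  (.loop (fun h => (h .fc).isNone) (.seq cellP (incP .c .t (pushP .fc true))))
  (.seq (clearP .fc) (clearP .c)))

lemma showsP_spec (s : Sig) (n : ℕ) (hq : s.q = []) (ht : s.t = []) (ht2 : s.t2 = [])
    (hfy : s.fy = []) (hy : s.y = []) (hacc : s.acc = []) (hnz : s.nz = []) (hc : s.c = [])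
    (hfc : s.fc = []) (hz : s.z = List.replicate n false) (hg : s.g.length = n) :
    Ex .q O showsP s.fn
      (2 ^ n * (2 ^ n * (33 * n + 9 * s.a.length + 19) + (27 * n + 24)) + (9 * n + 8))
      (Sig.fn { s with
        r := (strs n).foldl (rStep O s.a s.g n) s.r }) := by
  have h1 := cpP_spec (qr := RR.q) (O := O) .z .c .t (by decide) (by decide) (by decide) s.fn ht
  simp only [Sig.fn_z, Sig.fn_c, Sig.upd_c, hc, List.append_nil] at h1
  let σ : ℕ → RR → List Bool := fun i => Sig.fn { s with
    c := Y n i
    fc := if i < 2 ^ n then [] else [true]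
    r := ((strs n).take i).foldl (rStep O s.a s.g n) s.r }
  have h0 : Sig.fn { s with c := s.z } = σ 0 := by
    simp only [σ]
    rw [if_pos (by positivity), Y_zero, List.take_zero, List.foldl_nil, ← hz, ← hfc]
  have hlast : σ (2 ^ n) = Sig.fn { s with
        c := List.replicate n false
        fc := [true]
        r := (strs n).foldl (rStep O s.a s.g n) s.r } := by
    simp only [σ]
    rw [if_neg (lt_irrefl _), Y_wrap, List.take_of_length_le (pl_length_strs n).le]
  have hiter := Ex.loopIter (qr := RR.q) (O := O) (cond := fun h => (h .fc).isNone)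
    (a := .seq cellP (incP .c .t (pushP .fc true))) (2 ^ n)
    (2 ^ n * (33 * n + 9 * s.a.length + 19) + (27 * n + 23)) σ
    (by
      intro i hi
      simp [σ, tops, Sig.fn, hi])
    (by
      simp [σ, tops, Sig.fn])
    (by
      intro i hi
      have h1 := cellP_spec (O := O) { s with
        c := Y n i
        fc := if i < 2 ^ n then [] else [true]
        r := ((strs n).take i).foldl (rStep O s.a s.g n) s.r } n hq ht ht2 hfy hy hacc hnz hz hg
        (length_Y n i)
      have h2 := incC_spec (O := O) { s with
        c := Y n i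
        fc := if i < 2 ^ n then [] else [true]
        r := rStep O s.a s.g n (((strs n).take i).foldl (rStep O s.a s.g n) s.r) (Y n i) } ht n i hi
          rfl (by simp [hi])
      refine ((h1.seq h2).of_eq ?_).mono ?_
      · simp only [σ]
        rw [take_strs_succ n i hi, List.foldl_append, List.foldl_cons, List.foldl_nil]
      · simp only
        omega)
  rw [← h0, hlast] at hiter
  have h3 := clearP_spec (qr := RR.q) (O := O) .fc (Sig.fn { s with
        c := List.replicate n false
        fc := [true]
        r := (strs n).foldl (rStep O s.a s.g n) s.r })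
  simp only [Sig.fn_fc, Sig.upd_fc] at h3
  have h4 := clearP_spec (qr := RR.q) (O := O) .c (Sig.fn { s with
        c := List.replicate n false
        fc := []
        r := (strs n).foldl (rStep O s.a s.g n) s.r })
  simp only [Sig.fn_c, Sig.upd_c] at h4
  refine ((h1.seq (hiter.seq (h3.seq h4))).of_eq ?_).mono ?_
  · cases s
    simp_all
  · rw [hz]
    simp only [List.length_replicate, List.length_cons, List.length_nil]
    have : 2 ^ n * (2 ^ n * (33 * n + 9 * s.a.length + 19) + (27 * n + 23) + 1) =
      2 ^ n * (2 ^ n * (33 * n + 9 * s.a.length + 19) + (27 * n + 24)) := by ring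
    omega

lemma rStep_ne_nil (a g : List Bool) (n : ℕ) (cs : List (List Bool)) (r : List Bool) :
    cs.foldl (rStep O a g n) r ≠ [] ↔ r ≠ [] ∨
      (cs.any fun c => cellVal (ZO O) (a ++ c) n == g) = true := by
  induction cs generalizing r with
  | nil => simp
  | cons c cs ih =>
      rw [List.foldl_cons, ih, List.any_cons]
      unfold rStep
      by_cases h : (cellVal (ZO O) (a ++ c) n == g) = true
      · simp [h]
      · simp [h]

lemma length_rStep (a g : List Bool) (n : ℕ) (cs : List (List Bool)) (r : List Bool) :
    (cs.foldl (rStep O a g n) r).length ≤ cs.length + r.length := by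
  induction cs generalizing r with
  | nil => simp
  | cons c cs ih =>
      rw [List.foldl_cons]
      refine (ih _).trans ?_
      unfold rStep
      split_ifs
      · simp only [List.length_cons]
        omega
      · simp only [List.length_cons]
        omega

lemma pl_shows_iff (a g : List Bool) (n : ℕ) :
    (strs n).foldl (rStep O a g n) [] ≠ [] ↔ shows (ZO O) a n g = true := by
  rw [rStep_ne_nil]
  simp [shows]

end Pool.Agent.LibRC
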