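import Mathlib
import Pool.Agent.LibRC.PolyShows

/-! The decoding procedure runs in polynomial time on an oracle Turing machine. -/

set_option autoImplicit false

namespace Pool.Agent.LibRC

open Function

variable {O : Set (List Bool)}

/-- states with empty auxiliary stacks -/
def SS (w u v a na z j p g r : List Bool) : Sig :=
  ⟨w, u, v, a, na, z, j, p, [], [], g, [], [], [], [], [], [], [], r⟩

lemma shows_time (n A M : ℕ) (hM : 1 ≤ M) (hn : n ≤ M) (h2 : 2 ^ n ≤ 256 * M) (hA : A ≤ 2 * M) :
    2 ^ n * (2 ^ n * (33 * n + 9 * A + 19) + (27 * n + 24)) + (9 * n + 8) ≤ 5000000 * M ^ 3 := by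
  have e1 : 33 * n + 9 * A + 19 ≤ 70 * M := by omega
  have e2 : 2 ^ n * (33 * n + 9 * A + 19) ≤ 256 * M * (70 * M) := Nat.mul_le_mul h2 e1
  have hM2 : M ≤ M ^ 2 := by nlinarith
  have hM3 : M ^ 2 ≤ M ^ 3 := by
    have : M ^ 3 = M ^ 2 * M := by ring
    rw [this]
    exact Nat.le_mul_of_pos_right _ hM
  have e3 : 2 ^ n * (33 * n + 9 * A + 19) + (27 * n + 24) ≤ 17971 * M ^ 2 := by
    have : 256 * M * (70 * M) = 17920 * M ^ 2 := by ring
    omega
  have e4 : 2 ^ n * (2 ^ n * (33 * n + 9 * A + 19) + (27 * n + 24)) ≤
      256 * M * (17971 * M ^ 2) := Nat.mul_le_mul h2 e3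
  have e5 : 256 * M * (17971 * M ^ 2) = 4600576 * M ^ 3 := by ring
  omega

lemma showsS (w u v a na j p g r : List Bool) (n M : ℕ) (hM : 1 ≤ M) (hn : n ≤ M)
    (h2 : 2 ^ n ≤ 256 * M) (hA : a.length ≤ 2 * M) (hg : g.length = n) :
    Ex .q O showsP (SS w u v a na (List.replicate n false) j p g r).fn (5000000 * M ^ 3)
      (SS w u v a na (List.replicate n false) j p g ((strs n).foldl (rStep O a g n) r)).fn :=
  (showsP_spec (O := O) (SS w u v a na (List.replicate n false) j p g r) n rfl rfl rfl rfl rfl
    rfl rfl rfl rfl rfl hg).mono (shows_time n a.length M hM hn h2 hA)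

/-- write the tag of a pointer -/
def tagP : Prog RR := .seq (cpP .p .g .t) (.seq
  (.prim fun h x => if x = .g then .push ((h .u).getD false) else .keep) (pushP .g true))

lemma tagP_spec (w u v a na z j p r : List Bool) (d : Bool) (M : ℕ) (hp : p.length ≤ M)
    (hM : 1 ≤ M) :
    Ex .q O tagP (SS w (d :: u) v a na z j p [] r).fn (12 * M)
      (SS w (d :: u) v a na z j p (true :: d :: p) r).fn := by
  have h1 := cpP_spec (qr := RR.q) (O := O) .p .g .t (by decide) (by decide) (by decide)
    (SS w (d :: u) v a na z j p [] r).fn rfl
  simp only [Sig.fn_p, Sig.fn_g, Sig.upd_g] at h1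
  have h2 := Ex.prim (qr := RR.q) (O := O)
    (fun h x => if x = RR.g then Op.push ((h .u).getD false) else .keep)
    (SS w (d :: u) v a na z j p p r).fn
  have e2 : (fun x => ((fun (h : RR → Sym) x => if x = RR.g then
      Op.push ((h .u).getD false) else .keep) (tops (SS w (d :: u) v a na z j p p r).fn) x).app
      ((SS w (d :: u) v a na z j p p r).fn x)) = (SS w (d :: u) v a na z j p (d :: p) r).fn := by
    funext x
    cases x <;> rfl
  rw [e2] at h2
  have h3 := pushP_spec (qr := RR.q) (O := O) .g true (SS w (d :: u) v a na z j p (d :: p) r).fn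
  simp only [Sig.fn_g, Sig.upd_g] at h3
  have h1' : Ex .q O (cpP .p .g .t) (SS w (d :: u) v a na z j p [] r).fn (6 * p.length + 2)
      (SS w (d :: u) v a na z j p p r).fn := by
    refine h1.of_eq ?_
    simp [SS]
  refine ((h1'.seq (h2.seq h3)).of_eq rfl).mono ?_
  omega

lemma inc_of_ovf (l : List Bool) (h : ovf l = true) : inc l = List.replicate l.length false := by
  rw [inc_eq, (ovf_iff l).1 h, takeWhile_of_ovf l h]
  simp

lemma incP_p_spec (w u v a na z j p g r : List Bool) :
    Ex .q O (incP .p .t skipP) (SS w u v a na z j p g r).fn (6 * p.length + 7)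
      (SS w u v a na z j (inc p) g r).fn := by
  by_cases hov : ovf p = true
  · have h1 := skipP_spec (qr := RR.q) (O := O) (update (update (SS w u v a na z j p g r).fn .p []) .t
      (List.replicate ((SS w u v a na z j p g r).fn .p).length false ++
        (SS w u v a na z j p g r).fn .t))
    have h2 := incP_spec_true (qr := RR.q) (O := O) .p .t (by decide) _
      (SS w u v a na z j p g r).fn _ _ hov h1
    simp only [Sig.fn_p, Sig.fn_t, Sig.upd_p, Sig.upd_t] at h2
    refine (h2.of_eq ?_).mono ?_
    · rw [inc_of_ovf p hov]
      simp [SS]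
    · simp [SS]
      omega
  · have h2 := incP_spec_false (qr := RR.q) (O := O) .p .t (by decide) skipP
      (SS w u v a na z j p g r).fn rfl (show ovf p = false by simpa using hov)
    simp only [Sig.fn_p, Sig.upd_p] at h2
    exact h2

/-- one pointer test; `b` is the program that uses the result -/
def halfP (b : Prog RR) : Prog RR := .seq tagP (.seq showsP (.seq b (.seq (clearP .r)
  (.seq (clearP .g) (incP .p .t skipP)))))

/-- first bit -/
def bit1P : Prog RR := .prim fun h x => if x = .v then .pop else
  if x = .na then .push (xor ((h .r).isSome) ((h .v).getD false)) else .keep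

/-- second bit -/
def bit2P : Prog RR := .prim fun h x => if x = .na then .push ((h .r).isSome) else .keep

lemma isSome_head (r : List Bool) (b : Bool) (h : r ≠ [] ↔ b = true) : r.head?.isSome = b := by
  cases r with
  | nil =>
      cases b with
      | false => rfl
      | true => exact absurd rfl (h.2 rfl)
  | cons x r =>
      cases b with
      | false => exact absurd (h.1 (by simp)) (by simp)
      | true => rfl

lemma halfP_spec (b : Prog RR) (w u v a na v' na' j p : List Bool) (d : Bool) (n M : ℕ)
    (hM : 1 ≤ M) (hn : n ≤ M) (h8 : 8 ≤ n)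
    (h2 : 2 ^ n ≤ 256 * M) (hA : a.length ≤ 2 * M) (hp : p.length = n - 2)
    (hb : ∀ (g r : List Bool), (r ≠ [] ↔ shows (ZO O) a n (true :: d :: p) = true) →
      Ex .q O b (SS w (d :: u) v a na (List.replicate n false) j p g r).fn 2
        (SS w (d :: u) v' a na' (List.replicate n false) j p g r).fn) :
    Ex .q O (halfP b) (SS w (d :: u) v a na (List.replicate n false) j p [] []).fn
      (5000800 * M ^ 3)
      (SS w (d :: u) v' a na' (List.replicate n false) j (inc p) [] []).fn := by
  have h1 := tagP_spec (O := O) w u v a na (List.replicate n false) j p [] d M (by omega) hM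
  have hg : (true :: d :: p).length = n := by
    simp only [List.length_cons, hp]
    omega
  have h3 := showsS (O := O) w (d :: u) v a na j p (true :: d :: p) [] n M hM hn h2 hA hg
  set r' := (strs n).foldl (rStep O a (true :: d :: p) n) [] with hr'
  have h4 := hb (true :: d :: p) r' (pl_shows_iff a _ n)
  have hr'len : r'.length ≤ 2 ^ n := by
    have := length_rStep (O := O) a (true :: d :: p) n (strs n) []
    rw [pl_length_strs] at this
    simpa using this
  have h5 := clearP_spec (qr := RR.q) (O := O) .r
    (SS w (d :: u) v' a na' (List.replicate n false) j p (true :: d :: p) r').fn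
  simp only [Sig.fn_r, Sig.upd_r] at h5
  have h6 := clearP_spec (qr := RR.q) (O := O) .g
    (SS w (d :: u) v' a na' (List.replicate n false) j p (true :: d :: p) []).fn
  simp only [Sig.fn_g, Sig.upd_g] at h6
  have h7 := incP_p_spec (O := O) w (d :: u) v' a na' (List.replicate n false) j p [] []
  have h5' : Ex .q O (clearP .r)
      (SS w (d :: u) v' a na' (List.replicate n false) j p (true :: d :: p) r').fn
      (3 * r'.length + 1)
      (SS w (d :: u) v' a na' (List.replicate n false) j p (true :: d :: p) []).fn := h5
  have h6' : Ex .q O (clearP .g)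
      (SS w (d :: u) v' a na' (List.replicate n false) j p (true :: d :: p) []).fn
      (3 * (true :: d :: p).length + 1)
      (SS w (d :: u) v' a na' (List.replicate n false) j p [] []).fn := h6
  refine (h1.seq (h3.seq (h4.seq (h5'.seq (h6'.seq h7))))).mono ?_
  rw [hg, hp]
  have hM3 : M ≤ M ^ 3 := Nat.le_self_pow (by norm_num) M
  omega

/-- one element of the list of the bits of the child -/
def nodeBody : Prog RR := .seq (halfP bit1P) (halfP bit2P)

/-- the pointer bit -/
noncomputable def xb (O : Set (List Bool)) (a : List Bool) (d : Bool) (n : ℕ) (p : ℕ) : Bool :=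
  shows (ZO O) a n (true :: d :: idx n p)

lemma nodeBody_spec (w u v a na j : List Bool) (d b : Bool) (n M k : ℕ)
    (hM : 1 ≤ M) (hn : n ≤ M) (h8 : 8 ≤ n)
    (h2 : 2 ^ n ≤ 256 * M) (hA : a.length ≤ 2 * M) :
    Ex .q O nodeBody (SS w (d :: u) (b :: v) a na (List.replicate n false) j (idx n k) [] []).fn
      (10001600 * M ^ 3)
      (SS w (d :: u) v a (xb O a d n (k + 1) :: xor (xb O a d n k) b :: na)
        (List.replicate n false) j (idx n (k + 2)) [] []).fn := by
  have hlen : ∀ k, (idx n k).length = n - 2 := fun k => by rw [idx_eq, length_Y]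
  have hinc : ∀ k, inc (idx n k) = idx n (k + 1) := fun k => by rw [idx_eq, idx_eq, Y_succ]
  have h1 := halfP_spec (O := O) bit1P w u (b :: v) a na v (xor (xb O a d n k) b :: na) j
    (idx n k) d n M hM hn h8 h2 hA (hlen k) (by
      intro g r hr
      refine (Ex.prim _ _).of_eq ?_
      have hs := isSome_head r _ hr
      funext x
      cases x <;> first | rfl | skip
      simp only [SS, tops, Sig.fn, Op.app, hs]
      rfl)
  have h3 := halfP_spec (O := O) bit2P w u v a (xor (xb O a d n k) b :: na) v
    (xb O a d n (k + 1) :: xor (xb O a d n k) b :: na) j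
    (idx n (k + 1)) d n M hM hn h8 h2 hA (hlen _) (by
      intro g r hr
      refine (Ex.prim _ _).of_eq ?_
      have hs := isSome_head r _ hr
      funext x
      cases x <;> first | rfl | skip
      simp only [SS, tops, Sig.fn, Op.app, hs]
      rfl)
  rw [hinc] at h1 h3
  refine (h1.seq h3).mono ?_
  omega

/-- loop over the bits of the child -/
def nodeLoop : Prog RR := .loop (fun h => (h .v).isSome) nodeBody

lemma nodeLoop_spec (w u a j : List Bool) (d : Bool) (n M : ℕ)
    (hM : 1 ≤ M) (hn : n ≤ M) (h8 : 8 ≤ n)
    (h2 : 2 ^ n ≤ 256 * M) (hA : a.length ≤ 2 * M) (v : List Bool) :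
    ∀ (na : List Bool) (k : ℕ), Ex .q O nodeLoop
      (SS w (d :: u) v a na (List.replicate n false) j (idx n k) [] []).fn
      (v.length * (10001600 * M ^ 3 + 1) + 1)
      (SS w (d :: u) [] a (build (xb O a d n) v k na)
        (List.replicate n false) j (idx n (k + 2 * v.length)) [] []).fn := by
  induction v with
  | nil =>
      intro na k
      refine ((Ex.loopDone ?_).of_eq ?_).mono (by simp)
      · simp [tops, SS, Sig.fn]
      · simp [build]
  | cons b v ih =>
      intro na k
      have h1 := nodeBody_spec (O := O) w u v a na j d b n M k hM hn h8 h2 hA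
      have h3 := ih (xb O a d n (k + 1) :: xor (xb O a d n k) b :: na) (k + 2)
      refine ((Ex.loopStep ?_ h1 h3).of_eq ?_).mono ?_
      · simp [tops, SS, Sig.fn]
      · rw [build]
        congr 2
        congr 1
        simp only [List.length_cons]
        ring
      · simp only [List.length_cons]
        ring_nf
        exact le_rfl

/-- move the next input bit to the list of the processed bits -/
def nextP : Prog RR := .prim fun h x => if x = .w then .pop else
  if x = .u then .push ((h .w).getD false) else .keep

lemma nextP_spec (w u v a na z j p g r : List Bool) (d : Bool) :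
    Ex .q O nextP (SS (d :: w) u v a na z j p g r).fn 2 (SS w (d :: u) v a na z j p g r).fn := by
  refine (Ex.prim _ _).of_eq ?_
  funext x
  cases x <;> rfl

/-- increment of the level counter -/
def levInc : Prog RR := incP .j .t (.seq (pushP .j false) (pushP .z false))

lemma levInc_spec (w u v a na j p g r : List Bool) (n : ℕ) :
    Ex .q O levInc (SS w u v a na (List.replicate n false) j p g r).fn (6 * j.length + 7)
      (SS w u v a na (List.replicate (if ovf j then n + 1 else n) false) (incx j) p g r).fn := by
  unfold levInc
  by_cases hov : ovf j = true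
  · have h0 := pushP_spec (qr := RR.q) (O := O) .j false (update (update
      (SS w u v a na (List.replicate n false) j p g r).fn .j []) .t
      (List.replicate ((SS w u v a na (List.replicate n false) j p g r).fn .j).length false ++
        (SS w u v a na (List.replicate n false) j p g r).fn .t))
    simp only [Sig.fn_j, Sig.fn_t, Sig.upd_j, Sig.upd_t] at h0
    have h1 := pushP_spec (qr := RR.q) (O := O) .z false (SS w u v a na (List.replicate n false)
      j p g r).fn
    have hc : Ex .q O (.seq (pushP .j false) (pushP .z false)) (update (update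
      (SS w u v a na (List.replicate n false) j p g r).fn .j []) .t
      (List.replicate ((SS w u v a na (List.replicate n false) j p g r).fn .j).length false ++
        (SS w u v a na (List.replicate n false) j p g r).fn .t)) 4
      (Sig.fn ⟨w, u, v, a, na, List.replicate (n + 1) false, [false], p, [], [], g, [], [],
        List.replicate j.length false, [], [], [], [], r⟩) := by
      have h3 := pushP_spec (qr := RR.q) (O := O) .z false (Sig.fn ⟨w, u, v, a, na,
        List.replicate n false, [false], p, [], [], g, [], [],
        List.replicate j.length false, [], [], [], [], r⟩)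
      simp only [Sig.fn_z, Sig.upd_z] at h3
      simp only [Sig.fn_j, Sig.fn_t, Sig.upd_j, Sig.upd_t]
      refine ((h0.of_eq ?_).seq h3).of_eq ?_
      · simp [SS]
      · rw [List.replicate_succ]
    have h2 := incP_spec_true (qr := RR.q) (O := O) .j .t (by decide) _
      (SS w u v a na (List.replicate n false) j p g r).fn _ _ hov hc
    simp only [Sig.fn_j, Sig.fn_t, Sig.upd_j, Sig.upd_t] at h2
    refine (h2.of_eq ?_).mono ?_
    · rw [incx_eq, if_pos hov, if_pos hov]
      simp only [SS, List.reverse_replicate, ← List.replicate_succ']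
    · simp only [SS, List.length_replicate]
      omega
  · have h2 := incP_spec_false (qr := RR.q) (O := O) .j .t (by decide)
      (.seq (pushP .j false) (pushP .z false))
      (SS w u v a na (List.replicate n false) j p g r).fn rfl
      (show ovf j = false by simpa using hov)
    simp only [Sig.fn_j, Sig.upd_j] at h2
    refine h2.of_eq ?_
    rw [incx_eq, if_neg hov, if_neg hov]
    rfl

/-- one level -/
def levelP : Prog RR := .seq nextP (.seq (cpP .z .p .t) (.seq (popP .p) (.seq (popP .p)
  (.seq (cpP .u .v .t) (.seq nodeLoop (.seq (clearP .p) (.seq (clearP .a)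
    (.seq (mvP .na .t) (.seq (mvP .t .a) levInc)))))))))

lemma build_length (x : ℕ → Bool) (l : List Bool) : ∀ (p : ℕ) (na : List Bool),
    (build x l p na).length = 2 * l.length + na.length := by
  induction l with
  | nil => intro p na; simp [build]
  | cons b l ih =>
      intro p na
      rw [build, ih]
      simp only [List.length_cons]
      ring

lemma levelP_spec (w u a j : List Bool) (d : Bool) (n M : ℕ)
    (hM : 1 ≤ M) (hn : n ≤ M) (h8 : 8 ≤ n) (hj : j.length ≤ M) (hu : u.length + 1 ≤ M)
    (h2 : 2 ^ n ≤ 256 * M) (hA : a.length ≤ 2 * M) :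
    Ex .q O levelP (SS (d :: w) u [] a [] (List.replicate n false) j [] [] []).fn
      (10002000 * M ^ 4)
      (SS w (d :: u) [] (build (xb O a d n) (d :: u) 0 []) []
        (List.replicate (if ovf j then n + 1 else n) false) (incx j) [] [] []).fn := by
  have h1 := nextP_spec (O := O) w u [] a [] (List.replicate n false) j [] [] [] d
  have h3 := cpP_spec (qr := RR.q) (O := O) .z .p .t (by decide) (by decide) (by decide)
    (SS w (d :: u) [] a [] (List.replicate n false) j [] [] []).fn rfl
  simp only [Sig.fn_z, Sig.fn_p, Sig.upd_p] at h3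
  have h3' : Ex .q O (cpP .z .p .t) (SS w (d :: u) [] a [] (List.replicate n false) j [] [] []).fn
      (6 * n + 2)
      (SS w (d :: u) [] a [] (List.replicate n false) j (List.replicate n false) [] []).fn := by
    refine (h3.of_eq ?_).mono ?_
    · simp [SS]
    · simp [SS]
  have h4 := popP_spec (qr := RR.q) (O := O) .p
    (SS w (d :: u) [] a [] (List.replicate n false) j (List.replicate n false) [] []).fn
  simp only [Sig.fn_p, Sig.upd_p] at h4
  have h4' : Ex .q O (popP .p)
      (SS w (d :: u) [] a [] (List.replicate n false) j (List.replicate n false) [] []).fn 2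
      (SS w (d :: u) [] a [] (List.replicate n false) j (List.replicate (n - 1) false) [] []).fn := by
    refine h4.of_eq ?_
    simp [SS, List.tail_replicate]
  have h5 := popP_spec (qr := RR.q) (O := O) .p
    (SS w (d :: u) [] a [] (List.replicate n false) j (List.replicate (n - 1) false) [] []).fn
  simp only [Sig.fn_p, Sig.upd_p] at h5
  have h5' : Ex .q O (popP .p)
      (SS w (d :: u) [] a [] (List.replicate n false) j (List.replicate (n - 1) false) [] []).fn 2
      (SS w (d :: u) [] a [] (List.replicate n false) j (idx n 0) [] []).fn := by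
    refine h5.of_eq ?_
    simp only [SS, List.tail_replicate]
    rfl
  have h6 := cpP_spec (qr := RR.q) (O := O) .u .v .t (by decide) (by decide) (by decide)
    (SS w (d :: u) [] a [] (List.replicate n false) j (idx n 0) [] []).fn rfl
  simp only [Sig.fn_u, Sig.fn_v, Sig.upd_v] at h6
  have h6' : Ex .q O (cpP .u .v .t)
      (SS w (d :: u) [] a [] (List.replicate n false) j (idx n 0) [] []).fn
      (6 * (u.length + 1) + 2)
      (SS w (d :: u) (d :: u) a [] (List.replicate n false) j (idx n 0) [] []).fn := by
    refine (h6.of_eq ?_).mono ?_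
    · simp [SS]
    · simp [SS]
  have h7 := nodeLoop_spec (O := O) w u a j d n M hM hn h8 h2 hA (d :: u) [] 0
  set A' := build (xb O a d n) (d :: u) 0 [] with hA'
  have hA'len : A'.length = 2 * (u.length + 1) := by
    rw [hA', build_length]
    simp
  set p' := idx n (0 + 2 * (d :: u).length) with hp'
  have hp'len : p'.length = n - 2 := by rw [hp', idx_eq, length_Y]
  have h9 := clearP_spec (qr := RR.q) (O := O) .p
    (SS w (d :: u) [] a A' (List.replicate n false) j p' [] []).fn
  simp only [Sig.fn_p, Sig.upd_p] at h9
  have h10 := clearP_spec (qr := RR.q) (O := O) .a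
    (SS w (d :: u) [] a A' (List.replicate n false) j [] [] []).fn
  simp only [Sig.fn_a, Sig.upd_a] at h10
  have h11 := mvP_spec (qr := RR.q) (O := O) .na .t (by decide)
    (SS w (d :: u) [] [] A' (List.replicate n false) j [] [] []).fn
  simp only [Sig.fn_na, Sig.fn_t, Sig.upd_na, Sig.upd_t] at h11
  have h12 := mvP_spec (qr := RR.q) (O := O) .t .a (by decide)
    (Sig.fn ⟨w, d :: u, [], [], [], List.replicate n false, j, [], [], [], [], [], [],
      A'.reverse, [], [], [], [], []⟩)
  simp only [Sig.fn_t, Sig.fn_a, Sig.upd_t, Sig.upd_a] at h12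
  have h11' : Ex .q O (mvP .na .t) (SS w (d :: u) [] [] A' (List.replicate n false) j [] [] []).fn
      (3 * A'.length + 1)
      (Sig.fn ⟨w, d :: u, [], [], [], List.replicate n false, j, [], [], [], [], [], [],
      A'.reverse, [], [], [], [], []⟩) := by
    refine h11.of_eq ?_
    simp [SS]
  have h12' : Ex .q O (mvP .t .a) (Sig.fn ⟨w, d :: u, [], [], [], List.replicate n false, j, [],
      [], [], [], [], [], A'.reverse, [], [], [], [], []⟩) (3 * A'.length + 1)
      (SS w (d :: u) [] A' [] (List.replicate n false) j [] [] []).fn := by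
    refine (h12.of_eq ?_).mono ?_
    · simp [SS]
    · simp
  have h13 := levInc_spec (O := O) w (d :: u) [] A' [] j [] [] [] n
  have h9' : Ex .q O (clearP .p) (SS w (d :: u) [] a A' (List.replicate n false) j p' [] []).fn
    (3 * p'.length + 1) (SS w (d :: u) [] a A' (List.replicate n false) j [] [] []).fn := h9
  have h10' : Ex .q O (clearP .a) (SS w (d :: u) [] a A' (List.replicate n false) j [] [] []).fn
    (3 * a.length + 1) (SS w (d :: u) [] [] A' (List.replicate n false) j [] [] []).fn := h10
  refine (h1.seq (h3'.seq (h4'.seq (h5'.seq (h6'.seq (h7.seq (h9'.seq (h10'.seq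
    (h11'.seq (h12'.seq h13)))))))))).mono ?_
  rw [hp'len, hA'len]
  have hM4 : M ≤ M ^ 4 := Nat.le_self_pow (by norm_num) M
  have e1 : (d :: u).length * (10001600 * M ^ 3 + 1) ≤ M * (10001600 * M ^ 3 + 1) :=
    Nat.mul_le_mul_right _ (by simpa using hu)
  have e2 : M * (10001600 * M ^ 3 + 1) = 10001600 * M ^ 4 + M := by ring
  omega

lemma addr_length (Z : List Bool → Bool) (u : List Bool) : (addr Z u).length = 2 * u.length := by
  cases u with
  | nil => rfl
  | cons d u => rw [addr, build_length]; simp

lemma xb_eq (a : List Bool) (d : Bool) (n : ℕ) :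
    xb O a d n = fun p => shows (ZO O) a n (true :: d :: idx n p) := rfl

/-- the loop over all levels -/
def mainLoop : Prog RR := .loop (fun h => (h .w).isSome) levelP

lemma mainLoop_spec (M : ℕ) (w : List Bool) : ∀ u : List Bool, u.length + w.length + 8 ≤ M →
    Ex .q O mainLoop (SS w u [] (addr (ZO O) u) [] (List.replicate (sz u.length) false)
      (Jc u.length) [] [] []).fn (w.length * (10002000 * M ^ 4 + 1) + 1)
      (SS [] (w.reverse ++ u) [] (addr (ZO O) (w.reverse ++ u)) []
        (List.replicate (sz (w.reverse ++ u).length) false)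
        (Jc (w.reverse ++ u).length) [] [] []).fn := by
  induction w with
  | nil =>
      intro u hM
      refine ((Ex.loopDone ?_).of_eq ?_).mono (by simp)
      · simp [tops, SS, Sig.fn]
      · simp
  | cons d w ih =>
      intro u hM
      simp only [List.length_cons] at hM
      have hsz : sz u.length ≤ M := (sz_le _).trans (by omega)
      have h8 : 8 ≤ sz u.length := by unfold sz; omega
      have hj : (Jc u.length).length ≤ M := by
        have := sz_eq u.length
        omega
      have h2 : 2 ^ sz u.length ≤ 256 * M := (two_pow_sz_le _).trans (by omega)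
      have hA : (addr (ZO O) u).length ≤ 2 * M := by
        rw [addr_length]
        omega
      have h1 := levelP_spec (O := O) w u (addr (ZO O) u) (Jc u.length) d (sz u.length) M
        (by omega) hsz h8 hj (by omega) h2 hA
      have h3 := ih (d :: u) (by simp only [List.length_cons]; omega)
      have e : (SS w (d :: u) [] (build (xb O (addr (ZO O) u) d (sz u.length)) (d :: u) 0 []) []
        (List.replicate (if ovf (Jc u.length) then sz u.length + 1 else sz u.length) false)
        (incx (Jc u.length)) [] [] []).fn =
        (SS w (d :: u) [] (addr (ZO O) (d :: u)) [] (List.replicate (sz (d :: u).length) false)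
          (Jc (d :: u).length) [] [] []).fn := by
        rw [addr, List.length_cons, sz_succ, Jc_succ]
        rfl
      rw [e] at h1
      refine ((Ex.loopStep ?_ h1 h3).of_eq ?_).mono ?_
      · simp [tops, SS, Sig.fn]
      · simp only [List.reverse_cons, List.append_assoc, List.cons_append, List.nil_append]
      · simp only [List.length_cons]
        ring_nf
        exact le_rfl

/-- the final test -/
def finalP : Prog RR := .seq (cpP .z .g .t) (.seq (popP .g) (.seq (popP .g)
  (.seq (pushP .g true) (.seq (pushP .g false) showsP))))

lemma finalP_spec (u a j : List Bool) (n M : ℕ)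
    (hM : 1 ≤ M) (hn : n ≤ M) (h8 : 8 ≤ n)
    (h2 : 2 ^ n ≤ 256 * M) (hA : a.length ≤ 2 * M) :
    Ex .q O finalP (SS [] u [] a [] (List.replicate n false) j [] [] []).fn
      (5000100 * M ^ 3)
      (SS [] u [] a [] (List.replicate n false) j [] (haltTag n)
        ((strs n).foldl (rStep O a (haltTag n) n) [])).fn := by
  have h1 := cpP_spec (qr := RR.q) (O := O) .z .g .t (by decide) (by decide) (by decide)
    (SS [] u [] a [] (List.replicate n false) j [] [] []).fn rfl
  simp only [Sig.fn_z, Sig.fn_g, Sig.upd_g] at h1
  have h1' : Ex .q O (cpP .z .g .t) (SS [] u [] a [] (List.replicate n false) j [] [] []).fn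
      (6 * n + 2)
      (SS [] u [] a [] (List.replicate n false) j [] (List.replicate n false) []).fn := by
    refine (h1.of_eq ?_).mono ?_
    · simp [SS]
    · simp [SS]
  have h4 := popP_spec (qr := RR.q) (O := O) .g
    (SS [] u [] a [] (List.replicate n false) j [] (List.replicate n false) []).fn
  simp only [Sig.fn_g, Sig.upd_g] at h4
  have h4' : Ex .q O (popP .g)
      (SS [] u [] a [] (List.replicate n false) j [] (List.replicate n false) []).fn 2
      (SS [] u [] a [] (List.replicate n false) j [] (List.replicate (n - 1) false) []).fn := by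
    refine h4.of_eq ?_
    simp [SS, List.tail_replicate]
  have h5 := popP_spec (qr := RR.q) (O := O) .g
    (SS [] u [] a [] (List.replicate n false) j [] (List.replicate (n - 1) false) []).fn
  simp only [Sig.fn_g, Sig.upd_g] at h5
  have h5' : Ex .q O (popP .g)
      (SS [] u [] a [] (List.replicate n false) j [] (List.replicate (n - 1) false) []).fn 2
      (SS [] u [] a [] (List.replicate n false) j [] (List.replicate (n - 2) false) []).fn := by
    refine h5.of_eq ?_
    simp only [SS, List.tail_replicate]
    rfl
  have h6 := pushP_spec (qr := RR.q) (O := O) .g true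
    (SS [] u [] a [] (List.replicate n false) j [] (List.replicate (n - 2) false) []).fn
  simp only [Sig.fn_g, Sig.upd_g] at h6
  have h6' : Ex .q O (pushP .g true)
      (SS [] u [] a [] (List.replicate n false) j [] (List.replicate (n - 2) false) []).fn 2
      (SS [] u [] a [] (List.replicate n false) j [] (true :: List.replicate (n - 2) false) []).fn :=
    h6
  have h7 := pushP_spec (qr := RR.q) (O := O) .g false
    (SS [] u [] a [] (List.replicate n false) j [] (true :: List.replicate (n - 2) false) []).fn
  simp only [Sig.fn_g, Sig.upd_g] at h7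
  have h7' : Ex .q O (pushP .g false)
      (SS [] u [] a [] (List.replicate n false) j [] (true :: List.replicate (n - 2) false) []).fn 2
      (SS [] u [] a [] (List.replicate n false) j [] (haltTag n) []).fn := h7
  have hlen : (haltTag n).length = n := by
    simp only [haltTag, List.length_cons, List.length_replicate]
    omega
  have h9 := showsS (O := O) [] u [] a [] j [] (haltTag n) [] n M hM hn h2 hA hlen
  refine (h1'.seq (h4'.seq (h5'.seq (h6'.seq (h7'.seq h9))))).mono ?_
  have hM3 : M ≤ M ^ 3 := Nat.le_self_pow (by norm_num) M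
  omega

/-- push a fixed word -/
def pushAll (x : RR) : List Bool → Prog RR
  | [] => skipP
  | b :: l => .seq (pushAll x l) (pushP x b)

lemma pushAll_spec (x : RR) (l : List Bool) (st : RR → List Bool) :
    Ex .q O (pushAll x l) st (2 * l.length + 2) (update st x (l ++ st x)) := by
  induction l with
  | nil =>
      refine ((skipP_spec st).of_eq ?_).mono (by simp)
      simp
  | cons b l ih =>
      have h := pushP_spec (qr := RR.q) (O := O) x b (update st x (l ++ st x))
      refine ((ih.seq h).of_eq ?_).mono ?_
      · simp
      · simp only [List.length_cons]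
        omega

/-- the whole program -/
def totalP (pre : List Bool) : Prog RR := .seq (pushAll .w pre)
  (.seq (pushAll .z (List.replicate 8 false)) (.seq mainLoop finalP))

lemma totalP_spec (pre w : List Bool) :
    ∃ st', Ex .q O (totalP pre) (fun x => if x = .w then w else [])
      (16000000 * (w.length + (pre.length + 8)) ^ 5) st' ∧
      (st' .r ≠ [] ↔ accepts (ZO O) (pre ++ w) = true) := by
  set M := w.length + (pre.length + 8) with hMdef
  have h0 : (fun x => if x = RR.w then w else []) = (SS w [] [] [] [] [] [] [] [] []).fn := by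
    funext x
    cases x <;> rfl
  rw [h0]
  have h1 := pushAll_spec (O := O) .w pre (SS w [] [] [] [] [] [] [] [] []).fn
  simp only [Sig.fn_w, Sig.upd_w] at h1
  have h2 := pushAll_spec (O := O) .z (List.replicate 8 false)
    (SS (pre ++ w) [] [] [] [] [] [] [] [] []).fn
  simp only [Sig.fn_z, Sig.upd_z] at h2
  have h1' : Ex .q O (pushAll .w pre) (SS w [] [] [] [] [] [] [] [] []).fn (2 * pre.length + 2)
    (SS (pre ++ w) [] [] [] [] [] [] [] [] []).fn := h1
  have h2' : Ex .q O (pushAll .z (List.replicate 8 false))
    (SS (pre ++ w) [] [] [] [] [] [] [] [] []).fn 18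
    (SS (pre ++ w) [] [] (addr (ZO O) []) [] (List.replicate (sz ([] : List Bool).length) false)
      (Jc ([] : List Bool).length) [] [] []).fn := by
    refine (h2.of_eq ?_).mono (by simp)
    have : sz 0 = 8 := by simp [sz]
    simp only [SS, List.append_nil, List.length_nil, this]
    rfl
  have h3 := mainLoop_spec (O := O) M (pre ++ w) [] (by
    simp only [List.length_nil, List.length_append]
    omega)
  rw [List.append_nil] at h3
  set W := (pre ++ w).reverse with hW
  have hWlen : W.length = pre.length + w.length := by
    rw [hW, List.length_reverse, List.length_append]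
  have hsz : sz W.length ≤ M := (sz_le _).trans (by omega)
  have h8 : 8 ≤ sz W.length := by unfold sz; omega
  have h2W : 2 ^ sz W.length ≤ 256 * M := (two_pow_sz_le _).trans (by omega)
  have hA : (addr (ZO O) W).length ≤ 2 * M := by
    rw [addr_length]
    omega
  have h4 := finalP_spec (O := O) W (addr (ZO O) W) (Jc W.length) (sz W.length) M (by omega) hsz h8
    h2W hA
  refine ⟨_, (h1'.seq (h2'.seq (h3.seq h4))).mono ?_, ?_⟩
  · have hM5 : M ≤ M ^ 5 := Nat.le_self_pow (by norm_num) M
    have hM35 : M ^ 3 ≤ M ^ 5 := Nat.pow_le_pow_right (by omega) (by norm_num)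
    have e1 : (pre ++ w).length * (10002000 * M ^ 4 + 1) ≤ M * (10002000 * M ^ 4 + 1) :=
      Nat.mul_le_mul_right _ (by rw [List.length_append]; omega)
    have e2 : M * (10002000 * M ^ 4 + 1) = 10002000 * M ^ 5 + M := by ring
    omega
  · have e : accepts (ZO O) (pre ++ w) =
        shows (ZO O) (addr (ZO O) W) (sz W.length) (haltTag (sz W.length)) := by
      rw [accepts, hW, List.length_reverse]
    rw [e]
    simp only [Sig.fn_r, SS]
    exact pl_shows_iff _ _ _

open Classical in
/-- The decoding procedure is a polynomial time oracle computation. -/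
theorem accepts_inP (O : Set (List Bool)) (pre : List Bool) :
    InP O {w | accepts (fun x => decide (x ∉ O)) (pre ++ w) = true} := by
  apply inP_of_prog RR.w RR.q RR.r (totalP pre) O _
    (Polynomial.C 16000000 * (Polynomial.X + Polynomial.C (pre.length + 8)) ^ 5)
  intro w
  obtain ⟨st', h1, h2⟩ := totalP_spec (O := O) pre w
  refine ⟨st', ?_, h2⟩
  simpa using h1

end Pool.Agent.LibRC
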